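import Mathlib

set_option autoImplicit false

/-!
# Least primes: a trilinear form over a prime field
-/

namespace Pool.Agent.K9h54.LP

open Finset ZMod

variable {P : ℕ} [Fact P.Prime]

/-- the Fourier transform -/
noncomputable def FT (f : ZMod P → ℂ) (t : ZMod P) : ℂ := ∑ x, f x * stdAddChar (x * t)

lemma psi_sum (b : ZMod P) : ∑ t : ZMod P, (stdAddChar (t * b) : ℂ) = if b = 0 then (P : ℂ) else 0 := by
  have h := AddChar.sum_mulShift (ψ := (stdAddChar : AddChar (ZMod P) ℂ)) b (isPrimitive_stdAddChar P)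
  rw [h, ZMod.card]
  push_cast
  rfl

lemma norm_psi (x : ZMod P) : ‖(stdAddChar x : ℂ)‖ = 1 := by
  rw [stdAddChar_apply]
  exact Circle.norm_coe _

lemma psi_conj (x : ZMod P) : (starRingEnd ℂ) (stdAddChar x : ℂ) = stdAddChar (-x) :=
  (AddChar.map_neg_eq_conj _ _).symm

theorem parseval (f : ZMod P → ℂ) : ∑ t, ‖FT f t‖ ^ 2 = P * ∑ x, ‖f x‖ ^ 2 := by
  have h1 : ∀ t, ((‖FT f t‖ ^ 2 : ℝ) : ℂ) = ∑ x, ∑ y, f x * (starRingEnd ℂ) (f y) * stdAddChar (t * (x - y)) := by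
    intro t
    have e0 : ((‖FT f t‖ ^ 2 : ℝ) : ℂ) = FT f t * (starRingEnd ℂ) (FT f t) := by
      rw [Complex.mul_conj']
      push_cast
      rfl
    rw [e0]
    unfold FT
    rw [map_sum, sum_mul_sum]
    apply sum_congr rfl
    intro x _
    apply sum_congr rfl
    intro y _
    have e1 : (starRingEnd ℂ) (f y * stdAddChar (y * t)) = (starRingEnd ℂ) (f y) * stdAddChar (-(y * t)) := by
      rw [← psi_conj]
      exact map_mul (starRingEnd ℂ) _ _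
    have : t * (x - y) = x * t + -(y * t) := by ring
    rw [this, AddChar.map_add_eq_mul, e1]
    ring
  have h2 : ((∑ t, ‖FT f t‖ ^ 2 : ℝ) : ℂ) = ((P * ∑ x, ‖f x‖ ^ 2 : ℝ) : ℂ) := by
    push_cast
    have h3 : ∀ t, ((‖FT f t‖ : ℂ)) ^ 2 = ∑ x, ∑ y, f x * (starRingEnd ℂ) (f y) * stdAddChar (t * (x - y)) := by
      intro t
      rw [← h1 t]
      push_cast
      rfl
    simp only [h3]
    rw [sum_comm, mul_sum]
    apply sum_congr rfl
    intro x _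
    rw [sum_comm]
    have h4 : ∀ y, ∑ t, f x * (starRingEnd ℂ) (f y) * stdAddChar (t * (x - y)) =
        if y = x then (P : ℂ) * (‖f x‖ : ℂ) ^ 2 else 0 := by
      intro y
      rw [← mul_sum, psi_sum]
      split_ifs with h5 h6 h6
      · rw [h6, Complex.mul_conj']
        ring
      · exact absurd (sub_eq_zero.1 h5).symm h6
      · exact absurd (sub_eq_zero.2 h6.symm) h5
      · ring
    simp only [h4]
    simp
  exact_mod_cast h2

theorem inversion (f : ZMod P → ℂ) (x : ZMod P) : f x = (P : ℂ)⁻¹ * ∑ t, FT f t * stdAddChar (-(x * t)) := by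
  have hP : (P : ℂ) ≠ 0 := by
    have := (Fact.out : P.Prime).ne_zero
    exact_mod_cast this
  unfold FT
  have h1 : ∑ t, (∑ y, f y * stdAddChar (y * t)) * (stdAddChar (-(x * t)) : ℂ) = ∑ y, f y * if y = x then (P : ℂ) else 0 := by
    simp only [sum_mul]
    rw [sum_comm]
    apply sum_congr rfl
    intro y _
    have h2 : ∀ t, f y * stdAddChar (y * t) * (stdAddChar (-(x * t)) : ℂ) = f y * stdAddChar (t * (y - x)) := by
      intro t
      have : t * (y - x) = y * t + -(x * t) := by ring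
      rw [this, AddChar.map_add_eq_mul]
      ring
    simp only [h2]
    rw [← mul_sum, psi_sum]
    simp only [sub_eq_zero]
  rw [h1]
  simp
  field_simp

/-- the core estimate: a linear phase, three functions of three linear forms -/
theorem core_tri (j1 j2 j3 : ZMod P) (h12 : j1 ≠ j2) (h13 : j1 ≠ j3) (g1 g2 g3 : ZMod P → ℂ) (S : ℝ)
    (hS : ∀ t, ‖FT g1 t‖ ≤ S) (α β : ZMod P) :
    ‖∑ a, ∑ m, stdAddChar (a * α + m * β) * (g1 (a + j1 * m) * g2 (a + j2 * m) * g3 (a + j3 * m))‖ ≤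
      S * (√(∑ x, ‖g2 x‖ ^ 2) * √(∑ x, ‖g3 x‖ ^ 2)) := by
  classical
  have hP0 : (0 : ℝ) < P := by exact_mod_cast (Fact.out : P.Prime).pos
  have hd : j2 - j1 ≠ 0 := sub_ne_zero.2 (Ne.symm h12)
  have hd3 : j3 - j1 ≠ 0 := sub_ne_zero.2 (Ne.symm h13)
  obtain ⟨D, hD⟩ : ∃ D, D = (j2 - j1)⁻¹ := ⟨_, rfl⟩
  have hDd : D * (j2 - j1) = 1 := by rw [hD]; exact inv_mul_cancel₀ hd
  have hD0 : D ≠ 0 := by rw [hD]; exact inv_ne_zero hd
  -- the change of variables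
  have h1 : ∑ a, ∑ m, (stdAddChar (a * α + m * β) : ℂ) * (g1 (a + j1 * m) * g2 (a + j2 * m) * g3 (a + j3 * m)) =
      ∑ x, ∑ y, (stdAddChar (D * (j2 * x - j1 * y) * α + D * (y - x) * β) : ℂ) *
        (g1 x * g2 y * g3 (D * (j2 * x - j1 * y) + j3 * (D * (y - x)))) := by
    rw [← sum_product', ← sum_product']
    symm
    apply sum_bij' (fun q _ => (D * (j2 * q.1 - j1 * q.2), D * (q.2 - q.1))) (fun q _ => (q.1 + j1 * q.2, q.1 + j2 * q.2))
    · intro q _; simp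
    · intro q _; simp
    · intro q _
      apply Prod.ext
      · simp only
        linear_combination q.1 * hDd
      · simp only
        linear_combination q.2 * hDd
    · intro q _
      apply Prod.ext
      · simp only
        linear_combination q.1 * hDd
      · simp only
        linear_combination q.2 * hDd
    · intro q _
      simp only
      have e1 : D * (j2 * q.1 - j1 * q.2) + j1 * (D * (q.2 - q.1)) = q.1 := by linear_combination q.1 * hDd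
      have e2 : D * (j2 * q.1 - j1 * q.2) + j2 * (D * (q.2 - q.1)) = q.2 := by linear_combination q.2 * hDd
      rw [e1, e2]
  -- the expansion of the third function
  have h2 : ∑ x, ∑ y, (stdAddChar (D * (j2 * x - j1 * y) * α + D * (y - x) * β) : ℂ) *
        (g1 x * g2 y * g3 (D * (j2 * x - j1 * y) + j3 * (D * (y - x)))) =
      (P : ℂ)⁻¹ * ∑ t, FT g3 t * (FT g1 (D * (j2 * α - β - t * (j2 - j3))) * FT g2 (D * (β - j1 * α - t * (j3 - j1)))) := by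
    have e1 : ∀ x y : ZMod P, (stdAddChar (D * (j2 * x - j1 * y) * α + D * (y - x) * β) : ℂ) *
        (g1 x * g2 y * g3 (D * (j2 * x - j1 * y) + j3 * (D * (y - x)))) =
        ∑ t, (P : ℂ)⁻¹ * (FT g3 t * ((g1 x * stdAddChar (x * (D * (j2 * α - β - t * (j2 - j3))))) *
          (g2 y * stdAddChar (y * (D * (β - j1 * α - t * (j3 - j1))))))) := by
      intro x y
      rw [inversion g3 (D * (j2 * x - j1 * y) + j3 * (D * (y - x))), mul_sum, mul_sum, mul_sum]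
      apply sum_congr rfl
      intro t _
      have e2 : (stdAddChar (x * (D * (j2 * α - β - t * (j2 - j3)))) : ℂ) * stdAddChar (y * (D * (β - j1 * α - t * (j3 - j1)))) =
          stdAddChar (D * (j2 * x - j1 * y) * α + D * (y - x) * β) *
            stdAddChar (-((D * (j2 * x - j1 * y) + j3 * (D * (y - x))) * t)) := by
        rw [← AddChar.map_add_eq_mul, ← AddChar.map_add_eq_mul]
        congr 1
        ring
      linear_combination -((P : ℂ)⁻¹ * FT g3 t * g1 x * g2 y) * e2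
    simp only [e1]
    have e3 : ∀ x : ZMod P, ∑ y, ∑ t, (P : ℂ)⁻¹ * (FT g3 t * ((g1 x * stdAddChar (x * (D * (j2 * α - β - t * (j2 - j3))))) *
          (g2 y * stdAddChar (y * (D * (β - j1 * α - t * (j3 - j1))))))) =
        ∑ t, ∑ y, (P : ℂ)⁻¹ * (FT g3 t * ((g1 x * stdAddChar (x * (D * (j2 * α - β - t * (j2 - j3))))) *
          (g2 y * stdAddChar (y * (D * (β - j1 * α - t * (j3 - j1))))))) := fun x => sum_comm
    simp only [e3]
    rw [sum_comm, mul_sum]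
    apply sum_congr rfl
    intro t _
    have e4 : FT g1 (D * (j2 * α - β - t * (j2 - j3))) * FT g2 (D * (β - j1 * α - t * (j3 - j1))) =
        ∑ x, ∑ y, (g1 x * stdAddChar (x * (D * (j2 * α - β - t * (j2 - j3))))) *
          (g2 y * stdAddChar (y * (D * (β - j1 * α - t * (j3 - j1))))) := by
      unfold FT
      rw [sum_mul_sum]
    rw [e4]
    simp only [mul_sum]
  rw [h1, h2, norm_mul, norm_inv, Complex.norm_natCast]
  -- Cauchy-Schwarz
  have hS0 : 0 ≤ S := (norm_nonneg _).trans (hS 0)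
  have h3 : ‖∑ t, FT g3 t * (FT g1 (D * (j2 * α - β - t * (j2 - j3))) * FT g2 (D * (β - j1 * α - t * (j3 - j1))))‖ ≤
      S * ∑ t, ‖FT g3 t‖ * ‖FT g2 (D * (β - j1 * α - t * (j3 - j1)))‖ := by
    refine (norm_sum_le _ _).trans ?_
    rw [mul_sum]
    apply sum_le_sum
    intro t _
    rw [norm_mul, norm_mul]
    have := hS (D * (j2 * α - β - t * (j2 - j3)))
    have n1 := norm_nonneg (FT g3 t)
    have n2 := norm_nonneg (FT g2 (D * (β - j1 * α - t * (j3 - j1))))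
    calc ‖FT g3 t‖ * (‖FT g1 (D * (j2 * α - β - t * (j2 - j3)))‖ * ‖FT g2 (D * (β - j1 * α - t * (j3 - j1)))‖) ≤
        ‖FT g3 t‖ * (S * ‖FT g2 (D * (β - j1 * α - t * (j3 - j1)))‖) :=
          mul_le_mul_of_nonneg_left (mul_le_mul_of_nonneg_right this n2) n1
      _ = _ := by ring
  have h4 : (∑ t, ‖FT g3 t‖ * ‖FT g2 (D * (β - j1 * α - t * (j3 - j1)))‖) ≤
      √(∑ t, ‖FT g3 t‖ ^ 2) * √(∑ t, ‖FT g2 (D * (β - j1 * α - t * (j3 - j1)))‖ ^ 2) :=
    Real.sum_mul_le_sqrt_mul_sqrt _ _ _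
  have h5 : ∑ t, ‖FT g2 (D * (β - j1 * α - t * (j3 - j1)))‖ ^ 2 = ∑ t, ‖FT g2 t‖ ^ 2 := by
    apply Fintype.sum_bijective (fun t => D * (β - j1 * α - t * (j3 - j1)))
    · apply (Finite.injective_iff_bijective).1
      intro t t' h
      simp only at h
      have h6 := mul_left_cancel₀ hD0 h
      have h7 : (t - t') * (j3 - j1) = 0 := by linear_combination -h6
      rcases mul_eq_zero.1 h7 with h8 | h8
      · exact sub_eq_zero.1 h8
      · exact absurd h8 hd3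
    · intro t
      rfl
  rw [h5, parseval, parseval] at h4
  have h6 : √((P : ℝ) * ∑ x, ‖g3 x‖ ^ 2) * √((P : ℝ) * ∑ x, ‖g2 x‖ ^ 2) =
      P * (√(∑ x, ‖g2 x‖ ^ 2) * √(∑ x, ‖g3 x‖ ^ 2)) := by
    rw [Real.sqrt_mul hP0.le, Real.sqrt_mul hP0.le]
    have := Real.mul_self_sqrt hP0.le
    linear_combination (√(∑ x, ‖g2 x‖ ^ 2) * √(∑ x, ‖g3 x‖ ^ 2)) * this
  rw [h6] at h4
  calc (P : ℝ)⁻¹ * ‖∑ t, FT g3 t * (FT g1 (D * (j2 * α - β - t * (j2 - j3))) * FT g2 (D * (β - j1 * α - t * (j3 - j1))))‖ ≤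
      (P : ℝ)⁻¹ * (S * (P * (√(∑ x, ‖g2 x‖ ^ 2) * √(∑ x, ‖g3 x‖ ^ 2)))) := by
        apply mul_le_mul_of_nonneg_left _ (by positivity)
        exact h3.trans (mul_le_mul_of_nonneg_left h4 hS0)
    _ = _ := by field_simp

/-- the trilinear form over a box -/
theorem box_tri (j1 j2 j3 : ZMod P) (h12 : j1 ≠ j2) (h13 : j1 ≠ j3) (g1 g2 g3 : ZMod P → ℂ) (S : ℝ)
    (hS : ∀ t, ‖FT g1 t‖ ≤ S) (b1 b2 : ZMod P → ℂ) (K : ℝ) (hb1 : ∑ t, ‖FT b1 t‖ ≤ P * K) (hb2 : ∑ t, ‖FT b2 t‖ ≤ P * K) :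
    ‖∑ a, ∑ m, b1 a * b2 m * (g1 (a + j1 * m) * g2 (a + j2 * m) * g3 (a + j3 * m))‖ ≤
      K ^ 2 * (S * (√(∑ x, ‖g2 x‖ ^ 2) * √(∑ x, ‖g3 x‖ ^ 2))) := by
  classical
  have hP0 : (0 : ℝ) < P := by exact_mod_cast (Fact.out : P.Prime).pos
  obtain ⟨Q, hQ⟩ : ∃ Q, Q = S * (√(∑ x, ‖g2 x‖ ^ 2) * √(∑ x, ‖g3 x‖ ^ 2)) := ⟨_, rfl⟩
  rw [← hQ]
  have hS0 : 0 ≤ S := (norm_nonneg _).trans (hS 0)
  have hQ0 : 0 ≤ Q := by rw [hQ]; positivity
  have hK0 : 0 ≤ K := by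
    have : 0 ≤ P * K := (sum_nonneg fun _ _ => norm_nonneg _).trans hb1
    exact nonneg_of_mul_nonneg_right this hP0
  have h1 : ∑ a, ∑ m, b1 a * b2 m * (g1 (a + j1 * m) * g2 (a + j2 * m) * g3 (a + j3 * m)) =
      ∑ k, ∑ l, (P : ℂ)⁻¹ * (P : ℂ)⁻¹ * (FT b1 k * FT b2 l) *
        ∑ a, ∑ m, stdAddChar (a * (-k) + m * (-l)) * (g1 (a + j1 * m) * g2 (a + j2 * m) * g3 (a + j3 * m)) := by
    have e1 : ∀ a m : ZMod P, b1 a * b2 m * (g1 (a + j1 * m) * g2 (a + j2 * m) * g3 (a + j3 * m)) =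
        ∑ k, ∑ l, (P : ℂ)⁻¹ * (P : ℂ)⁻¹ * (FT b1 k * FT b2 l) *
          (stdAddChar (a * (-k) + m * (-l)) * (g1 (a + j1 * m) * g2 (a + j2 * m) * g3 (a + j3 * m))) := by
      intro a m
      rw [inversion b1 a, inversion b2 m]
      have e2 : (P : ℂ)⁻¹ * (∑ t, FT b1 t * stdAddChar (-(a * t))) * ((P : ℂ)⁻¹ * ∑ t, FT b2 t * stdAddChar (-(m * t))) =
          ∑ k, ∑ l, (P : ℂ)⁻¹ * (P : ℂ)⁻¹ * (FT b1 k * FT b2 l) * stdAddChar (a * (-k) + m * (-l)) := by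
        have e3 : (P : ℂ)⁻¹ * (∑ t, FT b1 t * stdAddChar (-(a * t))) * ((P : ℂ)⁻¹ * ∑ t, FT b2 t * stdAddChar (-(m * t))) =
            (P : ℂ)⁻¹ * (P : ℂ)⁻¹ * ((∑ t, FT b1 t * stdAddChar (-(a * t))) * ∑ t, FT b2 t * stdAddChar (-(m * t))) := by ring
        rw [e3, sum_mul_sum, mul_sum]
        apply sum_congr rfl
        intro k _
        rw [mul_sum]
        apply sum_congr rfl
        intro l _
        have e4 : a * (-k) + m * (-l) = -(a * k) + -(m * l) := by ring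
        rw [e4, AddChar.map_add_eq_mul]
        ring
      rw [e2, sum_mul]
      apply sum_congr rfl
      intro k _
      rw [sum_mul]
      apply sum_congr rfl
      intro l _
      ring
    simp only [e1]
    have e5 : ∀ F : ZMod P → ZMod P → ZMod P → ZMod P → ℂ, ∑ a, ∑ m, ∑ k, ∑ l, F a m k l = ∑ k, ∑ l, ∑ a, ∑ m, F a m k l := by
      intro F
      calc ∑ a, ∑ m, ∑ k, ∑ l, F a m k l = ∑ a, ∑ k, ∑ m, ∑ l, F a m k l := sum_congr rfl fun a _ => sum_comm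
        _ = ∑ k, ∑ a, ∑ m, ∑ l, F a m k l := sum_comm
        _ = ∑ k, ∑ a, ∑ l, ∑ m, F a m k l := sum_congr rfl fun k _ => sum_congr rfl fun a _ => sum_comm
        _ = ∑ k, ∑ l, ∑ a, ∑ m, F a m k l := sum_congr rfl fun k _ => sum_comm
    rw [e5]
    apply sum_congr rfl
    intro k _
    apply sum_congr rfl
    intro l _
    simp only [mul_sum]
  rw [h1]
  have h2 : ∀ k l : ZMod P, ‖(P : ℂ)⁻¹ * (P : ℂ)⁻¹ * (FT b1 k * FT b2 l) *
        ∑ a, ∑ m, stdAddChar (a * (-k) + m * (-l)) * (g1 (a + j1 * m) * g2 (a + j2 * m) * g3 (a + j3 * m))‖ ≤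
      (P : ℝ)⁻¹ * (P : ℝ)⁻¹ * (‖FT b1 k‖ * ‖FT b2 l‖) * Q := by
    intro k l
    rw [norm_mul, norm_mul, norm_mul, norm_mul, norm_inv, Complex.norm_natCast]
    apply mul_le_mul_of_nonneg_left _ (by positivity)
    rw [hQ]
    exact core_tri j1 j2 j3 h12 h13 g1 g2 g3 S hS (-k) (-l)
  have h3 : ‖∑ k, ∑ l, (P : ℂ)⁻¹ * (P : ℂ)⁻¹ * (FT b1 k * FT b2 l) *
        ∑ a, ∑ m, stdAddChar (a * (-k) + m * (-l)) * (g1 (a + j1 * m) * g2 (a + j2 * m) * g3 (a + j3 * m))‖ ≤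
      ∑ k, ∑ l, (P : ℝ)⁻¹ * (P : ℝ)⁻¹ * (‖FT b1 k‖ * ‖FT b2 l‖) * Q := by
    refine (norm_sum_le _ _).trans (sum_le_sum fun k _ => ?_)
    exact (norm_sum_le _ _).trans (sum_le_sum fun l _ => h2 k l)
  refine h3.trans ?_
  have h4 : ∑ k, ∑ l, (P : ℝ)⁻¹ * (P : ℝ)⁻¹ * (‖FT b1 k‖ * ‖FT b2 l‖) * Q =
      (P : ℝ)⁻¹ * (P : ℝ)⁻¹ * ((∑ k, ‖FT b1 k‖) * ∑ l, ‖FT b2 l‖) * Q := by
    rw [sum_mul_sum]
    simp only [mul_sum, sum_mul]
  rw [h4]
  have h5 : (∑ k, ‖FT b1 k‖) * ∑ l, ‖FT b2 l‖ ≤ (P * K) * (P * K) :=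
    mul_le_mul hb1 hb2 (sum_nonneg fun _ _ => norm_nonneg _) (by positivity)
  calc (P : ℝ)⁻¹ * (P : ℝ)⁻¹ * ((∑ k, ‖FT b1 k‖) * ∑ l, ‖FT b2 l‖) * Q ≤ (P : ℝ)⁻¹ * (P : ℝ)⁻¹ * ((P * K) * (P * K)) * Q := by
        apply mul_le_mul_of_nonneg_right _ hQ0
        exact mul_le_mul_of_nonneg_left h5 (by positivity)
    _ = K ^ 2 * Q := by field_simp

end Pool.Agent.K9h54.LP
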