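import Pool.Agent.K9h54.LP.F9

set_option autoImplicit false

/-!
# Least primes: the exceptional pairs, the number of the coprime pairs
-/

namespace Pool.Agent.K9h54.LP

open Finset Filter Topology
open Pool.Agent.H373R2.T7 (pz Vz mem_pz ev_L')

lemma mult_le (n p : ℕ) (hp : 1 ≤ p) : (((Icc 1 n).filter fun a => p ∣ a).card : ℝ) ≤ n / p := by
  have e : Icc 1 n = Ioc 0 n := by ext; simp [Nat.lt_iff_add_one_le]
  rw [e, Nat.Ioc_filter_dvd_card_eq_div]
  exact Nat.cast_div_le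

open Classical in
/-- pairs with a common prime factor above `w` -/
lemma shared_le (w M : ℕ) (hw : 1 ≤ w) :
    ∑ m ∈ Icc 1 (2 * M), (((Icc 1 (2 * M)).filter fun a => ∃ p, p.Prime ∧ w < p ∧ p ∣ a ∧ p ∣ m).card : ℝ) ≤
      4 * (M : ℝ) ^ 2 / w := by
  obtain ⟨P, hP⟩ : ∃ P, P = (Icc 1 (2 * M)).filter fun p => p.Prime ∧ w < p := ⟨_, rfl⟩
  have h1 : ∀ m ∈ Icc 1 (2 * M), (((Icc 1 (2 * M)).filter fun a => ∃ p, p.Prime ∧ w < p ∧ p ∣ a ∧ p ∣ m).card : ℝ) ≤
      ∑ p ∈ P, (if p ∣ m then (((Icc 1 (2 * M)).filter fun a => p ∣ a).card : ℝ) else 0) := by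
    intro m hm
    rw [mem_Icc] at hm
    have h2 : (Icc 1 (2 * M)).filter (fun a => ∃ p, p.Prime ∧ w < p ∧ p ∣ a ∧ p ∣ m) ⊆
        (P.filter fun p => p ∣ m).biUnion fun p => (Icc 1 (2 * M)).filter fun a => p ∣ a := by
      intro a ha
      rw [mem_filter] at ha
      obtain ⟨ha1, p, hp, hwp, hpa, hpm⟩ := ha
      rw [mem_biUnion]
      refine ⟨p, ?_, ?_⟩
      · rw [mem_filter, hP, mem_filter, mem_Icc]
        exact ⟨⟨⟨hp.one_le, (Nat.le_of_dvd hm.1 hpm).trans hm.2⟩, hp, hwp⟩, hpm⟩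
      · rw [mem_filter]
        exact ⟨ha1, hpa⟩
    have h3 := (card_le_card h2).trans card_biUnion_le
    rw [← sum_filter]
    exact_mod_cast h3
  refine (sum_le_sum h1).trans ?_
  rw [sum_comm]
  have h4 : ∀ p ∈ P, ∑ m ∈ Icc 1 (2 * M), (if p ∣ m then (((Icc 1 (2 * M)).filter fun a => p ∣ a).card : ℝ) else 0) ≤
      4 * (M : ℝ) ^ 2 * (1 / ((p : ℝ) * (p - 1))) := by
    intro p hp
    rw [hP, mem_filter] at hp
    have hp1 : 1 ≤ p := hp.2.1.one_le
    have hp2 : (2 : ℝ) ≤ p := by exact_mod_cast hp.2.1.two_le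
    rw [← sum_filter, sum_const, nsmul_eq_mul]
    have h5 := mult_le (2 * M) p hp1
    calc (((Icc 1 (2 * M)).filter fun a => p ∣ a).card : ℝ) * ((Icc 1 (2 * M)).filter fun a => p ∣ a).card ≤
          (((2 * M : ℕ) : ℝ) / p) * (((2 * M : ℕ) : ℝ) / p) := mul_le_mul h5 h5 (Nat.cast_nonneg _) (by positivity)
      _ = 4 * (M : ℝ) ^ 2 * (1 / (p * p)) := by push_cast; field_simp; ring
      _ ≤ _ := by
          apply mul_le_mul_of_nonneg_left _ (by positivity)
          apply one_div_le_one_div_of_le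
          · apply mul_pos <;> linarith
          · apply mul_le_mul_of_nonneg_left _ (by linarith)
            linarith
  refine (sum_le_sum h4).trans ?_
  rw [← mul_sum]
  have h5 := sum_sq_le (P := P) hw (fun p hp => by rw [hP, mem_filter] at hp; exact hp.2.2)
  calc 4 * (M : ℝ) ^ 2 * ∑ p ∈ P, 1 / ((p : ℝ) * (p - 1)) ≤ 4 * (M : ℝ) ^ 2 * (1 / w) := by gcongr
    _ = _ := by ring

/-- the primes have density zero -/
lemma primes_few (δ : ℝ) (hδ : 0 < δ) : ∃ M0 : ℕ, ∀ M : ℕ, M0 ≤ M → (((Icc 1 (2 * M)).filter Nat.Prime).card : ℝ) ≤ δ * M := by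
  have h1 := Chebyshev.eventually_primeCounting_le one_pos
  have h2 : ∀ᶠ x : ℝ in atTop, (Real.log 4 + 1) * x / Real.log x ≤ δ / 2 * x := by
    filter_upwards [Real.tendsto_log_atTop.eventually_ge_atTop ((Real.log 4 + 1) / (δ / 2)), Real.tendsto_log_atTop.eventually_ge_atTop 1,
      eventually_ge_atTop 0] with x hx hx1 hx0
    rw [div_le_iff₀ (by positivity)] at hx
    rw [div_le_iff₀ (by linarith)]
    nlinarith
  have h3 : Tendsto (fun M : ℕ => (2 : ℝ) * M) atTop atTop :=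
    (tendsto_natCast_atTop_atTop (R := ℝ)).const_mul_atTop two_pos
  obtain ⟨M0, h0⟩ := eventually_atTop.1 (h3.eventually (h1.and h2))
  refine ⟨M0, fun M hM => ?_⟩
  obtain ⟨a1, a2⟩ := h0 M hM
  have e1 : ⌊(2 : ℝ) * M⌋₊ = 2 * M := by
    have : (2 : ℝ) * M = ((2 * M : ℕ) : ℝ) := by push_cast; rfl
    rw [this, Nat.floor_natCast]
  rw [e1] at a1
  have e2 : ((Icc 1 (2 * M)).filter Nat.Prime).card ≤ Nat.primeCounting (2 * M) := by
    unfold Nat.primeCounting Nat.primeCounting'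
    rw [Nat.count_eq_card_filter_range]
    apply card_le_card
    intro p hp
    rw [mem_filter, mem_Icc] at hp
    rw [mem_filter, mem_range]
    exact ⟨by omega, hp.2⟩
  have e3 : (((Icc 1 (2 * M)).filter Nat.Prime).card : ℝ) ≤ Nat.primeCounting (2 * M) := by exact_mod_cast e2
  calc (((Icc 1 (2 * M)).filter Nat.Prime).card : ℝ) ≤ Nat.primeCounting (2 * M) := e3
    _ ≤ δ / 2 * (2 * M) := a1.trans a2
    _ = _ := by ring

/-- the number of the coprime pairs -/
lemma phi_lower : ∃ M0 : ℕ, ∀ M : ℕ, M0 ≤ M → (M : ℝ) ^ 2 / 4 ≤ ∑ m ∈ Ioc M (2 * M), (Nat.totient m : ℝ) := by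
  classical
  obtain ⟨M0, h0⟩ := Pool.Agent.H373R2.T7.ev_log' 1 1
  refine ⟨max M0 10000, fun M hM => ?_⟩
  have hlog := h0 M (by omega)
  have hM1 : (10000 : ℝ) ≤ M := by exact_mod_cast (show 10000 ≤ M by omega)
  obtain ⟨P, hP⟩ : ∃ P, P = (Icc 1 M).filter Nat.Prime := ⟨_, rfl⟩
  have h1 : ∀ m ∈ Ioc M (2 * M), (M : ℝ) - ∑ p ∈ P, (if p ∣ m then (((Icc 1 M).filter fun a => p ∣ a).card : ℝ) else 0) ≤ Nat.totient m := by
    intro m hm
    rw [mem_Ioc] at hm
    have h2 : Icc 1 M ⊆ ((range m).filter fun a => m.Coprime a) ∪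
        (P.filter fun p => p ∣ m).biUnion fun p => (Icc 1 M).filter fun a => p ∣ a := by
      intro a ha
      rw [mem_union]
      by_cases hc : m.Coprime a
      · left
        rw [mem_Icc] at ha
        rw [mem_filter, mem_range]
        exact ⟨by omega, hc⟩
      · right
        obtain ⟨p, hp, hpm, hpa⟩ := Nat.Prime.not_coprime_iff_dvd.1 hc
        rw [mem_biUnion]
        have ha' := mem_Icc.1 ha
        refine ⟨p, ?_, ?_⟩
        · rw [mem_filter, hP, mem_filter, mem_Icc]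
          exact ⟨⟨⟨hp.one_le, (Nat.le_of_dvd ha'.1 hpa).trans ha'.2⟩, hp⟩, hpm⟩
        · rw [mem_filter]
          exact ⟨ha, hpa⟩
    have h3 := (card_le_card h2).trans ((card_union_le _ _).trans (Nat.add_le_add_left card_biUnion_le _))
    rw [Nat.card_Icc, Nat.add_sub_cancel, ← Nat.totient_eq_card_coprime] at h3
    rw [← sum_filter]
    have h4 : (M : ℝ) ≤ Nat.totient m + ∑ p ∈ P.filter (fun p => p ∣ m), (((Icc 1 M).filter fun a => p ∣ a).card : ℝ) := by
      exact_mod_cast h3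
    linarith
  have h2 : ∀ p ∈ P, ∑ m ∈ Ioc M (2 * M), (if p ∣ m then (((Icc 1 M).filter fun a => p ∣ a).card : ℝ) else 0) ≤
      (M : ℝ) ^ 2 * (1 / (p : ℝ) ^ 2) + M * (1 / p) := by
    intro p hp
    rw [hP, mem_filter] at hp
    have hp1 : 1 ≤ p := hp.2.one_le
    have hp0 : (0 : ℝ) < p := by exact_mod_cast hp1
    rw [← sum_filter, sum_const, nsmul_eq_mul]
    have h5 := mult_le M p hp1
    have h6 : (((Ioc M (2 * M)).filter fun a => p ∣ a).card : ℝ) ≤ M / p + 1 := by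
      have k1 : ((Ioc M (2 * M)).filter fun a => p ∣ a).card + ((Icc 1 M).filter fun a => p ∣ a).card ≤
          ((Icc 1 (2 * M)).filter fun a => p ∣ a).card := by
        rw [← card_union_of_disjoint]
        · apply card_le_card
          intro a ha
          rw [mem_union, mem_filter, mem_filter, mem_Ioc, mem_Icc] at ha
          rw [mem_filter, mem_Icc]
          rcases ha with ⟨h7, h8⟩ | ⟨h7, h8⟩ <;> exact ⟨by omega, h8⟩
        · rw [disjoint_left]
          intro a ha ha'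
          rw [mem_filter, mem_Ioc] at ha
          rw [mem_filter, mem_Icc] at ha'
          omega
      have e : Icc 1 M = Ioc 0 M := by ext; simp [Nat.lt_iff_add_one_le]
      have e' : Icc 1 (2 * M) = Ioc 0 (2 * M) := by ext; simp [Nat.lt_iff_add_one_le]
      rw [e, e', Nat.Ioc_filter_dvd_card_eq_div, Nat.Ioc_filter_dvd_card_eq_div] at k1
      have k2 : (((Ioc M (2 * M)).filter fun a => p ∣ a).card : ℝ) + ((M / p : ℕ) : ℝ) ≤ ((2 * M / p : ℕ) : ℝ) := by exact_mod_cast k1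
      have k3 : ((2 * M / p : ℕ) : ℝ) ≤ ((2 * M : ℕ) : ℝ) / p := Nat.cast_div_le
      have k4 : (M : ℝ) / p - 1 ≤ ((M / p : ℕ) : ℝ) := by
        have := Nat.lt_div_mul_add (a := M) hp1
        have h8 : (M : ℝ) < ((M / p : ℕ) : ℝ) * p + p := by exact_mod_cast this
        rw [sub_le_iff_le_add, div_le_iff₀ hp0]
        linarith
      have k5 : ((2 * M : ℕ) : ℝ) / p = M / p + M / p := by push_cast; ring
      linarith
    calc (((Ioc M (2 * M)).filter fun a => p ∣ a).card : ℝ) * ((Icc 1 M).filter fun a => p ∣ a).card ≤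
          (M / p + 1) * (M / p) := mul_le_mul h6 h5 (Nat.cast_nonneg _) (by positivity)
      _ = _ := by field_simp
  have h3 : ∑ p ∈ P, (1 / (p : ℝ) ^ 2) ≤ 25 / 36 := by
    have k1 : P ⊆ insert 2 (insert 3 (P.filter fun p => 3 < p)) := by
      intro p hp
      have hp' := hp
      rw [hP, mem_filter] at hp'
      have := hp'.2.two_le
      rw [mem_insert, mem_insert, mem_filter]
      by_cases h4 : 3 < p
      · exact Or.inr (Or.inr ⟨hp, h4⟩)
      · have : p = 2 ∨ p = 3 := by omega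
        rcases this with h | h
        · exact Or.inl h
        · exact Or.inr (Or.inl h)
    have k2 : ∑ p ∈ P, (1 / (p : ℝ) ^ 2) ≤ ∑ p ∈ insert 2 (insert 3 (P.filter fun p => 3 < p)), (1 / (p : ℝ) ^ 2) :=
      sum_le_sum_of_subset_of_nonneg k1 fun _ _ _ => by positivity
    refine k2.trans ?_
    rw [sum_insert (by simp), sum_insert (by simp)]
    have k3 : ∑ p ∈ P.filter (fun p => 3 < p), (1 / (p : ℝ) ^ 2) ≤ ∑ p ∈ P.filter (fun p => 3 < p), 1 / ((p : ℝ) * (p - 1)) := by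
      apply sum_le_sum
      intro p hp
      rw [mem_filter] at hp
      have : (3 : ℝ) < p := by exact_mod_cast hp.2
      apply one_div_le_one_div_of_le
      · apply mul_pos <;> linarith
      · nlinarith
    have k4 := sum_sq_le (P := P.filter (fun p => 3 < p)) (w := 3) (by norm_num) (fun p hp => (mem_filter.1 hp).2)
    norm_num at k4 ⊢
    norm_num at k3
    linarith
  have h4 : ∑ p ∈ P, (1 / (p : ℝ)) ≤ 1 + Real.log M := by
    have := Pool.Agent.H373R2.T7.sum_pz_le M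
    rw [hP]
    exact this
  have h5 := sum_le_sum h1
  rw [sum_sub_distrib, sum_comm, sum_const, Nat.card_Ioc, nsmul_eq_mul] at h5
  have h6 := sum_le_sum h2
  rw [sum_add_distrib, ← mul_sum, ← mul_sum] at h6
  have e : ((2 * M - M : ℕ) : ℝ) = M := by
    rw [two_mul, Nat.add_sub_cancel]
  rw [e] at h5
  have h7 : (M : ℝ) ^ 2 * ∑ p ∈ P, (1 / (p : ℝ) ^ 2) ≤ (M : ℝ) ^ 2 * (25 / 36) := by gcongr
  have h8 : (M : ℝ) * ∑ p ∈ P, (1 / (p : ℝ)) ≤ M * (1 + Real.log M) := by gcongr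
  have h9 : (M : ℝ) * (1 + Real.log M) ≤ (M : ℝ) ^ 2 * (2 / 36) := by
    rw [one_mul, pow_one] at hlog
    have hs := Real.mul_self_sqrt (show (0 : ℝ) ≤ M by linarith)
    have hs2 : (100 : ℝ) ≤ √M := by
      apply Real.le_sqrt_of_sq_le
      linarith
    have : 1 + Real.log M ≤ M * (2 / 36) := by nlinarith
    nlinarith
  have h10 : (M : ℝ) * M = M ^ 2 := by ring
  linarith

end Pool.Agent.K9h54.LP
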