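import Pool.Agent.K9h54.LP.F10

set_option autoImplicit false

/-!
# Least primes: from the classes to the moduli
-/

namespace Pool.Agent.K9h54.LP

open Finset Filter Topology
open Pool.Agent.H373R2.T7 (pz Vz mem_pz ev_L')

/-- every prime `p ≡ c (mod m)` is larger than `lam φ(m) log m` -/
def Late (lam : ℝ) (m c : ℕ) : Prop := ∀ p : ℕ, p.Prime → p ≡ c [MOD m] → lam * Nat.totient m * Real.log m < p

lemma phi_kap (w m : ℕ) (hm : 1 ≤ m) : (Nat.totient m : ℝ) ≤ m * kap w (m % Ww w) := by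
  classical
  have h1 : (Nat.totient m : ℝ) = m * ∏ p ∈ m.primeFactors, (1 - (p : ℝ)⁻¹) := by
    have := congrArg (fun x : ℚ => (x : ℝ)) (Nat.totient_eq_mul_prod_factors m)
    push_cast at this
    exact this
  rw [h1]
  apply mul_le_mul_of_nonneg_left _ (Nat.cast_nonneg _)
  have h2 : kap w (m % Ww w) = ∏ p ∈ (pz w).filter (fun p => p ∣ m), (1 - (p : ℝ)⁻¹) := by
    unfold kap
    rw [prod_filter]
    apply prod_congr rfl
    intro p hp
    have : p ∣ m % Ww w ↔ p ∣ m := Nat.dvd_mod_iff (dvd_Ww hp)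
    simp only [this, one_div]
  rw [h2]
  have h3 : (pz w).filter (fun p => p ∣ m) ⊆ m.primeFactors := by
    intro p hp
    rw [mem_filter, mem_pz] at hp
    rw [Nat.mem_primeFactors]
    exact ⟨hp.1.2, hp.2, by omega⟩
  rw [← prod_sdiff h3]
  have h4 : ∏ p ∈ m.primeFactors \ (pz w).filter (fun p => p ∣ m), (1 - (p : ℝ)⁻¹) ≤ 1 := by
    apply prod_le_one
    · intro p hp
      have := fac_pos (Nat.prime_of_mem_primeFactors (mem_sdiff.1 hp).1)
      rw [one_div] at this
      exact this.le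
    · intro p _
      have : (0 : ℝ) ≤ (p : ℝ)⁻¹ := by positivity
      linarith
  have h5 : 0 ≤ ∏ p ∈ (pz w).filter (fun p => p ∣ m), (1 - (p : ℝ)⁻¹) := by
    apply prod_nonneg
    intro p hp
    rw [mem_filter, mem_pz] at hp
    have := fac_pos hp.1.2
    rw [one_div] at this
    exact this.le
  calc _ ≤ 1 * ∏ p ∈ (pz w).filter (fun p => p ∣ m), (1 - (p : ℝ)⁻¹) := mul_le_mul_of_nonneg_right h4 h5
    _ = _ := one_mul _

lemma late_of {lam : ℝ} (hlam : 0 < lam) {w M m a : ℕ} (hM1 : 1 ≤ M) (hM : M < m) (hm2 : m ≤ 2 * M) (ham : a < m)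
    (hNP : ∀ j ∈ Icc 1 (Jr lam w M (m % Ww w)), ¬ (a + j * m).Prime) (hap : ¬ a.Prime) : Late lam m a := by
  intro p hp hpa
  by_contra h
  push Not at h
  have h1 : p % m = a := by
    unfold Nat.ModEq at hpa
    rw [hpa, Nat.mod_eq_of_lt ham]
  have h2 : a + (p / m) * m = p := by
    have := Nat.mod_add_div p m
    rw [h1] at this
    rw [mul_comm]
    exact this
  have hm0 : (0 : ℝ) < m := by exact_mod_cast (show 0 < m by omega)
  rcases Nat.eq_zero_or_pos (p / m) with h3 | h3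
  · rw [h3, zero_mul, add_zero] at h2
    rw [h2] at hap
    exact hap hp
  · apply hNP (p / m) _ (by rw [h2]; exact hp)
    rw [mem_Icc]
    refine ⟨h3, ?_⟩
    unfold Jr
    apply Nat.le_floor
    have h4 : ((p / m : ℕ) : ℝ) * m ≤ lam * Nat.totient m * Real.log m := by
      refine le_trans ?_ h
      exact_mod_cast (show (p / m) * m ≤ p by omega)
    have h5 := phi_kap w m (by omega)
    have h6 : Real.log m ≤ Real.log M + 1 := by
      have k1 : Real.log m ≤ Real.log (2 * M) := Real.log_le_log hm0 (by exact_mod_cast hm2)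
      rw [Real.log_mul (by norm_num) (by exact_mod_cast (show M ≠ 0 by omega))] at k1
      have := Real.log_two_lt_d9
      linarith
    have h7 : 0 ≤ Real.log m := Real.log_natCast_nonneg m
    have h8 : ((p / m : ℕ) : ℝ) * m ≤ (lam * kap w (m % Ww w) * (Real.log M + 1)) * m := by
      calc ((p / m : ℕ) : ℝ) * m ≤ lam * Nat.totient m * Real.log m := h4
        _ ≤ lam * (m * kap w (m % Ww w)) * (Real.log M + 1) := by
            apply mul_le_mul _ h6 h7 _
            · exact mul_le_mul_of_nonneg_left h5 hlam.le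
            · have := (kap_pos w (m % Ww w)).le
              positivity
        _ = _ := by ring
    exact le_of_mul_le_mul_right h8 hm0

/-- the residues `s` which share no prime up to `w` with `r` -/
def OKs (w r : ℕ) : Finset ℕ := (range (Ww w)).filter fun s => ∀ p ∈ pz w, p ∣ r → ¬ p ∣ s

open Classical in
/-- one modulus -/
lemma per_m {lam : ℝ} (hlam : 0 < lam) {w M m N : ℕ} (hM1 : 1 ≤ M) (hM : M < m) (hm2 : m ≤ 2 * M) (hN : Ww w * (N + 1) ≤ m) :
    ∑ s ∈ OKs w (m % Ww w), ∑ b ∈ Icc 1 N,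
      (if ∀ j ∈ Icc 1 (Jr lam w M (m % Ww w)), ¬ ((Ww w * b + s) + j * m).Prime then (1 : ℝ) else 0) ≤
      (((Icc 1 m).filter fun c => c.Coprime m ∧ Late lam m c).card : ℝ) + ((Icc 1 (2 * M)).filter Nat.Prime).card +
        ((Icc 1 (2 * M)).filter fun a => ∃ p, p.Prime ∧ w < p ∧ p ∣ a ∧ p ∣ m).card := by
  have hW := Ww_pos w
  obtain ⟨S, hS⟩ : ∃ S, S = (OKs w (m % Ww w) ×ˢ Icc 1 N).filter fun q : ℕ × ℕ =>
    ∀ j ∈ Icc 1 (Jr lam w M (m % Ww w)), ¬ ((Ww w * q.2 + q.1) + j * m).Prime := ⟨_, rfl⟩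
  have h1 : ∑ s ∈ OKs w (m % Ww w), ∑ b ∈ Icc 1 N,
      (if ∀ j ∈ Icc 1 (Jr lam w M (m % Ww w)), ¬ ((Ww w * b + s) + j * m).Prime then (1 : ℝ) else 0) = S.card := by
    rw [← sum_product', hS, card_filter]
    push_cast
    rfl
  rw [h1]
  have h2 : S.card ≤ (((Icc 1 m).filter fun c => c.Coprime m ∧ Late lam m c) ∪ ((Icc 1 (2 * M)).filter Nat.Prime) ∪
      ((Icc 1 (2 * M)).filter fun a => ∃ p, p.Prime ∧ w < p ∧ p ∣ a ∧ p ∣ m)).card := by
    apply card_le_card_of_injOn (fun q : ℕ × ℕ => Ww w * q.2 + q.1)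
    · intro q hq
      rw [mem_coe, hS, mem_filter, mem_product, mem_Icc] at hq
      obtain ⟨⟨hq1, hq2, hq3⟩, hq4⟩ := hq
      unfold OKs at hq1
      rw [mem_filter, mem_range] at hq1
      obtain ⟨a, ha⟩ : ∃ a, a = Ww w * q.2 + q.1 := ⟨_, rfl⟩
      have ha1 : 1 ≤ a := by
        have : 1 * 1 ≤ Ww w * q.2 := Nat.mul_le_mul hW hq2
        omega
      have ha2 : a < m := by
        have h3 : Ww w * (q.2 + 1) ≤ Ww w * (N + 1) := Nat.mul_le_mul_left _ (by omega)
        have h4 : Ww w * (q.2 + 1) = Ww w * q.2 + Ww w := by ring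
        omega
      rw [mem_coe]
      change Ww w * q.2 + q.1 ∈ _
      rw [← ha]
      rw [← ha] at hq4
      rw [mem_union, mem_union, mem_filter, mem_filter, mem_filter, mem_Icc, mem_Icc]
      by_cases hp : a.Prime
      · exact Or.inl (Or.inr ⟨⟨ha1, by omega⟩, hp⟩)
      · by_cases hs : ∃ p, p.Prime ∧ w < p ∧ p ∣ a ∧ p ∣ m
        · exact Or.inr ⟨⟨ha1, by omega⟩, hs⟩
        · refine Or.inl (Or.inl ⟨⟨ha1, ha2.le⟩, ?_, late_of hlam hM1 hM hm2 ha2 hq4 hp⟩)
          by_contra hc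
          obtain ⟨p, hpp, hpa, hpm⟩ := Nat.Prime.not_coprime_iff_dvd.1 hc
          rcases Nat.lt_or_ge w p with h | h
          · exact hs ⟨p, hpp, h, hpa, hpm⟩
          · have hpz : p ∈ pz w := mem_pz.2 ⟨h, hpp⟩
            apply hq1.2 p hpz ((Nat.dvd_mod_iff (dvd_Ww hpz)).2 hpm)
            rw [ha] at hpa
            exact (Nat.dvd_add_right (Dvd.dvd.mul_right (dvd_Ww hpz) _)).1 hpa
    · intro q hq q' hq' h
      rw [mem_coe, hS, mem_filter, mem_product] at hq hq'
      have k1 := hq.1.1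
      have k2 := hq'.1.1
      unfold OKs at k1 k2
      rw [mem_filter, mem_range] at k1 k2
      simp only at h
      have h3 : q.1 = q'.1 := by
        have := congrArg (· % Ww w) h
        simp only [Nat.mul_add_mod] at this
        rwa [Nat.mod_eq_of_lt k1.1, Nat.mod_eq_of_lt k2.1] at this
      have h4 : q.2 = q'.2 := by
        rw [h3] at h
        exact Nat.eq_of_mul_eq_mul_left hW (by omega)
      exact Prod.ext h3 h4
  have h3 := h2.trans ((card_union_le _ _).trans (Nat.add_le_add_right (card_union_le _ _) _))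
  exact_mod_cast h3

/-- the totient is bounded through the residues -/
lemma phi_up (w u r : ℕ) (hr : r < Ww w) : Nat.totient (Ww w * u + r) ≤ (OKs w r).card * (u + 1) := by
  have hW := Ww_pos w
  rw [Nat.totient_eq_card_coprime, ← card_range (u + 1), ← card_product]
  apply card_le_card_of_injOn (fun c => (c % Ww w, c / Ww w))
  · intro c hc
    rw [mem_coe, mem_filter, mem_range] at hc
    rw [mem_coe, mem_product]
    constructor
    · unfold OKs
      rw [mem_filter, mem_range]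
      refine ⟨Nat.mod_lt _ hW, fun p hp hpr hpc => ?_⟩
      have hpp := (mem_pz.1 hp).2
      have h1 : p ∣ c := (Nat.dvd_mod_iff (dvd_Ww hp)).1 hpc
      have h2 : p ∣ Ww w * u + r := Dvd.dvd.add (Dvd.dvd.mul_right (dvd_Ww hp) _) hpr
      exact Nat.not_coprime_of_dvd_of_dvd hpp.one_lt h2 h1 hc.2
    · simp only
      rw [mem_range, Nat.div_lt_iff_lt_mul hW]
      have : (u + 1) * Ww w = Ww w * u + Ww w := by ring
      omega
  · intro c _ c' _ h
    rw [Prod.mk.injEq] at h
    rw [← Nat.div_add_mod c (Ww w), ← Nat.div_add_mod c' (Ww w), h.1, h.2]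

lemma tile1 (W a R : ℕ) (G : ℕ → ℝ) : ∑ t ∈ Icc 1 R, ∑ r ∈ range W, G (W * (a + t) + r) =
    ∑ m ∈ Ico (W * (a + 1)) (W * (a + R + 1)), G m := by
  induction R with
  | zero => simp
  | succ R ih =>
    have h1 : Icc 1 (R + 1) = insert (R + 1) (Icc 1 R) := by
      ext t
      rw [mem_insert, mem_Icc, mem_Icc]
      omega
    rw [h1, sum_insert (by rw [mem_Icc]; omega), ih, add_comm]
    rw [← sum_Ico_consecutive G (show W * (a + 1) ≤ W * (a + R + 1) from Nat.mul_le_mul_left _ (by omega))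
      (show W * (a + R + 1) ≤ W * (a + (R + 1) + 1) from Nat.mul_le_mul_left _ (by omega))]
    congr 1
    rw [sum_Ico_eq_sum_range]
    have h2 : W * (a + (R + 1) + 1) - W * (a + R + 1) = W := by
      have : W * (a + (R + 1) + 1) = W * (a + R + 1) + W := by ring
      omega
    rw [h2]
    rfl

lemma tile2 (W a R K : ℕ) (G : ℕ → ℝ) : ∑ i ∈ range K, ∑ t ∈ Icc 1 R, ∑ r ∈ range W, G (W * (a + i * R + t) + r) =
    ∑ m ∈ Ico (W * (a + 1)) (W * (a + K * R + 1)), G m := by
  induction K with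
  | zero => simp
  | succ K ih =>
    rw [sum_range_succ, ih, tile1]
    rw [show a + (K + 1) * R + 1 = a + K * R + R + 1 by ring]
    exact sum_Ico_consecutive G (Nat.mul_le_mul_left _ (by omega)) (Nat.mul_le_mul_left _ (by omega))

/-- the sizes of the blocks -/
structure Bk (W K M T0 R : ℕ) : Prop where
  h1 : M < W * T0
  h2 : W * (T0 + K * R + 1) ≤ 2 * M
  h3 : M ≤ W * K * R + 2 * (W * K)
  h4 : W * K * (R + 1) ≤ M
  h5 : 2 ≤ R

lemma bk_ex (W K M : ℕ) (hW : 1 ≤ W) (hK : 2 ≤ K) (hM : 3 * (W * K) ≤ M) : ∃ T0 R : ℕ, Bk W K M T0 R := by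
  obtain ⟨q, hq⟩ : ∃ q, q = M / (W * K) := ⟨_, rfl⟩
  have hWK : 0 < W * K := Nat.mul_pos (by omega) (by omega)
  have hq1 : W * K * q ≤ M := by rw [hq]; exact Nat.mul_div_le M (W * K)
  have hq2 : M < W * K * q + W * K := by
    rw [hq]
    have := Nat.lt_div_mul_add (a := M) hWK
    rw [mul_comm]
    exact this
  have hq3 : 3 ≤ q := by
    rw [hq]
    exact (Nat.le_div_iff_mul_le hWK).2 hM
  obtain ⟨R, rfl⟩ : ∃ R, q = R + 1 := ⟨q - 1, by omega⟩
  refine ⟨M / W + 1, R, ?_, ?_, ?_, hq1, by omega⟩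
  · have := Nat.lt_div_mul_add (a := M) (show 0 < W by omega)
    calc M < M / W * W + W := this
      _ = W * (M / W + 1) := by ring
  · have h1 := Nat.mul_div_le M W
    have h2 : W * (M / W + 1 + K * R + 1) = W * (M / W) + W * K * (R + 1) + 2 * W - W * K := by
      have : W * (M / W + 1 + K * R + 1) + W * K = W * (M / W) + W * K * (R + 1) + 2 * W := by ring
      omega
    have h3 : W * 2 ≤ W * K := Nat.mul_le_mul_left _ hK
    rw [h2]
    omega
  · have : W * K * (R + 1) = W * K * R + W * K := by ring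
    omega

end Pool.Agent.K9h54.LP
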