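import Pool.Agent.K9h54.LP.F11

set_option autoImplicit false

/-!
# Least primes: the theorem
-/

namespace Pool.Agent.K9h54.LP

open Finset Filter Topology
open Pool.Agent.H373R2.T7 (pz Vz mem_pz ev_L')

lemma beta_le {lam : ℝ} (hlam : 0 < lam) {k : ℕ} (hk : 1 ≤ k) :
    1 - lam + (2 * k - 1) / (k * (k + 1)) * lam ^ 2 - 1 / (k * (k + 1)) * lam ^ 3 ≤ 1 := by
  have hk0 : (1 : ℝ) ≤ k := by exact_mod_cast hk
  have hkk : (0 : ℝ) < k * (k + 1) := by positivity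
  have e : 1 - lam + (2 * k - 1) / (k * (k + 1)) * lam ^ 2 - 1 / (k * (k + 1)) * lam ^ 3 =
      1 - lam * ((k * (k + 1)) - lam * (2 * k - 1 - lam)) / (k * (k + 1)) := by
    field_simp
    ring
  rw [e]
  have h1 : 0 ≤ (k : ℝ) * (k + 1) - lam * (2 * k - 1 - lam) := by nlinarith [sq_nonneg (lam - (k - 1 / 2))]
  have h2 : 0 ≤ lam * ((k * (k + 1)) - lam * (2 * k - 1 - lam)) / (k * (k + 1)) := by positivity
  linarith

open Classical in
/-- the lower bound for the sum over the blocks -/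
lemma lower_blocks {lam : ℝ} (hlam : 0 < lam) {w K M T0 R : ℕ} {β : ℝ} (hM1 : 1 ≤ M) (hb : Bk (Ww w) K M T0 R)
    (hcls : ∀ i ∈ range K, ∀ r ∈ range (Ww w), ∀ s ∈ OKs w r, (((T0 + i * R : ℕ) : ℝ) * R : ℝ) * β ≤
      ∑ b ∈ Icc 1 (T0 + i * R), ∑ t ∈ Icc 1 R,
        (if ∀ j ∈ Icc 1 (Jr lam w M r), ¬ (vv (Ww w) (T0 + i * R) s r j b t).Prime then (1 : ℝ) else 0)) :
    β * (∑ i ∈ range K, ∑ r ∈ range (Ww w), ((OKs w r).card : ℝ) * (((T0 + i * R : ℕ) : ℝ) * R)) ≤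
      ∑ m ∈ Ioc M (2 * M), (((Icc 1 m).filter fun c => c.Coprime m ∧ Late lam m c).card : ℝ) +
        M * ((Icc 1 (2 * M)).filter Nat.Prime).card +
        ∑ m ∈ Icc 1 (2 * M), (((Icc 1 (2 * M)).filter fun a => ∃ p, p.Prime ∧ w < p ∧ p ∣ a ∧ p ∣ m).card : ℝ) := by
  obtain ⟨G, hG⟩ : ∃ G : ℕ → ℝ, G = fun m => (((Icc 1 m).filter fun c => c.Coprime m ∧ Late lam m c).card : ℝ) +
    ((Icc 1 (2 * M)).filter Nat.Prime).card +
    ((Icc 1 (2 * M)).filter fun a => ∃ p, p.Prime ∧ w < p ∧ p ∣ a ∧ p ∣ m).card := ⟨_, rfl⟩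
  have hG0 : ∀ m, 0 ≤ G m := by
    intro m
    rw [hG]
    positivity
  obtain ⟨I, hI⟩ : ∃ I : ℕ → ℕ → ℝ, I = fun m a =>
    (if ∀ j ∈ Icc 1 (Jr lam w M (m % Ww w)), ¬ (a + j * m).Prime then (1 : ℝ) else 0) := ⟨_, rfl⟩
  have hvI : ∀ T s r b t : ℕ, r ∈ range (Ww w) →
      (if ∀ j ∈ Icc 1 (Jr lam w M r), ¬ (vv (Ww w) T s r j b t).Prime then (1 : ℝ) else 0) = I (Ww w * (T + t) + r) (Ww w * b + s) := by
    intro T s r b t hr
    rw [mem_range] at hr
    have h1 : (Ww w * (T + t) + r) % Ww w = r := by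
      rw [Nat.mul_add_mod, Nat.mod_eq_of_lt hr]
    have h2 : ∀ j, vv (Ww w) T s r j b t = Ww w * b + s + j * (Ww w * (T + t) + r) := by
      intro j
      unfold vv
      ring
    rw [hI]
    simp only [h1, h2]
  have h1 : ∀ i ∈ range K, ∀ r ∈ range (Ww w), ∀ s ∈ OKs w r, β * (((T0 + i * R : ℕ) : ℝ) * R) ≤
      ∑ t ∈ Icc 1 R, ∑ b ∈ Icc 1 (T0 + i * R), I (Ww w * (T0 + i * R + t) + r) (Ww w * b + s) := by
    intro i hi r hr s hs
    have k1 := hcls i hi r hr s hs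
    have k2 : ∑ b ∈ Icc 1 (T0 + i * R), ∑ t ∈ Icc 1 R,
        (if ∀ j ∈ Icc 1 (Jr lam w M r), ¬ (vv (Ww w) (T0 + i * R) s r j b t).Prime then (1 : ℝ) else 0) =
        ∑ t ∈ Icc 1 R, ∑ b ∈ Icc 1 (T0 + i * R), I (Ww w * (T0 + i * R + t) + r) (Ww w * b + s) := by
      rw [sum_comm]
      exact sum_congr rfl fun t _ => sum_congr rfl fun b _ => by convert hvI (T0 + i * R) s r b t hr
    rw [k2] at k1
    linarith
  have h2 : ∀ i ∈ range K, ∀ t ∈ Icc 1 R, ∀ r ∈ range (Ww w),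
      ∑ s ∈ OKs w r, ∑ b ∈ Icc 1 (T0 + i * R), I (Ww w * (T0 + i * R + t) + r) (Ww w * b + s) ≤ G (Ww w * (T0 + i * R + t) + r) := by
    intro i hi t ht r hr
    rw [mem_range] at hi hr
    rw [mem_Icc] at ht
    obtain ⟨m, hm⟩ : ∃ m, m = Ww w * (T0 + i * R + t) + r := ⟨_, rfl⟩
    have e1 : m % Ww w = r := by rw [hm, Nat.mul_add_mod, Nat.mod_eq_of_lt hr]
    have e2 : Ww w * (T0 + i * R + t) = Ww w * T0 + Ww w * (i * R) + Ww w * t := by ring
    have e3 : Ww w * 1 ≤ Ww w * t := Nat.mul_le_mul_left _ ht.1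
    have e4 : M < m := by
      have := hb.h1
      omega
    have e5 : m < Ww w * (T0 + K * R + 1) := by
      have k1 : i * R + t ≤ K * R := by
        have : (i + 1) * R ≤ K * R := Nat.mul_le_mul_right R hi
        have : (i + 1) * R = i * R + R := by ring
        omega
      have k2 := Nat.mul_le_mul_left (Ww w) k1
      have k3 : Ww w * (i * R + t) = Ww w * (i * R) + Ww w * t := by ring
      have k4 : Ww w * (T0 + K * R + 1) = Ww w * T0 + Ww w * (K * R) + Ww w := by ring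
      omega
    have e6 : Ww w * (T0 + i * R + 1) ≤ m := by
      have : Ww w * (T0 + i * R + 1) = Ww w * T0 + Ww w * (i * R) + Ww w := by ring
      omega
    have k := per_m hlam (w := w) hM1 e4 (by have := hb.h2; omega) e6
    rw [e1] at k
    rw [← hm, hG]
    refine le_trans (le_of_eq ?_) k
    apply sum_congr rfl
    intro s _
    apply sum_congr rfl
    intro b _
    rw [hI]
    simp only [e1]
  have h3 : β * (∑ i ∈ range K, ∑ r ∈ range (Ww w), ((OKs w r).card : ℝ) * (((T0 + i * R : ℕ) : ℝ) * R)) ≤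
      ∑ i ∈ range K, ∑ t ∈ Icc 1 R, ∑ r ∈ range (Ww w), G (Ww w * (T0 + i * R + t) + r) := by
    rw [mul_sum]
    apply sum_le_sum
    intro i hi
    calc β * ∑ r ∈ range (Ww w), ((OKs w r).card : ℝ) * (((T0 + i * R : ℕ) : ℝ) * R) =
          ∑ r ∈ range (Ww w), ∑ s ∈ OKs w r, β * (((T0 + i * R : ℕ) : ℝ) * R) := by
          rw [mul_sum]
          apply sum_congr rfl
          intro r _
          rw [sum_const, nsmul_eq_mul]
          ring
      _ ≤ ∑ r ∈ range (Ww w), ∑ s ∈ OKs w r, ∑ t ∈ Icc 1 R, ∑ b ∈ Icc 1 (T0 + i * R), I (Ww w * (T0 + i * R + t) + r) (Ww w * b + s) :=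
          sum_le_sum fun r hr => sum_le_sum fun s hs => h1 i hi r hr s hs
      _ = ∑ t ∈ Icc 1 R, ∑ r ∈ range (Ww w), ∑ s ∈ OKs w r, ∑ b ∈ Icc 1 (T0 + i * R), I (Ww w * (T0 + i * R + t) + r) (Ww w * b + s) := by
          rw [sum_comm (s := Icc 1 R)]
          exact sum_congr rfl fun r _ => sum_comm
      _ ≤ _ := sum_le_sum fun t ht => sum_le_sum fun r hr => h2 i hi t ht r hr
  rw [tile2 (Ww w) T0 R K G] at h3
  have h4 : ∑ m ∈ Ico (Ww w * (T0 + 1)) (Ww w * (T0 + K * R + 1)), G m ≤ ∑ m ∈ Ioc M (2 * M), G m := by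
    apply sum_le_sum_of_subset_of_nonneg
    · intro m hm
      rw [mem_Ico] at hm
      rw [mem_Ioc]
      have a1 := hb.h1
      have a2 := hb.h2
      have a3 : Ww w * (T0 + 1) = Ww w * T0 + Ww w := by ring
      exact ⟨by omega, by omega⟩
    · intro m _ _
      exact hG0 m
  have h5 : ∑ m ∈ Ioc M (2 * M), G m ≤ ∑ m ∈ Ioc M (2 * M), (((Icc 1 m).filter fun c => c.Coprime m ∧ Late lam m c).card : ℝ) +
        M * ((Icc 1 (2 * M)).filter Nat.Prime).card +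
        ∑ m ∈ Icc 1 (2 * M), (((Icc 1 (2 * M)).filter fun a => ∃ p, p.Prime ∧ w < p ∧ p ∣ a ∧ p ∣ m).card : ℝ) := by
    rw [hG]
    simp only [sum_add_distrib]
    have k1 : ∑ m ∈ Ioc M (2 * M), (((Icc 1 (2 * M)).filter Nat.Prime).card : ℝ) = M * ((Icc 1 (2 * M)).filter Nat.Prime).card := by
      rw [sum_const, Nat.card_Ioc, nsmul_eq_mul]
      congr 2
      omega
    have k2 : ∑ m ∈ Ioc M (2 * M), (((Icc 1 (2 * M)).filter fun a => ∃ p, p.Prime ∧ w < p ∧ p ∣ a ∧ p ∣ m).card : ℝ) ≤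
        ∑ m ∈ Icc 1 (2 * M), (((Icc 1 (2 * M)).filter fun a => ∃ p, p.Prime ∧ w < p ∧ p ∣ a ∧ p ∣ m).card : ℝ) := by
      apply sum_le_sum_of_subset_of_nonneg
      · intro m hm
        rw [mem_Ioc] at hm
        rw [mem_Icc]
        omega
      · intro m _ _
        exact Nat.cast_nonneg _
    linarith
  linarith

/-- the upper bound for the sum of the totients -/
lemma phi_total {w K M T0 R : ℕ} (hK : 1 ≤ K) (hb : Bk (Ww w) K M T0 R) :
    ∑ m ∈ Ioc M (2 * M), (Nat.totient m : ℝ) ≤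
      (∑ i ∈ range K, ∑ r ∈ range (Ww w), ((OKs w r).card : ℝ) * (((T0 + i * R : ℕ) : ℝ) * R)) +
        (M : ℝ) ^ 2 / K + 4 * (Ww w * K * M) := by
  classical
  obtain ⟨W, hW⟩ : ∃ W, W = Ww w := ⟨_, rfl⟩
  have hW1 : 1 ≤ W := by rw [hW]; exact Ww_pos w
  rw [← hW] at hb
  obtain ⟨A, hA⟩ : ∃ A, A = Ico (W * (T0 + 1)) (W * (T0 + K * R + 1)) := ⟨_, rfl⟩
  have hAs : A ⊆ Ioc M (2 * M) := by
    intro m hm
    rw [hA, mem_Ico] at hm
    rw [mem_Ioc]
    have a1 := hb.h1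
    have a2 := hb.h2
    have a3 : W * (T0 + 1) = W * T0 + W := by ring
    exact ⟨by omega, by omega⟩
  have hcard : ((Ioc M (2 * M)) \ A).card ≤ 2 * (W * K) := by
    rw [card_sdiff_of_subset hAs, Nat.card_Ioc, hA, Nat.card_Ico]
    have a1 : W * (T0 + K * R + 1) = W * (T0 + 1) + W * K * R := by ring
    have a2 := hb.h3
    omega
  have h1 : ∑ m ∈ (Ioc M (2 * M)) \ A, (Nat.totient m : ℝ) ≤ 4 * (Ww w * K * M) := by
    have k1 : ∀ m ∈ (Ioc M (2 * M)) \ A, (Nat.totient m : ℝ) ≤ 2 * M := by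
      intro m hm
      rw [Finset.mem_sdiff, Finset.mem_Ioc] at hm
      have := Nat.totient_le m
      exact_mod_cast this.trans hm.1.2
    refine (sum_le_sum k1).trans ?_
    rw [sum_const, nsmul_eq_mul, ← hW]
    have k2 : ((((Ioc M (2 * M)) \ A).card : ℕ) : ℝ) ≤ 2 * (W * K) := by exact_mod_cast hcard
    calc ((((Ioc M (2 * M)) \ A).card : ℕ) : ℝ) * (2 * M) ≤ 2 * (W * K) * (2 * M) := by gcongr
      _ = _ := by ring
  have h2 : ∑ m ∈ A, (Nat.totient m : ℝ) ≤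
      (∑ i ∈ range K, ∑ r ∈ range (Ww w), ((OKs w r).card : ℝ) * (((T0 + i * R : ℕ) : ℝ) * R)) + (M : ℝ) ^ 2 / K := by
    rw [hA, ← tile2 W T0 R K (fun m => (Nat.totient m : ℝ)), hW]
    have k1 : ∀ i ∈ range K, ∀ t ∈ Icc 1 R, ∀ r ∈ range (Ww w), (Nat.totient (Ww w * (T0 + i * R + t) + r) : ℝ) ≤
        ((OKs w r).card : ℝ) * ((T0 + i * R : ℕ) : ℝ) + Ww w * (R + 1) := by
      intro i _ t ht r hr
      rw [mem_range] at hr
      rw [mem_Icc] at ht
      have k2 : (Nat.totient (Ww w * (T0 + i * R + t) + r) : ℝ) ≤ ((OKs w r).card : ℝ) * (((T0 + i * R : ℕ) : ℝ) + t + 1) := by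
        exact_mod_cast phi_up w (T0 + i * R + t) r hr
      have k3 : ((OKs w r).card : ℝ) ≤ Ww w := by
        have : (OKs w r).card ≤ Ww w := by
          unfold OKs
          refine (card_filter_le _ _).trans ?_
          rw [card_range]
        exact_mod_cast this
      have k4 : (t : ℝ) ≤ R := by exact_mod_cast ht.2
      calc (Nat.totient (Ww w * (T0 + i * R + t) + r) : ℝ) ≤ ((OKs w r).card : ℝ) * (((T0 + i * R : ℕ) : ℝ) + t + 1) := k2
        _ = ((OKs w r).card : ℝ) * ((T0 + i * R : ℕ) : ℝ) + (OKs w r).card * (t + 1) := by ring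
        _ ≤ _ := by gcongr
    calc ∑ i ∈ range K, ∑ t ∈ Icc 1 R, ∑ r ∈ range (Ww w), (Nat.totient (Ww w * (T0 + i * R + t) + r) : ℝ) ≤
          ∑ i ∈ range K, ∑ t ∈ Icc 1 R, ∑ r ∈ range (Ww w), (((OKs w r).card : ℝ) * ((T0 + i * R : ℕ) : ℝ) + Ww w * (R + 1)) :=
          sum_le_sum fun i hi => sum_le_sum fun t ht => sum_le_sum fun r hr => k1 i hi t ht r hr
      _ = (∑ i ∈ range K, ∑ r ∈ range (Ww w), ((OKs w r).card : ℝ) * (((T0 + i * R : ℕ) : ℝ) * R)) +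
          K * (R * (Ww w * (Ww w * (R + 1)))) := by
          have e1 : ∀ i ∈ range K, ∑ t ∈ Icc 1 R, ∑ r ∈ range (Ww w), (((OKs w r).card : ℝ) * ((T0 + i * R : ℕ) : ℝ) + Ww w * (R + 1)) =
              ∑ r ∈ range (Ww w), ((OKs w r).card : ℝ) * (((T0 + i * R : ℕ) : ℝ) * R) + R * (Ww w * (Ww w * (R + 1))) := by
            intro i _
            rw [sum_const, Nat.card_Icc, nsmul_eq_mul, sum_add_distrib, sum_const, card_range, nsmul_eq_mul, Nat.add_sub_cancel,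
              mul_add, mul_sum]
            congr 1
            apply sum_congr rfl
            intro r _
            ring
          rw [sum_congr rfl e1, sum_add_distrib, sum_const, card_range, nsmul_eq_mul]
      _ ≤ _ := by
          have e2 : (Ww w : ℝ) * K * (R + 1) ≤ M := by
            rw [← hW]
            exact_mod_cast hb.h4
          have hK0 : (0 : ℝ) < K := by exact_mod_cast hK
          have e3 : (K : ℝ) * (R * (Ww w * (Ww w * (R + 1)))) ≤ (M : ℝ) ^ 2 / K := by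
            rw [le_div_iff₀ hK0]
            calc (K : ℝ) * (R * (Ww w * (Ww w * (R + 1)))) * K = (Ww w * K * R) * (Ww w * K * (R + 1)) := by ring
              _ ≤ (Ww w * K * (R + 1)) * (Ww w * K * (R + 1)) := by gcongr; linarith
              _ ≤ M * M := by gcongr
              _ = _ := by ring
          linarith
  rw [← sum_sdiff hAs]
  linarith

open Classical in
theorem final (lam : ℝ) (hlam : 0 < lam) (k : ℕ) (hk : 1 ≤ k) (ε : ℝ) (hε : 0 < ε) : ∃ M₀ : ℕ, ∀ M : ℕ, M₀ ≤ M →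
    (1 - lam + lam ^ 2 * (2 * k - 1 - lam) / (k * (k + 1)) - ε) * ∑ m ∈ Ioc M (2 * M), (Nat.totient m : ℝ) ≤
      ∑ m ∈ Ioc M (2 * M), (((Icc 1 m).filter fun c => c.Coprime m ∧ Late lam m c).card : ℝ) := by
  have hk0 : (1 : ℝ) ≤ k := by exact_mod_cast hk
  obtain ⟨β, hβ⟩ : ∃ β : ℝ, β = 1 - lam + (2 * k - 1) / (k * (k + 1)) * lam ^ 2 - 1 / (k * (k + 1)) * lam ^ 3 := ⟨_, rfl⟩
  have hβe : 1 - lam + lam ^ 2 * (2 * k - 1 - lam) / (k * (k + 1)) - ε = β - ε := by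
    rw [hβ]
    have : (0 : ℝ) < k * (k + 1) := by positivity
    field_simp
    ring
  rw [hβe]
  rcases le_or_gt (β - ε) 0 with h0 | h0
  · refine ⟨0, fun M _ => ?_⟩
    have h1 : 0 ≤ ∑ m ∈ Ioc M (2 * M), (Nat.totient m : ℝ) := sum_nonneg fun _ _ => Nat.cast_nonneg _
    have h2 : 0 ≤ ∑ m ∈ Ioc M (2 * M), (((Icc 1 m).filter fun c => c.Coprime m ∧ Late lam m c).card : ℝ) :=
      sum_nonneg fun _ _ => Nat.cast_nonneg _
    nlinarith
  · have hβ1 : β ≤ 1 := by rw [hβ]; exact beta_le hlam hk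
    obtain ⟨w1, hw1⟩ := cls lam hlam k hk (ε / 2) (by positivity)
    obtain ⟨w2, hw2⟩ : ∃ w2 : ℕ, 96 / ε ≤ w2 := exists_nat_ge _
    obtain ⟨K1, hK1⟩ : ∃ K1 : ℕ, 48 / ε ≤ K1 := exists_nat_ge _
    obtain ⟨w, hw⟩ : ∃ w, w = max (max w1 w2) 1 := ⟨_, rfl⟩
    obtain ⟨K, hK⟩ : ∃ K, K = max K1 2 := ⟨_, rfl⟩
    obtain ⟨M1, hM1⟩ := hw1 w (by omega)
    obtain ⟨M2, hM2⟩ := primes_few (ε / 24) (by positivity)
    obtain ⟨M3, hM3⟩ := phi_lower
    obtain ⟨M4, hM4⟩ := ev_L' (2 * (Ww w * K))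
    refine ⟨max (max M1 M2) (max (max M3 M4) (4 * (Ww w * K * K) + 3 * (Ww w * K) + 1)), fun M hM => ?_⟩
    have hMa := hM1 M (by omega)
    have hMb := hM2 M (by omega)
    have hMc := hM3 M (by omega)
    have hMd := hM4 M (by omega)
    have hMe : 4 * (Ww w * K * K) + 3 * (Ww w * K) + 1 ≤ M := by omega
    obtain ⟨T0, R, hb⟩ := bk_ex (Ww w) K M (Ww_pos w) (by omega) (by omega)
    have hM0 : (0 : ℝ) < M := by exact_mod_cast (show 0 < M by omega)
    have hWr : (1 : ℝ) ≤ Ww w := by exact_mod_cast Ww_pos w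
    have hKr : (2 : ℝ) ≤ K := by exact_mod_cast (show 2 ≤ K by omega)
    have hRr : (2 : ℝ) ≤ R := by exact_mod_cast hb.h5
    have hlM : (Ww w : ℝ) ≤ Real.log M := by nlinarith
    have hlow := lower_blocks (β := β - ε / 2) hlam (w := w) (by omega) hb (by
      intro i hi r hr s hs
      rw [mem_range] at hi hr
      unfold OKs at hs
      rw [mem_filter, mem_range] at hs
      have e1 : i * R ≤ K * R := Nat.mul_le_mul_right R hi.le
      have e2 := Nat.mul_le_mul_left (Ww w) e1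
      have e3 : Ww w * (T0 + K * R + 1) = Ww w * T0 + Ww w * (K * R) + Ww w := by ring
      have e4 : Ww w * (T0 + i * R) = Ww w * T0 + Ww w * (i * R) := by ring
      have a1 := hb.h1
      have a2 := hb.h2
      have e5 : Ww w * (T0 + i * R) ≤ 2 * M := by omega
      have e6 : M ≤ Ww w * (T0 + i * R) := by omega
      have e7 : Ww w * R ≤ 2 * M := by
        have h7 := hb.h4
        have h8 : Ww w * 1 * R ≤ Ww w * K * (R + 1) := Nat.mul_le_mul (Nat.mul_le_mul_left _ (by omega)) (by omega)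
        rw [mul_one] at h8
        omega
      have key := hMa (T0 + i * R) s r (T0 + i * R) R ⟨e6, e5, e5, e7, hs.1, hr, by
          have e8 : (M : ℝ) ≤ Ww w * ((T0 + i * R : ℕ) : ℝ) := by exact_mod_cast e6
          have e9 : (0 : ℝ) ≤ ((T0 + i * R : ℕ) : ℝ) := Nat.cast_nonneg _
          calc (M : ℝ) ≤ Ww w * ((T0 + i * R : ℕ) : ℝ) := e8
            _ ≤ Real.log M * ((T0 + i * R : ℕ) : ℝ) := mul_le_mul_of_nonneg_right hlM e9
            _ = _ := mul_comm _ _, by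
          have e8 : (M : ℝ) ≤ Ww w * K * R + 2 * (Ww w * K) := by exact_mod_cast hb.h3
          have e10 : (0 : ℝ) < Ww w * K := by positivity
          calc (M : ℝ) ≤ Ww w * K * R + 2 * (Ww w * K) := e8
            _ ≤ R * (2 * (Ww w * K)) := by nlinarith
            _ ≤ R * Real.log M := mul_le_mul_of_nonneg_left hMd (by linarith), hs.2⟩
      rw [← hβ] at key
      convert key)
    have hsh := shared_le w M (by omega)
    have hup := phi_total (w := w) (show 1 ≤ K by omega) hb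
    obtain ⟨Φ, hΦ⟩ : ∃ Φ, Φ = ∑ m ∈ Ioc M (2 * M), (Nat.totient m : ℝ) := ⟨_, rfl⟩
    obtain ⟨G, hG⟩ : ∃ G, G = ∑ m ∈ Ioc M (2 * M), (((Icc 1 m).filter fun c => c.Coprime m ∧ Late lam m c).card : ℝ) := ⟨_, rfl⟩
    obtain ⟨Tot, hTot⟩ : ∃ Tot, Tot = ∑ i ∈ range K, ∑ r ∈ range (Ww w), ((OKs w r).card : ℝ) * (((T0 + i * R : ℕ) : ℝ) * R) := ⟨_, rfl⟩
    rw [← hΦ] at hMc hup
    rw [← hG, ← hTot] at hlow
    rw [← hTot] at hup
    rw [← hΦ, ← hG]
    have c1 : (M : ℝ) * ((Icc 1 (2 * M)).filter Nat.Prime).card ≤ ε / 24 * M ^ 2 := by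
      calc (M : ℝ) * ((Icc 1 (2 * M)).filter Nat.Prime).card ≤ M * (ε / 24 * M) := by gcongr
        _ = _ := by ring
    have c2 : 4 * (M : ℝ) ^ 2 / w ≤ ε / 24 * M ^ 2 := by
      have h1 : 96 / ε ≤ w := hw2.trans (by exact_mod_cast (show w2 ≤ w by omega))
      have hw0 : (0 : ℝ) < w := by exact_mod_cast (show 0 < w by omega)
      rw [div_le_iff₀ hε] at h1
      rw [div_le_iff₀ hw0]
      have : (0 : ℝ) < (M : ℝ) ^ 2 := by positivity
      nlinarith
    have c3 : (M : ℝ) ^ 2 / K + 4 * (Ww w * K * M) ≤ ε / 24 * M ^ 2 := by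
      have h1 : 48 / ε ≤ K := hK1.trans (by exact_mod_cast (show K1 ≤ K by omega))
      rw [div_le_iff₀ hε] at h1
      have h2 : 4 * ((Ww w : ℝ) * K * M) ≤ M ^ 2 / K := by
        rw [le_div_iff₀ (by linarith)]
        have h3 : 4 * ((Ww w : ℝ) * K * K) ≤ M := by
          have : 4 * (Ww w * K * K) ≤ M := by omega
          exact_mod_cast this
        calc 4 * ((Ww w : ℝ) * K * M) * K = 4 * ((Ww w : ℝ) * K * K) * M := by ring
          _ ≤ M * M := by gcongr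
          _ = _ := by ring
      have h4 : (M : ℝ) ^ 2 / K ≤ ε / 48 * M ^ 2 := by
        rw [div_le_iff₀ (by linarith)]
        have : (0 : ℝ) < (M : ℝ) ^ 2 := by positivity
        nlinarith
      linarith
    have hβ2 : 0 < β - ε / 2 := by linarith
    have d1 : (β - ε / 2) * Φ ≤ (β - ε / 2) * (Tot + ((M : ℝ) ^ 2 / K + 4 * (Ww w * K * M))) :=
      mul_le_mul_of_nonneg_left (by linarith) hβ2.le
    have d2 : (β - ε / 2) * (M ^ 2 / K + 4 * (Ww w * K * M)) ≤ 1 * (ε / 24 * M ^ 2) := by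
      apply mul_le_mul (by linarith) c3 (by positivity) (by norm_num)
    have d3 : ε / 2 * (M ^ 2 / 4) ≤ ε / 2 * Φ := mul_le_mul_of_nonneg_left hMc (by positivity)
    have e : (β - ε) * Φ = (β - ε / 2) * Φ - ε / 2 * Φ := by ring
    rw [e]
    have e' : (β - ε / 2) * (Tot + ((M : ℝ) ^ 2 / K + 4 * (Ww w * K * M))) =
      (β - ε / 2) * Tot + (β - ε / 2) * (M ^ 2 / K + 4 * (Ww w * K * M)) := by ring
    rw [e'] at d1
    linarith

end Pool.Agent.K9h54.LP
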