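import Pool.Agent.K9h54.LP.F1
import Pool.Agent.H343R2.PV
import Pool.Agent.H807R2.Dav1

set_option autoImplicit false

/-!
# Least primes: the trilinear form over the natural numbers
-/

namespace Pool.Agent.K9h54.LP

open Finset ZMod
open Pool.Agent.H807R2.Dav (ee)

variable {P : ℕ} [Fact P.Prime]

lemma psi_mul (n : ℕ) (t : ZMod P) : (stdAddChar ((n : ZMod P) * t) : ℂ) = ee ((n : ℝ) * ((t.val : ℝ) / P)) := by
  haveI : NeZero P := ⟨(Fact.out : P.Prime).ne_zero⟩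
  have h1 : (n : ZMod P) * t = (((n * t.val : ℕ) : ℤ) : ZMod P) := by
    push_cast
    rw [ZMod.natCast_zmod_val]
  rw [h1, stdAddChar_coe]
  unfold ee
  congr 1
  push_cast
  ring

/-- a function of the natural numbers `1, ..., X` -/
noncomputable def lift (P X : ℕ) (G : ℕ → ℝ) (x : ZMod P) : ℂ := if 1 ≤ x.val ∧ x.val ≤ X then (G x.val : ℂ) else 0

lemma sum_supp {α : Type*} [AddCommMonoid α] (X : ℕ) (hX : X < P) (F : ZMod P → α)
    (hF : ∀ x : ZMod P, ¬ (1 ≤ x.val ∧ x.val ≤ X) → F x = 0) : ∑ x, F x = ∑ n ∈ Icc 1 X, F (n : ZMod P) := by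
  classical
  haveI : NeZero P := ⟨(Fact.out : P.Prime).ne_zero⟩
  symm
  apply sum_of_injOn (fun n : ℕ => (n : ZMod P))
  · intro a ha b hb h
    rw [mem_coe, mem_Icc] at ha hb
    have h1 := (ZMod.natCast_eq_natCast_iff' a b P).1 h
    rwa [Nat.mod_eq_of_lt (by omega), Nat.mod_eq_of_lt (by omega)] at h1
  · intro a _
    simp
  · intro x _ hx
    apply hF
    intro h
    apply hx
    exact ⟨x.val, by rw [mem_coe, mem_Icc]; exact h, ZMod.natCast_zmod_val x⟩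
  · intro n _
    rfl

lemma lift_nat (X : ℕ) (hX : X < P) (G : ℕ → ℝ) (n : ℕ) (h1 : 1 ≤ n) (h2 : n ≤ X) : lift P X G (n : ZMod P) = G n := by
  unfold lift
  rw [ZMod.val_natCast, Nat.mod_eq_of_lt (by omega), if_pos ⟨h1, h2⟩]

lemma FT_lift (X : ℕ) (hX : X < P) (G : ℕ → ℝ) (t : ZMod P) :
    FT (lift P X G) t = ∑ n ∈ Icc 1 X, (G n : ℂ) * ee ((n : ℝ) * ((t.val : ℝ) / P)) := by
  unfold FT
  rw [sum_supp X hX]
  · apply sum_congr rfl
    intro n hn
    rw [mem_Icc] at hn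
    rw [lift_nat X hX G n hn.1 hn.2, psi_mul]
  · intro x hx
    unfold lift
    rw [if_neg hx, zero_mul]

lemma norm_lift (X : ℕ) (hX : X < P) (G : ℕ → ℝ) : ∑ x, ‖lift P X G x‖ ^ 2 = ∑ n ∈ Icc 1 X, G n ^ 2 := by
  rw [sum_supp X hX]
  · apply sum_congr rfl
    intro n hn
    rw [mem_Icc] at hn
    rw [lift_nat X hX G n hn.1 hn.2, Complex.norm_real, Real.norm_eq_abs, sq_abs]
  · intro x hx
    unfold lift
    rw [if_neg hx, norm_zero]
    norm_num

lemma sum_val (F : ℕ → ℝ) : ∑ t : ZMod P, F t.val = ∑ k ∈ range P, F k := by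
  classical
  haveI : NeZero P := ⟨(Fact.out : P.Prime).ne_zero⟩
  apply sum_bij (fun (t : ZMod P) _ => t.val)
  · intro t _
    rw [mem_range]
    exact ZMod.val_lt t
  · intro a _ b _ h
    exact ZMod.val_injective P h
  · intro b hb
    rw [mem_range] at hb
    exact ⟨(b : ZMod P), mem_univ _, by rw [ZMod.val_natCast, Nat.mod_eq_of_lt hb]⟩
  · intro t _
    rfl

lemma ex_ee (x : ℝ) : H343.ex x = ee x := by
  unfold H343.ex ee
  congr 1
  push_cast
  ring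

/-- the Fourier transform of an interval -/
theorem interval (N : ℕ) (hN : N < P) : ∑ t : ZMod P, ‖FT (lift P N fun _ => 1) t‖ ≤ P * (2 + Real.log P) := by
  have hP := (Fact.out : P.Prime)
  have hP2 := hP.two_le
  have hP0 : (0 : ℝ) < P := by exact_mod_cast hP.pos
  have h1 : ∀ t : ZMod P, ‖FT (lift P N fun _ => 1) t‖ = (fun k : ℕ => ‖∑ n ∈ Icc 1 N, ee ((n : ℝ) * ((k : ℝ) / P))‖) t.val := by
    intro t
    rw [FT_lift N hN]
    simp
  simp only [h1]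
  rw [sum_val (fun k : ℕ => ‖∑ n ∈ Icc 1 N, ee ((n : ℝ) * ((k : ℝ) / P))‖)]
  rw [range_eq_Ico, sum_eq_sum_Ico_succ_bot hP.pos]
  have h2 : ‖∑ n ∈ Icc 1 N, ee ((n : ℝ) * (((0 : ℕ) : ℝ) / P))‖ ≤ P := by
    refine (norm_sum_le _ _).trans ?_
    have e : ∀ n ∈ Icc 1 N, ‖ee ((n : ℝ) * (((0 : ℕ) : ℝ) / P))‖ = 1 := fun n _ => Pool.Agent.H807R2.Dav.norm_ee _
    rw [sum_congr rfl e]
    simp
    exact_mod_cast hN.le
  have h3 : ∑ k ∈ Ico (0 + 1) P, ‖∑ n ∈ Icc 1 N, ee ((n : ℝ) * ((k : ℝ) / P))‖ ≤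
      ∑ k ∈ Ico 1 P, (P : ℝ) / 2 * (1 / k + 1 / ((P - k : ℕ) : ℝ)) := by
    rw [zero_add]
    apply sum_le_sum
    intro k hk
    rw [mem_Ico] at hk
    have := H343.PVaux.geom_le N P k hk.1 hk.2
    simp only [ex_ee] at this
    exact this
  have h4 : ∑ k ∈ Ico 1 P, (P : ℝ) / 2 * (1 / k + 1 / ((P - k : ℕ) : ℝ)) ≤ P * (1 + Real.log P) := by
    rw [← mul_sum, sum_add_distrib, H343.PVaux.sum_reflect P (by omega)]
    have h5 := H343.PVaux.harmonic_le P (by omega)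
    calc (P : ℝ) / 2 * (∑ b ∈ Ico 1 P, 1 / (b : ℝ) + ∑ b ∈ Ico 1 P, 1 / (b : ℝ)) = P * ∑ b ∈ Ico 1 P, 1 / (b : ℝ) := by ring
      _ ≤ _ := mul_le_mul_of_nonneg_left h5 hP0.le
  linarith

/-- the trilinear form over a box of natural numbers -/
theorem tri_nat (N R X j1 j2 j3 : ℕ) (h12 : j1 ≠ j2) (h13 : j1 ≠ j3) (hX : X < P) (hN : N < P) (hR : R < P)
    (hj1 : j1 < P) (hj2 : j2 < P) (hj3 : j3 < P)
    (hf1 : N + j1 * R ≤ X) (hf2 : N + j2 * R ≤ X) (hf3 : N + j3 * R ≤ X) (G1 G2 G3 : ℕ → ℝ) (S : ℝ)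
    (hS : ∀ α : ℝ, ‖∑ n ∈ Icc 1 X, (G1 n : ℂ) * ee ((n : ℝ) * α)‖ ≤ S) :
    |∑ a ∈ Icc 1 N, ∑ m ∈ Icc 1 R, G1 (a + j1 * m) * G2 (a + j2 * m) * G3 (a + j3 * m)| ≤
      (2 + Real.log P) ^ 2 * (S * (√(∑ n ∈ Icc 1 X, G2 n ^ 2) * √(∑ n ∈ Icc 1 X, G3 n ^ 2))) := by
  have cast_ne : ∀ i j : ℕ, i < P → j < P → i ≠ j → (i : ZMod P) ≠ (j : ZMod P) := by
    intro i j hi hj h h2
    have h1 := (ZMod.natCast_eq_natCast_iff' i j P).1 h2
    rw [Nat.mod_eq_of_lt hi, Nat.mod_eq_of_lt hj] at h1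
    exact h h1
  have h1 := box_tri (P := P) (j1 : ZMod P) (j2 : ZMod P) (j3 : ZMod P) (cast_ne _ _ hj1 hj2 h12) (cast_ne _ _ hj1 hj3 h13)
    (lift P X G1) (lift P X G2) (lift P X G3) S (fun t => by
      rw [FT_lift X hX]
      exact hS _) (lift P N fun _ => 1) (lift P R fun _ => 1) (2 + Real.log P) (interval N hN) (interval R hR)
  rw [norm_lift X hX, norm_lift X hX] at h1
  refine le_trans (le_of_eq ?_) h1
  have h2 : ∑ a, ∑ m, (lift P N fun _ => 1) a * (lift P R fun _ => 1) m *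
      (lift P X G1 (a + j1 * m) * lift P X G2 (a + j2 * m) * lift P X G3 (a + j3 * m)) =
      ((∑ a ∈ Icc 1 N, ∑ m ∈ Icc 1 R, G1 (a + j1 * m) * G2 (a + j2 * m) * G3 (a + j3 * m) : ℝ) : ℂ) := by
    rw [sum_supp N hN]
    · push_cast
      apply sum_congr rfl
      intro a ha
      rw [mem_Icc] at ha
      rw [sum_supp R hR]
      · apply sum_congr rfl
        intro m hm
        rw [mem_Icc] at hm
        rw [lift_nat N hN _ a ha.1 ha.2, lift_nat R hR _ m hm.1 hm.2]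
        have e : ∀ j : ℕ, N + j * R ≤ X → ∀ G : ℕ → ℝ, lift P X G ((a : ZMod P) + (j : ZMod P) * (m : ZMod P)) = G (a + j * m) := by
          intro j hj G
          have e1 : (a : ZMod P) + (j : ZMod P) * (m : ZMod P) = ((a + j * m : ℕ) : ZMod P) := by push_cast; rfl
          rw [e1]
          apply lift_nat X hX
          · omega
          · exact (add_le_add ha.2 (Nat.mul_le_mul_left j hm.2)).trans hj
        rw [e j1 hf1, e j2 hf2, e j3 hf3]
        push_cast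
        ring
      · intro x hx
        have : lift P R (fun _ => 1) x = 0 := by
          unfold lift
          rw [if_neg hx]
        rw [this]
        ring
    · intro x hx
      have : lift P N (fun _ => 1) x = 0 := by
        unfold lift
        rw [if_neg hx]
      simp [this]
  rw [h2, Complex.norm_real, Real.norm_eq_abs]

end Pool.Agent.K9h54.LP
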