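import Pool.Agent.K9h54.LP.F2
import Pool.Agent.H373R2.T7.SupE2
import Pool.Agent.H373R2.T7.BilF

set_option autoImplicit false

/-!
# Least primes: the exponential sum of the primes minus the model, along a progression
-/

namespace Pool.Agent.K9h54.LP

open Finset
open Pool.Agent.H807R2.Dav
open Pool.Agent.H373R2.T7 (pz Vz lamz ev_log' ev_L')

/-- the weight of a prime -/
noncomputable def th (n : ℕ) : ℝ := if n.Prime then Real.log n else 0

lemma th_nonneg (n : ℕ) : 0 ≤ th n := by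
  unfold th
  split_ifs
  · exact Real.log_natCast_nonneg n
  · exact le_rfl

lemma th_le_vM (n : ℕ) : th n ≤ ArithmeticFunction.vonMangoldt n := by
  unfold th
  split_ifs with h
  · rw [ArithmeticFunction.vonMangoldt_apply_prime h]
  · exact ArithmeticFunction.vonMangoldt_nonneg

lemma th_le_log (n : ℕ) : th n ≤ Real.log n := by
  unfold th
  split_ifs
  · exact le_rfl
  · exact Real.log_natCast_nonneg n

lemma sum_vM_th (N : ℕ) (hN : 1 ≤ N) :
    ∑ n ∈ Icc 1 N, (ArithmeticFunction.vonMangoldt n - th n) ≤ 2 * √(N : ℝ) * Real.log N := by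
  have h := Chebyshev.psi_sub_theta_le (x := (N : ℝ)) (by exact_mod_cast hN)
  have h1 : Chebyshev.psi (N : ℝ) = ∑ n ∈ Icc 1 N, ArithmeticFunction.vonMangoldt n := by
    unfold Chebyshev.psi
    rw [Nat.floor_natCast]
    rfl
  have h2 : Chebyshev.theta (N : ℝ) = ∑ n ∈ Icc 1 N, th n := by
    unfold Chebyshev.theta
    rw [Nat.floor_natCast, sum_filter]
    rfl
  rw [sum_sub_distrib, ← h1, ← h2]
  exact h

theorem supT (U : ℕ) : ∃ B : ℕ, 1 ≤ B ∧ ∀ E : ℕ, ∃ N0 : ℕ, ∀ N : ℕ, N0 ≤ N → ∀ z : ℕ, Real.log N ^ B ≤ z →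
    (z : ℝ) ≤ Real.log N ^ E → ∀ α : ℝ,
    ‖∑ n ∈ Icc 1 N, ((th n - lamz z n : ℝ) : ℂ) * ee ((n : ℝ) * α)‖ ≤ 2 * (N / Real.log N ^ U) := by
  obtain ⟨B, hB⟩ := Pool.Agent.H373R2.T7.sup_diff U
  refine ⟨B + 1, by omega, fun E => ?_⟩
  obtain ⟨m1, h1⟩ := hB E
  obtain ⟨m2, h2⟩ := ev_log' (U + 1) 2
  obtain ⟨m3, h3⟩ := ev_L' 1
  refine ⟨max (max m1 m2) (max m3 1), fun N hN z hz1 hz2 α => ?_⟩
  have a2 := h2 N (by omega)
  have a3 := h3 N (by omega)
  have a1 := h1 N (by omega) z ((pow_le_pow_right₀ a3 (by omega)).trans hz1) hz2 α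
  have a4 := sum_vM_th N (by omega)
  have hN1 : (1 : ℝ) ≤ N := by exact_mod_cast (show 1 ≤ N by omega)
  have e1 : ∑ n ∈ Icc 1 N, ((th n - lamz z n : ℝ) : ℂ) * ee ((n : ℝ) * α) =
      ∑ n ∈ Icc 1 N, ((ArithmeticFunction.vonMangoldt n - lamz z n : ℝ) : ℂ) * ee ((n : ℝ) * α) -
        ∑ n ∈ Icc 1 N, ((ArithmeticFunction.vonMangoldt n - th n : ℝ) : ℂ) * ee ((n : ℝ) * α) := by
    rw [← sum_sub_distrib]
    apply sum_congr rfl
    intro n _
    push_cast
    ring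
  have e2 : ‖∑ n ∈ Icc 1 N, ((ArithmeticFunction.vonMangoldt n - th n : ℝ) : ℂ) * ee ((n : ℝ) * α)‖ ≤
      2 * √(N : ℝ) * Real.log N := by
    refine (norm_sum_le _ _).trans (le_trans (le_of_eq ?_) a4)
    apply sum_congr rfl
    intro n _
    rw [norm_mul, norm_ee, mul_one, Complex.norm_real, Real.norm_of_nonneg (sub_nonneg.2 (th_le_vM n))]
  have e3 : 2 * √(N : ℝ) * Real.log N ≤ N / Real.log N ^ U := by
    rw [le_div_iff₀ (by positivity)]
    have hs := Real.mul_self_sqrt (show (0 : ℝ) ≤ N by linarith)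
    have : 2 * √(N : ℝ) * Real.log N * Real.log N ^ U = √(N : ℝ) * (2 * Real.log N ^ (U + 1)) := by ring
    rw [this]
    calc √(N : ℝ) * (2 * Real.log N ^ (U + 1)) ≤ √(N : ℝ) * √N := mul_le_mul_of_nonneg_left a2 (Real.sqrt_nonneg _)
      _ = N := hs
  rw [e1]
  refine (norm_sub_le _ _).trans ?_
  linarith

/-- along a progression -/
theorem ap_sum (W c X : ℕ) (hW : 1 ≤ W) (g : ℕ → ℝ) (S : ℝ)
    (hS : ∀ α : ℝ, ‖∑ y ∈ Ioc c (W * X + c), (g y : ℂ) * ee ((y : ℝ) * α)‖ ≤ S) (α : ℝ) :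
    ‖∑ n ∈ Icc 1 X, (g (W * n + c) : ℂ) * ee ((n : ℝ) * α)‖ ≤ S := by
  have hW0 : (0 : ℝ) < W := by exact_mod_cast hW
  have hWc : (W : ℂ) ≠ 0 := by exact_mod_cast (show W ≠ 0 by omega)
  have h1 : ∑ n ∈ Icc 1 X, (g (W * n + c) : ℂ) * ee ((n : ℝ) * α) =
      ∑ y ∈ Ioc c (W * X + c), if (W : ℤ) ∣ (y : ℤ) - c then (g y : ℂ) * ee (((y : ℝ) - c) / W * α) else 0 := by
    rw [← sum_filter]
    apply sum_bij' (fun n _ => W * n + c) (fun y _ => (y - c) / W)
    · intro n hn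
      rw [mem_Icc] at hn
      rw [mem_filter, mem_Ioc]
      refine ⟨⟨?_, ?_⟩, ?_⟩
      · have : 0 < W * n := Nat.mul_pos (by omega) (by omega)
        omega
      · have := Nat.mul_le_mul_left W hn.2
        omega
      · push_cast
        refine ⟨n, by ring⟩
    · intro y hy
      rw [mem_filter, mem_Ioc] at hy
      obtain ⟨⟨h2, h3⟩, h4⟩ := hy
      have h5 : W ∣ y - c := by
        have : ((y - c : ℕ) : ℤ) = (y : ℤ) - c := by push_cast [h2.le]; ring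
        rw [← this] at h4
        exact_mod_cast h4
      obtain ⟨t, ht⟩ := h5
      rw [mem_Icc, ht, Nat.mul_div_cancel_left _ (by omega)]
      have h6 : 0 < W * t := by omega
      have h7 : W * t ≤ W * X := by omega
      exact ⟨Nat.pos_of_ne_zero (by rintro rfl; omega), Nat.le_of_mul_le_mul_left h7 (by omega)⟩
    · intro n _
      simp only [Nat.add_sub_cancel]
      exact Nat.mul_div_cancel_left _ (by omega)
    · intro y hy
      rw [mem_filter, mem_Ioc] at hy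
      obtain ⟨⟨h2, h3⟩, h4⟩ := hy
      have h5 : W ∣ y - c := by
        have : ((y - c : ℕ) : ℤ) = (y : ℤ) - c := by push_cast [h2.le]; ring
        rw [← this] at h4
        exact_mod_cast h4
      rw [Nat.mul_div_cancel' h5]
      omega
    · intro n _
      congr 2
      push_cast
      field_simp
      ring
  have h2 : ∀ y : ℕ, (if (W : ℤ) ∣ (y : ℤ) - c then (g y : ℂ) * ee (((y : ℝ) - c) / W * α) else 0) =
      (W : ℂ)⁻¹ * ∑ k ∈ range W, ee (-(c : ℝ) * ((α + k) / W)) * ((g y : ℂ) * ee ((y : ℝ) * ((α + k) / W))) := by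
    intro y
    have h3 := Pool.Agent.H373R2.T7.orth W hW ((y : ℤ) - c)
    have h4 : ∀ k ∈ range W, ee (-(c : ℝ) * ((α + k) / W)) * ((g y : ℂ) * ee ((y : ℝ) * ((α + k) / W))) =
        ((g y : ℂ) * ee (((y : ℝ) - c) / W * α)) * ee ((k : ℝ) * ((((y : ℤ) - c : ℤ) : ℝ) / W)) := by
      intro k _
      have e1 : ee (-(c : ℝ) * ((α + k) / W)) * ee ((y : ℝ) * ((α + k) / W)) =
          ee (((y : ℝ) - c) / W * α) * ee ((k : ℝ) * ((((y : ℤ) - c : ℤ) : ℝ) / W)) := by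
        rw [← ee_add, ← ee_add]
        congr 1
        push_cast
        field_simp
        ring
      linear_combination (g y : ℂ) * e1
    rw [sum_congr rfl h4, ← mul_sum, h3]
    split_ifs with h5
    · field_simp
    · ring
  rw [h1]
  simp only [h2]
  rw [← mul_sum, sum_comm]
  have h3 : ‖∑ k ∈ range W, ∑ y ∈ Ioc c (W * X + c), ee (-(c : ℝ) * ((α + k) / W)) * ((g y : ℂ) * ee ((y : ℝ) * ((α + k) / W)))‖ ≤
      W * S := by
    refine (norm_sum_le _ _).trans ?_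
    calc ∑ k ∈ range W, ‖∑ y ∈ Ioc c (W * X + c), ee (-(c : ℝ) * ((α + k) / W)) * ((g y : ℂ) * ee ((y : ℝ) * ((α + k) / W)))‖ ≤
          ∑ k ∈ range W, S := by
          apply sum_le_sum
          intro k _
          rw [← mul_sum, norm_mul, norm_ee, one_mul]
          exact hS _
      _ = W * S := by rw [sum_const, card_range, nsmul_eq_mul]
  rw [norm_mul, norm_inv, Complex.norm_natCast]
  calc (W : ℝ)⁻¹ * ‖∑ k ∈ range W, ∑ y ∈ Ioc c (W * X + c), ee (-(c : ℝ) * ((α + k) / W)) * ((g y : ℂ) * ee ((y : ℝ) * ((α + k) / W)))‖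
      ≤ (W : ℝ)⁻¹ * (W * S) := mul_le_mul_of_nonneg_left h3 (by positivity)
    _ = S := by field_simp

/-- differences of two initial sums -/
theorem ap_sum2 (W c X : ℕ) (hW : 1 ≤ W) (g : ℕ → ℝ) (S : ℝ)
    (hS : ∀ N : ℕ, (N = c ∨ N = W * X + c) → ∀ α : ℝ, ‖∑ y ∈ Icc 1 N, (g y : ℂ) * ee ((y : ℝ) * α)‖ ≤ S) (α : ℝ) :
    ‖∑ n ∈ Icc 1 X, (g (W * n + c) : ℂ) * ee ((n : ℝ) * α)‖ ≤ 2 * S := by
  apply ap_sum W c X hW g (2 * S)
  intro β
  have e : ∑ y ∈ Ioc c (W * X + c), (g y : ℂ) * ee ((y : ℝ) * β) =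
      ∑ y ∈ Icc 1 (W * X + c), (g y : ℂ) * ee ((y : ℝ) * β) - ∑ y ∈ Icc 1 c, (g y : ℂ) * ee ((y : ℝ) * β) := by
    have h1 : Icc 1 (W * X + c) = Icc 1 c ∪ Ioc c (W * X + c) := by
      ext y
      rw [mem_union, mem_Icc, mem_Icc, mem_Ioc]
      omega
    have h2 : Disjoint (Icc 1 c) (Ioc c (W * X + c)) := by
      rw [disjoint_left]
      intro y h3 h4
      rw [mem_Icc] at h3
      rw [mem_Ioc] at h4
      omega
    rw [h1, sum_union h2]
    ring
  rw [e]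
  refine (norm_sub_le _ _).trans ?_
  have := hS _ (Or.inr rfl) β
  have := hS _ (Or.inl rfl) β
  linarith

end Pool.Agent.K9h54.LP
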