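import Pool.Agent.K9h54.LP.F3
import Pool.Agent.H373R2.T7.LamZ2

set_option autoImplicit false

/-!
# Least primes: the primes may be replaced by the model
-/

namespace Pool.Agent.K9h54.LP

open Finset
open Pool.Agent.H807R2.Dav
open Pool.Agent.H373R2.T7 (pz Vz lamz ev_log' ev_L')

/-- the number `a + j m` for `a = W b + s`, `m = W (T + t) + r` -/
def vv (W T s r j b t : ℕ) : ℕ := W * (b + j * t) + (s + j * (W * T + r))

/-- the level -/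
noncomputable def zz (B M : ℕ) : ℕ := ⌈(2 * Real.log M) ^ B⌉₊

/-- the conditions on a box -/
structure Box (W M T s r N R Jm : ℕ) : Prop where
  hM : M ≤ W * T
  hN : 1 ≤ N
  hR : 1 ≤ R
  hJ : 2 ≤ Jm
  h1 : ((W * (N + Jm * R) : ℕ) : ℝ) ≤ M * Real.log M ^ 3
  h2 : ((s + Jm * (W * T + r) : ℕ) : ℝ) ≤ M * Real.log M ^ 3

lemma lamz_nonneg (z n : ℕ) : 0 ≤ lamz z n := by
  unfold lamz
  split_ifs
  · apply inv_nonneg.2
    unfold Vz
    apply prod_nonneg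
    intro p hp
    have := (Pool.Agent.H373R2.T7.mem_pz.1 hp).2.one_le
    rw [sub_nonneg, div_le_one (by exact_mod_cast this)]
    exact_mod_cast this
  · exact le_rfl

lemma lamz_le (z n : ℕ) : lamz z n ≤ (Vz z)⁻¹ := by
  unfold lamz
  split_ifs
  · exact le_rfl
  · apply inv_nonneg.2
    unfold Vz
    apply prod_nonneg
    intro p hp
    have := (Pool.Agent.H373R2.T7.mem_pz.1 hp).2.one_le
    rw [sub_nonneg, div_le_one (by exact_mod_cast this)]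
    exact_mod_cast this

/-- large scales -/
structure Big (B E W M : ℕ) : Prop where
  h1 : (2 : ℝ) ^ B + 40 ≤ Real.log M
  h2 : 2 * Real.log M ^ 3 ≤ √(M : ℝ)
  h3 : (W : ℝ) ≤ Real.log M
  h4 : 2 ≤ M
  h5 : ∀ z : ℕ, 1 ≤ z → (z : ℝ) ≤ Real.log M ^ E → (Vz z)⁻¹ ≤ Real.log M

lemma big_ev (B E W : ℕ) : ∃ M0 : ℕ, ∀ M : ℕ, M0 ≤ M → Big B E W M := by
  obtain ⟨m1, h1⟩ := ev_L' ((2 : ℝ) ^ B + 40)
  obtain ⟨m2, h2⟩ := ev_log' 3 2
  obtain ⟨m3, h3⟩ := ev_L' W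
  obtain ⟨m4, h4⟩ := Pool.Agent.H373R2.T7.Vz_inv_small E
  exact ⟨max (max m1 m2) (max (max m3 m4) 2), fun M hM =>
    ⟨h1 M (by omega), h2 M (by omega), h3 M (by omega), by omega, h4 M (by omega)⟩⟩

lemma zz_bounds {B W M : ℕ} (h : Big B (B + 1) W M) : 1 ≤ zz B M ∧ (2 * Real.log M) ^ B ≤ zz B M ∧
    (zz B M : ℝ) ≤ Real.log M ^ (B + 1) := by
  have h1 := h.h1
  have h2B : (1 : ℝ) ≤ 2 ^ B := one_le_pow₀ (by norm_num)
  have hl : (1 : ℝ) ≤ Real.log M := by linarith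
  have hlB : (1 : ℝ) ≤ Real.log M ^ B := one_le_pow₀ hl
  have e1 : (2 * Real.log M) ^ B ≤ zz B M := Nat.le_ceil _
  have e2 : (zz B M : ℝ) ≤ (2 * Real.log M) ^ B + 1 := (Nat.ceil_lt_add_one (by positivity)).le
  refine ⟨?_, e1, e2.trans ?_⟩
  · have : (1 : ℝ) ≤ (2 * Real.log M) ^ B := one_le_pow₀ (by linarith)
    exact_mod_cast this.trans e1
  · rw [mul_pow, pow_succ]
    nlinarith

lemma log_le_two {M N : ℕ} (hM : 2 ≤ M) (hN : 1 ≤ N) (h : (N : ℝ) ≤ (M : ℝ) ^ 2) : Real.log N ≤ 2 * Real.log M := by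
  have h1 := Real.log_le_log (show (0 : ℝ) < N by exact_mod_cast hN) h
  rw [Real.log_pow] at h1
  exact_mod_cast h1

theorem one_swap : ∃ B : ℕ, 1 ≤ B ∧ ∀ W : ℕ, 1 ≤ W → ∃ M0 : ℕ, ∀ M : ℕ, M0 ≤ M → Big B (B + 1) W M ∧
    ∀ T s r N R Jm : ℕ, Box W M T s r N R Jm →
    ∀ j1 j2 j3 : ℕ, 1 ≤ j1 → j1 ≤ Jm → j2 ≤ Jm → j3 ≤ Jm → j1 ≠ j2 → j1 ≠ j3 → ∀ F2 F3 : ℕ → ℝ,
      (∀ n ∈ Icc 1 (N + Jm * R), |F2 n| ≤ 2 * Real.log M) → (∀ n ∈ Icc 1 (N + Jm * R), |F3 n| ≤ 2 * Real.log M) →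
      |∑ b ∈ Icc 1 N, ∑ t ∈ Icc 1 R, (th (vv W T s r j1 b t) - lamz (zz B M) (vv W T s r j1 b t)) *
        F2 (b + j2 * t) * F3 (b + j3 * t)| ≤ (M : ℝ) ^ 2 / Real.log M ^ 10 := by
  obtain ⟨B, hB1, hB⟩ := supT 32
  refine ⟨B, hB1, fun W hW => ?_⟩
  obtain ⟨N0, h0⟩ := hB (B + 1)
  obtain ⟨m1, hbig⟩ := big_ev B (B + 1) W
  refine ⟨max N0 m1, fun M hM => ⟨hbig M (by omega), fun T s r N R Jm hbox j1 j2 j3 hj1 hj1J hj2 hj3 h12 h13 F2 F3 hF2 hF3 => ?_⟩⟩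
  have hb := hbig M (by omega)
  obtain ⟨hz1, hz2, hz3⟩ := zz_bounds hb
  have h2B : (1 : ℝ) ≤ 2 ^ B := one_le_pow₀ (by norm_num)
  obtain ⟨l, hl⟩ : ∃ l, l = Real.log M := ⟨_, rfl⟩
  have hl40 : 41 ≤ l := by rw [hl]; linarith [hb.h1]
  have hM2 := hb.h4
  have hMr : (2 : ℝ) ≤ M := by exact_mod_cast hM2
  have hWr : (1 : ℝ) ≤ W := by exact_mod_cast hW
  have hml : 2 * l ^ 3 * M ≤ (M : ℝ) ^ 2 := by
    have h := hb.h2
    rw [← hl] at h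
    have hs : √(M : ℝ) ≤ M := by
      rw [Real.sqrt_le_left (by positivity)]
      nlinarith
    nlinarith
  obtain ⟨X, hX⟩ : ∃ X, X = N + Jm * R := ⟨_, rfl⟩
  have hbox1 := hbox.h1
  have hbox2 := hbox.h2
  rw [← hl] at hbox1 hbox2
  rw [← hX] at hbox1 hF2 hF3
  have hX1 : 1 ≤ X := by rw [hX]; have := hbox.hN; omega
  have hXr : (X : ℝ) ≤ M * l ^ 3 := by
    push_cast at hbox1
    have : (X : ℝ) ≤ W * X := le_mul_of_one_le_left (by positivity) hWr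
    linarith
  have hMl : (M : ℝ) * l ^ 3 ≤ M ^ 2 := by nlinarith [show (0 : ℝ) < l ^ 3 * M by positivity]
  -- the sup bound
  obtain ⟨c, hc⟩ : ∃ c, c = s + j1 * (W * T + r) := ⟨_, rfl⟩
  have hcM : M ≤ c := by
    rw [hc]
    have h1 : 1 * (W * T + r) ≤ j1 * (W * T + r) := Nat.mul_le_mul_right _ hj1
    have := hbox.hM
    omega
  have hcr : (c : ℝ) ≤ M * l ^ 3 := by
    refine le_trans ?_ hbox2
    rw [hc]
    exact_mod_cast Nat.add_le_add_left (Nat.mul_le_mul_right _ hj1J) s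
  have hYr : ((W * X + c : ℕ) : ℝ) ≤ 2 * (M * l ^ 3) := by
    push_cast at hbox1 ⊢
    linarith
  have hsup : ∀ N' : ℕ, M ≤ N' → (N' : ℝ) ≤ 2 * (M * l ^ 3) → ∀ α : ℝ,
      ‖∑ y ∈ Icc 1 N', ((th y - lamz (zz B M) y : ℝ) : ℂ) * ee ((y : ℝ) * α)‖ ≤ 4 * M / l ^ 29 := by
    intro N' h1 h2 α
    have k1 : Real.log M ≤ Real.log N' := Real.log_le_log (by linarith) (by exact_mod_cast h1)
    have k2 : Real.log N' ≤ 2 * Real.log M := log_le_two hM2 (by omega) (by nlinarith)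
    rw [← hl] at k1 k2
    have k3 : 0 ≤ Real.log N' := by linarith
    have k4 := h0 N' (by omega) (zz B M) ?_ ?_ α
    · refine k4.trans ?_
      have k5 : l ^ 32 ≤ Real.log N' ^ 32 := by gcongr
      calc 2 * ((N' : ℝ) / Real.log N' ^ 32) ≤ 2 * ((2 * (M * l ^ 3)) / l ^ 32) := by gcongr
        _ = 4 * M / l ^ 29 := by field_simp; ring
    · rw [hl] at k2
      exact le_trans (by gcongr) hz2
    · rw [hl] at k1
      have : 0 ≤ Real.log M := by rw [← hl]; linarith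
      exact hz3.trans (by gcongr)
  obtain ⟨G, hG⟩ : ∃ G : ℕ → ℝ, G = fun n => th (W * n + c) - lamz (zz B M) (W * n + c) := ⟨_, rfl⟩
  have hS : ∀ α : ℝ, ‖∑ n ∈ Icc 1 X, (G n : ℂ) * ee ((n : ℝ) * α)‖ ≤ 8 * M / l ^ 29 := by
    intro α
    have k1 := ap_sum2 W c X hW (fun y => th y - lamz (zz B M) y) (4 * M / l ^ 29) (by
      intro N' hN' β
      rcases hN' with h | h
      · rw [h]
        exact hsup c hcM (by nlinarith) β
      · rw [h]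
        exact hsup _ (by omega) hYr β) α
    rw [hG]
    refine k1.trans (le_of_eq ?_)
    ring
  -- the prime
  obtain ⟨P, hPp, hP1, hP2⟩ := Nat.exists_prime_lt_and_le_two_mul X (by omega)
  haveI := Fact.mk hPp
  have hjX : ∀ j, j ≤ Jm → N + j * R ≤ X ∧ j < P := by
    intro j hj
    have h1 := Nat.mul_le_mul_right R hj
    have h2 : j * 1 ≤ j * R := Nat.mul_le_mul_left j hbox.hR
    omega
  have hNP : N < P := by have := (hjX 0 (Nat.zero_le _)).1; omega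
  have hRP : R < P := by
    have h1 : 1 * R ≤ Jm * R := Nat.mul_le_mul_right R (by have := hbox.hJ; omega)
    omega
  have key := tri_nat (P := P) N R X j1 j2 j3 h12 h13 hP1 hNP hRP (hjX j1 hj1J).2 (hjX j2 hj2).2 (hjX j3 hj3).2
    (hjX j1 hj1J).1 (hjX j2 hj2).1 (hjX j3 hj3).1 G F2 F3 (8 * M / l ^ 29) hS
  have e1 : ∑ b ∈ Icc 1 N, ∑ t ∈ Icc 1 R, (th (vv W T s r j1 b t) - lamz (zz B M) (vv W T s r j1 b t)) *
        F2 (b + j2 * t) * F3 (b + j3 * t) =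
      ∑ a ∈ Icc 1 N, ∑ m ∈ Icc 1 R, G (a + j1 * m) * F2 (a + j2 * m) * F3 (a + j3 * m) := by
    rw [hG, hc]
    rfl
  rw [e1]
  refine key.trans ?_
  have hL2 : ∀ F : ℕ → ℝ, (∀ n ∈ Icc 1 X, |F n| ≤ 2 * Real.log M) → √(∑ n ∈ Icc 1 X, F n ^ 2) ≤ √(X * (2 * l) ^ 2 : ℝ) := by
    intro F hF
    apply Real.sqrt_le_sqrt
    calc ∑ n ∈ Icc 1 X, F n ^ 2 ≤ ∑ n ∈ Icc 1 X, (2 * l) ^ 2 := by
          apply sum_le_sum
          intro n hn
          rw [← sq_abs]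
          have := hF n hn
          rw [← hl] at this
          gcongr
      _ = X * (2 * l) ^ 2 := by
          rw [sum_const, Nat.card_Icc, nsmul_eq_mul]
          simp
  have hlogP : Real.log P ≤ 2 * l := by
    rw [hl]
    apply log_le_two hM2 hPp.one_le
    have : (P : ℝ) ≤ 2 * X := by exact_mod_cast hP2
    nlinarith
  have hP0 : 0 ≤ Real.log P := Real.log_natCast_nonneg P
  calc (2 + Real.log P) ^ 2 * (8 * M / l ^ 29 * (√(∑ n ∈ Icc 1 X, F2 n ^ 2) * √(∑ n ∈ Icc 1 X, F3 n ^ 2)))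
      ≤ (3 * l) ^ 2 * (8 * M / l ^ 29 * (√(X * (2 * l) ^ 2 : ℝ) * √(X * (2 * l) ^ 2 : ℝ))) := by
        have := hL2 F2 hF2
        have := hL2 F3 hF3
        have : 2 + Real.log P ≤ 3 * l := by linarith
        gcongr
    _ = (3 * l) ^ 2 * (8 * M / l ^ 29 * (X * (2 * l) ^ 2)) := by
        rw [Real.mul_self_sqrt (by positivity)]
    _ ≤ (3 * l) ^ 2 * (8 * M / l ^ 29 * ((M * l ^ 3) * (2 * l) ^ 2)) := by gcongr
    _ = 288 * M ^ 2 / l ^ 22 := by field_simp; ring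
    _ ≤ (M : ℝ) ^ 2 / l ^ 10 := by
        rw [div_le_div_iff₀ (by positivity) (by positivity)]
        have k1 : (288 : ℝ) ≤ l ^ 12 := by
          calc (288 : ℝ) ≤ 41 ^ 12 := by norm_num
            _ ≤ l ^ 12 := by gcongr
        calc 288 * (M : ℝ) ^ 2 * l ^ 10 ≤ l ^ 12 * (M : ℝ) ^ 2 * l ^ 10 := by gcongr
          _ = (M : ℝ) ^ 2 * l ^ 22 := by ring
    _ = _ := by rw [hl]

/-- bounds for the weights -/
lemma weights {B W M T s r N R Jm : ℕ} (hb : Big B (B + 1) W M) (hbox : Box W M T s r N R Jm) (hW : 1 ≤ W) {j : ℕ}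
    (hj1 : 1 ≤ j) (hj : j ≤ Jm) : ∀ n ∈ Icc 1 (N + Jm * R), |th (W * n + (s + j * (W * T + r)))| ≤ 2 * Real.log M ∧
      |lamz (zz B M) (W * n + (s + j * (W * T + r)))| ≤ 2 * Real.log M := by
  intro n hn
  rw [mem_Icc] at hn
  obtain ⟨hz1, hz2, hz3⟩ := zz_bounds hb
  have h2B : (1 : ℝ) ≤ 2 ^ B := one_le_pow₀ (by norm_num)
  have hl0 : 1 ≤ Real.log M := by linarith [hb.h1]
  have hMr : (2 : ℝ) ≤ M := by exact_mod_cast hb.h4
  constructor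
  · rw [abs_of_nonneg (th_nonneg _)]
    refine (th_le_log _).trans (log_le_two hb.h4 ?_ ?_)
    · have : 1 * 1 ≤ W * n := Nat.mul_le_mul hW hn.1
      omega
    · have h1 := hbox.h1
      have h2 := hbox.h2
      have h3 : ((W * n + (s + j * (W * T + r)) : ℕ) : ℝ) ≤ ((W * (N + Jm * R) : ℕ) : ℝ) + ((s + Jm * (W * T + r) : ℕ) : ℝ) := by
        have k1 := Nat.mul_le_mul_left W hn.2
        have k2 := Nat.mul_le_mul_right (W * T + r) hj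
        exact_mod_cast (show W * n + (s + j * (W * T + r)) ≤ W * (N + Jm * R) + (s + Jm * (W * T + r)) by omega)
      have h4 := hb.h2
      have hs : √(M : ℝ) ≤ M := by
        rw [Real.sqrt_le_left (by positivity)]
        nlinarith
      nlinarith
  · rw [abs_of_nonneg (lamz_nonneg _ _)]
    have := hb.h5 _ hz1 hz3
    have := lamz_le (zz B M) (W * n + (s + j * (W * T + r)))
    linarith

theorem swap : ∃ B : ℕ, 1 ≤ B ∧ ∀ W : ℕ, 1 ≤ W → ∃ M0 : ℕ, ∀ M : ℕ, M0 ≤ M → Big B (B + 1) W M ∧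
    ∀ T s r N R Jm : ℕ, Box W M T s r N R Jm →
    (∀ j1 : ℕ, j1 ∈ Icc 1 Jm →
      |∑ b ∈ Icc 1 N, ∑ t ∈ Icc 1 R, th (vv W T s r j1 b t) - ∑ b ∈ Icc 1 N, ∑ t ∈ Icc 1 R, lamz (zz B M) (vv W T s r j1 b t)| ≤
        (M : ℝ) ^ 2 / Real.log M ^ 10) ∧
    (∀ j1 j2 : ℕ, j1 ∈ Icc 1 Jm → j2 ∈ Icc 1 Jm → j1 ≠ j2 →
      |∑ b ∈ Icc 1 N, ∑ t ∈ Icc 1 R, th (vv W T s r j1 b t) * th (vv W T s r j2 b t) -
        ∑ b ∈ Icc 1 N, ∑ t ∈ Icc 1 R, lamz (zz B M) (vv W T s r j1 b t) * lamz (zz B M) (vv W T s r j2 b t)| ≤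
        2 * ((M : ℝ) ^ 2 / Real.log M ^ 10)) ∧
    (∀ j1 j2 j3 : ℕ, j1 ∈ Icc 1 Jm → j2 ∈ Icc 1 Jm → j3 ∈ Icc 1 Jm → j1 ≠ j2 → j1 ≠ j3 → j2 ≠ j3 →
      |∑ b ∈ Icc 1 N, ∑ t ∈ Icc 1 R, th (vv W T s r j1 b t) * th (vv W T s r j2 b t) * th (vv W T s r j3 b t) -
        ∑ b ∈ Icc 1 N, ∑ t ∈ Icc 1 R, lamz (zz B M) (vv W T s r j1 b t) * lamz (zz B M) (vv W T s r j2 b t) *
          lamz (zz B M) (vv W T s r j3 b t)| ≤
        3 * ((M : ℝ) ^ 2 / Real.log M ^ 10)) := by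
  obtain ⟨B, hB1, hB⟩ := one_swap
  refine ⟨B, hB1, fun W hW => ?_⟩
  obtain ⟨M0, h0⟩ := hB W hW
  refine ⟨M0, fun M hM => ?_⟩
  obtain ⟨hb, hs⟩ := h0 M hM
  refine ⟨hb, fun T s r N R Jm hbox => ?_⟩
  have hsb := hs T s r N R Jm hbox
  have h2B : (1 : ℝ) ≤ 2 ^ B := one_le_pow₀ (by norm_num)
  have hl0 : 1 ≤ Real.log M := by linarith [hb.h1]
  have hone : ∀ n ∈ Icc 1 (N + Jm * R), |(fun _ : ℕ => (1 : ℝ)) n| ≤ 2 * Real.log M := by
    intro n _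
    rw [abs_one]
    linarith
  have wt : ∀ j, j ∈ Icc 1 Jm → ∀ n ∈ Icc 1 (N + Jm * R), |(fun n => th (W * n + (s + j * (W * T + r)))) n| ≤ 2 * Real.log M := by
    intro j hj n hn
    rw [mem_Icc] at hj
    exact (weights hb hbox hW hj.1 hj.2 n hn).1
  have wz : ∀ j, j ∈ Icc 1 Jm → ∀ n ∈ Icc 1 (N + Jm * R), |(fun n => lamz (zz B M) (W * n + (s + j * (W * T + r)))) n| ≤ 2 * Real.log M := by
    intro j hj n hn
    rw [mem_Icc] at hj
    exact (weights hb hbox hW hj.1 hj.2 n hn).2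
  refine ⟨?_, ?_, ?_⟩
  · intro j1 hj1
    have hj := mem_Icc.1 hj1
    obtain ⟨j2, hj2, hne⟩ : ∃ j2, j2 ≤ Jm ∧ j1 ≠ j2 := ⟨0, Nat.zero_le _, by omega⟩
    have h1 := hsb j1 j2 j2 hj.1 hj.2 hj2 hj2 hne hne _ _ hone hone
    simp only [mul_one] at h1
    rw [← sum_sub_distrib]
    simp only [← sum_sub_distrib]
    exact h1
  · intro j1 j2 hj1 hj2 hne
    have hj := mem_Icc.1 hj1
    have hj' := mem_Icc.1 hj2
    have h1 := hsb j1 j2 j2 hj.1 hj.2 hj'.2 hj'.2 hne hne _ _ (wt j2 hj2) hone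
    have h2 := hsb j2 j1 j1 hj'.1 hj'.2 hj.2 hj.2 (Ne.symm hne) (Ne.symm hne) _ _ (wz j1 hj1) hone
    simp only [mul_one] at h1 h2
    rw [← sum_sub_distrib]
    simp only [← sum_sub_distrib]
    have e : ∑ b ∈ Icc 1 N, ∑ t ∈ Icc 1 R, (th (vv W T s r j1 b t) * th (vv W T s r j2 b t) -
        lamz (zz B M) (vv W T s r j1 b t) * lamz (zz B M) (vv W T s r j2 b t)) =
        (∑ b ∈ Icc 1 N, ∑ t ∈ Icc 1 R, (th (vv W T s r j1 b t) - lamz (zz B M) (vv W T s r j1 b t)) *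
          th (W * (b + j2 * t) + (s + j2 * (W * T + r)))) +
        ∑ b ∈ Icc 1 N, ∑ t ∈ Icc 1 R, (th (vv W T s r j2 b t) - lamz (zz B M) (vv W T s r j2 b t)) *
          lamz (zz B M) (W * (b + j1 * t) + (s + j1 * (W * T + r))) := by
      rw [← sum_add_distrib]
      apply sum_congr rfl
      intro b _
      rw [← sum_add_distrib]
      apply sum_congr rfl
      intro t _
      unfold vv
      ring
    rw [e]
    refine (abs_add_le _ _).trans ?_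
    linarith
  · intro j1 j2 j3 hj1 hj2 hj3 h12 h13 h23
    have hj := mem_Icc.1 hj1
    have hj' := mem_Icc.1 hj2
    have hj'' := mem_Icc.1 hj3
    have h1 := hsb j1 j2 j3 hj.1 hj.2 hj'.2 hj''.2 h12 h13 _ _ (wt j2 hj2) (wt j3 hj3)
    have h2 := hsb j2 j1 j3 hj'.1 hj'.2 hj.2 hj''.2 (Ne.symm h12) h23 _ _ (wz j1 hj1) (wt j3 hj3)
    have h3 := hsb j3 j1 j2 hj''.1 hj''.2 hj.2 hj'.2 (Ne.symm h13) (Ne.symm h23) _ _ (wz j1 hj1) (wz j2 hj2)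
    rw [← sum_sub_distrib]
    simp only [← sum_sub_distrib]
    have e : ∑ b ∈ Icc 1 N, ∑ t ∈ Icc 1 R, (th (vv W T s r j1 b t) * th (vv W T s r j2 b t) * th (vv W T s r j3 b t) -
        lamz (zz B M) (vv W T s r j1 b t) * lamz (zz B M) (vv W T s r j2 b t) * lamz (zz B M) (vv W T s r j3 b t)) =
        (∑ b ∈ Icc 1 N, ∑ t ∈ Icc 1 R, (th (vv W T s r j1 b t) - lamz (zz B M) (vv W T s r j1 b t)) *
          th (W * (b + j2 * t) + (s + j2 * (W * T + r))) * th (W * (b + j3 * t) + (s + j3 * (W * T + r)))) +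
        (∑ b ∈ Icc 1 N, ∑ t ∈ Icc 1 R, (th (vv W T s r j2 b t) - lamz (zz B M) (vv W T s r j2 b t)) *
          lamz (zz B M) (W * (b + j1 * t) + (s + j1 * (W * T + r))) * th (W * (b + j3 * t) + (s + j3 * (W * T + r)))) +
        ∑ b ∈ Icc 1 N, ∑ t ∈ Icc 1 R, (th (vv W T s r j3 b t) - lamz (zz B M) (vv W T s r j3 b t)) *
          lamz (zz B M) (W * (b + j1 * t) + (s + j1 * (W * T + r))) *
          lamz (zz B M) (W * (b + j2 * t) + (s + j2 * (W * T + r))) := by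
      rw [← sum_add_distrib, ← sum_add_distrib]
      apply sum_congr rfl
      intro b _
      rw [← sum_add_distrib, ← sum_add_distrib]
      apply sum_congr rfl
      intro t _
      unfold vv
      ring
    rw [e]
    refine (abs_add_le _ _).trans ?_
    have := abs_add_le (∑ b ∈ Icc 1 N, ∑ t ∈ Icc 1 R, (th (vv W T s r j1 b t) - lamz (zz B M) (vv W T s r j1 b t)) *
          th (W * (b + j2 * t) + (s + j2 * (W * T + r))) * th (W * (b + j3 * t) + (s + j3 * (W * T + r))))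
        (∑ b ∈ Icc 1 N, ∑ t ∈ Icc 1 R, (th (vv W T s r j2 b t) - lamz (zz B M) (vv W T s r j2 b t)) *
          lamz (zz B M) (W * (b + j1 * t) + (s + j1 * (W * T + r))) * th (W * (b + j3 * t) + (s + j3 * (W * T + r))))
    linarith

end Pool.Agent.K9h54.LP
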