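import Mathlib
import Pool.Agent.H387R2.UDefs

set_option autoImplicit false

/-!
# Least primes: averages of products over the prime divisors, local factors
-/

namespace Pool.Agent.K9h54.LP

open Finset
open Pool.Agent.H387R2.Uni (nuT)

/-- `(1 - 1/p)⁻¹` -/
noncomputable def uu (p : ℕ) : ℝ := (1 - 1 / (p : ℝ))⁻¹

lemma uu_eq {p : ℕ} (hp : 2 ≤ p) : uu p = p / (p - 1) := by
  have h : (2 : ℝ) ≤ p := by exact_mod_cast hp
  unfold uu
  have : (p : ℝ) - 1 ≠ 0 := by linarith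
  have : (p : ℝ) ≠ 0 := by linarith
  field_simp

lemma uu_ge {p : ℕ} (hp : 2 ≤ p) : 1 + 1 / (p : ℝ) ≤ uu p := by
  have h : (2 : ℝ) ≤ p := by exact_mod_cast hp
  rw [uu_eq hp, le_div_iff₀ (by linarith)]
  have : (1 + 1 / (p : ℝ)) * (p - 1) = p - 1 / p := by field_simp; ring
  rw [this]
  have : 0 ≤ 1 / (p : ℝ) := by positivity
  linarith

lemma one_le_uu {p : ℕ} (hp : 2 ≤ p) : 1 ≤ uu p := by
  have h := uu_ge hp
  have : 0 ≤ 1 / (p : ℝ) := by positivity
  linarith

lemma uu_cube {p : ℕ} (hp : 3 ≤ p) : uu p ^ 3 ≤ 1 + 8 / p := by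
  have h : (3 : ℝ) ≤ p := by exact_mod_cast hp
  rw [uu_eq (by omega), div_pow, div_le_iff₀ (by have : (0 : ℝ) < p - 1 := by linarith
                                                 positivity)]
  have e : (1 + 8 / (p : ℝ)) * (p - 1) ^ 3 = (p ^ 3 * p + (5 * p ^ 3 - 21 * p ^ 2 + 23 * p - 8)) / p := by
    field_simp
    ring
  rw [e, le_div_iff₀ (by linarith)]
  nlinarith [mul_nonneg (sub_nonneg.2 h) (sub_nonneg.2 h), mul_nonneg (mul_nonneg (sub_nonneg.2 h) (sub_nonneg.2 h)) (sub_nonneg.2 h)]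

lemma uu_eight {p : ℕ} (hp : 2 ≤ p) : 1 + 8 / (p : ℝ) ≤ uu p ^ 8 := by
  have h1 := uu_ge hp
  have h0 : 0 ≤ 1 / (p : ℝ) := by positivity
  have h2 := one_add_mul_le_pow (show (-2 : ℝ) ≤ 1 / (p : ℝ) by linarith) 8
  calc 1 + 8 / (p : ℝ) = 1 + ((8 : ℕ) : ℝ) * (1 / (p : ℝ)) := by push_cast; ring
    _ ≤ (1 + 1 / (p : ℝ)) ^ 8 := h2
    _ ≤ uu p ^ 8 := by gcongr

theorem exp_lin {t : ℝ} (h0 : 0 ≤ t) (h1 : t ≤ 1) : Real.exp t - 1 ≤ 3 * t := by
  have h := Real.abs_exp_sub_one_le (x := t) (by rw [abs_of_nonneg h0]; exact h1)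
  rw [abs_of_nonneg h0] at h
  have := le_abs_self (Real.exp t - 1)
  linarith

lemma tele2 (w L : ℕ) (hw : 1 ≤ w) : ∑ n ∈ Ioc w L, 1 / ((n : ℝ) * ((n : ℝ) - 1)) ≤ 1 / w := by
  have hwr : (1 : ℝ) ≤ w := by exact_mod_cast hw
  rcases Nat.lt_or_ge L w with h | h
  · rw [Ioc_eq_empty (by omega), sum_empty]
    positivity
  · have key : ∑ n ∈ Ioc w L, 1 / ((n : ℝ) * ((n : ℝ) - 1)) = 1 / (w : ℝ) - 1 / L := by
      induction L, h using Nat.le_induction with
      | base => simp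
      | succ n hn ih =>
        have h2 : Ioc w (n + 1) = insert (n + 1) (Ioc w n) := by
          ext m
          rw [mem_insert, mem_Ioc, mem_Ioc]
          omega
        rw [h2, sum_insert (by rw [mem_Ioc]; omega), ih]
        have hnr : (1 : ℝ) ≤ n := by exact_mod_cast hw.trans hn
        have : (n : ℝ) ≠ 0 := by linarith
        have e1 : ((n + 1 : ℕ) : ℝ) - 1 = n := by push_cast; ring
        rw [e1]
        push_cast
        field_simp
        ring
    rw [key]
    have : (0 : ℝ) ≤ 1 / L := by positivity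
    linarith

lemma sum_sq_le {P : Finset ℕ} {w : ℕ} (hw : 1 ≤ w) (hP : ∀ p ∈ P, w < p) : ∑ p ∈ P, 1 / ((p : ℝ) * ((p : ℝ) - 1)) ≤ 1 / w := by
  refine le_trans ?_ (tele2 w (P.sup id) hw)
  apply sum_le_sum_of_subset_of_nonneg
  · intro p hp
    rw [mem_Ioc]
    exact ⟨hP p hp, le_sup (f := id) hp⟩
  · intro n hn _
    rw [mem_Ioc] at hn
    have : (1 : ℝ) ≤ n := by exact_mod_cast (show 1 ≤ n by omega)
    apply div_nonneg zero_le_one
    apply mul_nonneg <;> linarith

/-- the average of a product over the primes with a property -/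
theorem div_avg {ι : Type*} (I : Finset ι) (C : ι → ℕ → Prop) [∀ i p, Decidable (C i p)] (P : Finset ℕ) (w : ℕ) (hw : 16 ≤ w)
    (hP : ∀ p ∈ P, w < p) (A B : ℝ) (hA : 0 ≤ A) (hB : 0 ≤ B)
    (hc : ∀ S ⊆ P, S.Nonempty → ((I.filter fun i => ∀ p ∈ S, C i p).card : ℝ) ≤ A * ∏ p ∈ S, (1 / (p : ℝ)) + B) :
    ∑ i ∈ I, ∏ p ∈ P, (if C i p then uu p ^ 3 else 1) ≤ I.card + A * (24 / w) + B * ∏ p ∈ P, uu p ^ 8 := by
  have hwr : (16 : ℝ) ≤ w := by exact_mod_cast hw
  have hP0 : ∀ p ∈ P, (0 : ℝ) < p := fun p hp => by exact_mod_cast (show 0 < p by have := hP p hp; omega)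
  have h1 : ∀ i, ∏ p ∈ P, (if C i p then uu p ^ 3 else 1) ≤ 1 + ∑ S ∈ P.powerset.erase ∅,
      (if ∀ p ∈ S, C i p then ∏ p ∈ S, (8 / (p : ℝ)) else 0) := by
    intro i
    have e0 : ∏ p ∈ P, (if C i p then uu p ^ 3 else 1) ≤ ∏ p ∈ P, (1 + if C i p then 8 / (p : ℝ) else 0) := by
      apply prod_le_prod
      · intro p hp
        have := one_le_uu (show 2 ≤ p by have := hP p hp; omega)
        split_ifs
        · positivity
        · exact zero_le_one
      · intro p hp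
        split_ifs
        · exact uu_cube (by have := hP p hp; omega)
        · rw [add_zero]
    refine e0.trans (le_of_eq ?_)
    rw [prod_one_add, ← add_sum_erase _ _ (empty_mem_powerset P), prod_empty]
    congr 1
    apply sum_congr rfl
    intro S _
    split_ifs with h
    · apply prod_congr rfl
      intro p hp
      rw [if_pos (h p hp)]
    · push Not at h
      obtain ⟨p, hp, hd⟩ := h
      apply prod_eq_zero hp
      rw [if_neg hd]
  have h2 : ∑ i ∈ I, ∏ p ∈ P, (if C i p then uu p ^ 3 else 1) ≤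
      I.card + ∑ S ∈ P.powerset.erase ∅, (∏ p ∈ S, (8 / (p : ℝ))) * ((I.filter fun i => ∀ p ∈ S, C i p).card : ℝ) := by
    refine (sum_le_sum fun i _ => h1 i).trans (le_of_eq ?_)
    rw [sum_add_distrib, sum_const, nsmul_eq_mul, mul_one, sum_comm]
    congr 1
    apply sum_congr rfl
    intro S _
    rw [← sum_filter, sum_const, nsmul_eq_mul, mul_comm]
  have h8 : ∀ S ⊆ P, 0 ≤ ∏ p ∈ S, (8 / (p : ℝ)) := fun S hS => prod_nonneg fun p hp => by
    have := hP0 p (hS hp)
    positivity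
  have h3 : ∑ S ∈ P.powerset.erase ∅, (∏ p ∈ S, (8 / (p : ℝ))) * ((I.filter fun i => ∀ p ∈ S, C i p).card : ℝ) ≤
      A * (∑ S ∈ P.powerset.erase ∅, ∏ p ∈ S, (8 / (p : ℝ) * (1 / p))) + B * ∑ S ∈ P.powerset.erase ∅, ∏ p ∈ S, (8 / (p : ℝ)) := by
    rw [mul_sum, mul_sum, ← sum_add_distrib]
    apply sum_le_sum
    intro S hS
    have hS' := mem_erase.1 hS
    have hSP := mem_powerset.1 hS'.2
    calc (∏ p ∈ S, (8 / (p : ℝ))) * ((I.filter fun i => ∀ p ∈ S, C i p).card : ℝ) ≤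
          (∏ p ∈ S, (8 / (p : ℝ))) * (A * ∏ p ∈ S, (1 / (p : ℝ)) + B) :=
          mul_le_mul_of_nonneg_left (hc S hSP (nonempty_iff_ne_empty.2 hS'.1)) (h8 S hSP)
      _ = _ := by rw [prod_mul_distrib]; ring
  have h4 : ∑ S ∈ P.powerset.erase ∅, ∏ p ∈ S, (8 / (p : ℝ) * (1 / p)) ≤ 24 / w := by
    have e1 : ∏ p ∈ P, (1 + 8 / (p : ℝ) * (1 / p)) = 1 + ∑ S ∈ P.powerset.erase ∅, ∏ p ∈ S, (8 / (p : ℝ) * (1 / p)) := by
      rw [prod_one_add, ← add_sum_erase _ _ (empty_mem_powerset P), prod_empty]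
    have e2 : ∏ p ∈ P, (1 + 8 / (p : ℝ) * (1 / p)) ≤ Real.exp (8 / w) := by
      calc ∏ p ∈ P, (1 + 8 / (p : ℝ) * (1 / p)) ≤ ∏ p ∈ P, Real.exp (8 * (1 / ((p : ℝ) * (p - 1)))) := by
            apply prod_le_prod
            · intro p hp
              have := hP0 p hp
              positivity
            · intro p hp
              have h0 := hP0 p hp
              have h1 : (1 : ℝ) < p := by exact_mod_cast (show 1 < p by have := hP p hp; omega)
              have h2 := Real.add_one_le_exp (8 * (1 / ((p : ℝ) * (p - 1))))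
              have h3 : 8 / (p : ℝ) * (1 / p) ≤ 8 * (1 / ((p : ℝ) * (p - 1))) := by
                have : 8 / (p : ℝ) * (1 / p) = 8 * (1 / ((p : ℝ) * p)) := by ring
                rw [this]
                apply mul_le_mul_of_nonneg_left _ (by norm_num)
                apply one_div_le_one_div_of_le
                · apply mul_pos h0; linarith
                · apply mul_le_mul_of_nonneg_left _ h0.le; linarith
              linarith
        _ = Real.exp (8 * ∑ p ∈ P, 1 / ((p : ℝ) * (p - 1))) := by rw [← Real.exp_sum, mul_sum]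
        _ ≤ _ := by
            apply Real.exp_le_exp.2
            have := sum_sq_le (show 1 ≤ w by omega) hP
            calc 8 * ∑ p ∈ P, 1 / ((p : ℝ) * (p - 1)) ≤ 8 * (1 / w) := by linarith
              _ = 8 / w := by ring
    have e3 : (8 : ℝ) / w ≤ 1 := by
      rw [div_le_one (by linarith)]
      linarith
    have e4 := exp_lin (show (0 : ℝ) ≤ 8 / w by positivity) e3
    have e5 : 3 * (8 / (w : ℝ)) = 24 / w := by ring
    rw [e1] at e2
    linarith
  have h5 : ∑ S ∈ P.powerset.erase ∅, ∏ p ∈ S, (8 / (p : ℝ)) ≤ ∏ p ∈ P, uu p ^ 8 := by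
    calc ∑ S ∈ P.powerset.erase ∅, ∏ p ∈ S, (8 / (p : ℝ)) ≤ ∑ S ∈ P.powerset, ∏ p ∈ S, (8 / (p : ℝ)) := by
          apply sum_le_sum_of_subset_of_nonneg (erase_subset _ _)
          intro S hS _
          exact h8 S (mem_powerset.1 hS)
      _ = ∏ p ∈ P, (1 + 8 / (p : ℝ)) := (prod_one_add P).symm
      _ ≤ ∏ p ∈ P, uu p ^ 8 := by
          apply prod_le_prod
          · intro p hp
            have := hP0 p hp
            positivity
          · intro p hp
            exact uu_eight (by have := hP p hp; omega)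
  have h6 := mul_le_mul_of_nonneg_left h4 hA
  have h7 := mul_le_mul_of_nonneg_left h5 hB
  linarith

/-- the tuple of the shifts `(J - j) m` -/
def sh (Jm m : ℕ) (Js : Finset ℕ) : Finset ℕ := Js.image fun j => (Jm - j) * m

lemma sh_card (Jm m : ℕ) (Js : Finset ℕ) : (sh Jm m Js).card ≤ Js.card := card_image_le

lemma nuT_pos {T : Finset ℕ} (hT : T.Nonempty) (p : ℕ) : 1 ≤ nuT T p := by
  unfold nuT
  exact card_pos.2 (hT.image _)

lemma nuT_le' (T : Finset ℕ) (p : ℕ) : nuT T p ≤ T.card := card_image_le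

lemma pair_le {T : Finset ℕ} {p x y : ℕ} (hx : x ∈ T) (hy : y ∈ T) (h : x % p ≠ y % p) : 2 ≤ nuT T p := by
  unfold nuT
  have h1 : ({x % p, y % p} : Finset ℕ) ⊆ T.image fun h => h % p := by
    intro a ha
    rw [mem_insert, mem_singleton] at ha
    rcases ha with rfl | rfl
    · exact mem_image_of_mem _ hx
    · exact mem_image_of_mem _ hy
  have h2 := card_le_card h1
  rw [card_pair h] at h2
  exact h2

lemma triple_le {T : Finset ℕ} {p x y z : ℕ} (hx : x ∈ T) (hy : y ∈ T) (hz : z ∈ T) (h1 : x % p ≠ y % p)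
    (h2 : x % p ≠ z % p) (h3 : y % p ≠ z % p) : 3 ≤ nuT T p := by
  unfold nuT
  have h4 : ({x % p, y % p, z % p} : Finset ℕ) ⊆ T.image fun h => h % p := by
    intro a ha
    rw [mem_insert, mem_insert, mem_singleton] at ha
    rcases ha with rfl | rfl | rfl
    · exact mem_image_of_mem _ hx
    · exact mem_image_of_mem _ hy
    · exact mem_image_of_mem _ hz
  have h5 := card_le_card h4
  have h6 : ({x % p, y % p, z % p} : Finset ℕ).card = 3 := by
    rw [card_eq_three]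
    exact ⟨_, _, _, h1, h2, h3, rfl⟩
  rw [h6] at h5
  exact h5

lemma shift_ne {Jm m j j' p : ℕ} (hp : p.Prime) (hm : ¬ p ∣ m) (hj : j ≤ Jm) (hj' : j' ≤ Jm) (h : ¬ j ≡ j' [MOD p]) :
    (Jm - j) * m % p ≠ (Jm - j') * m % p := by
  intro h1
  apply h
  haveI := Fact.mk hp
  have h2 := (ZMod.natCast_eq_natCast_iff' _ _ p).2 h1
  push_cast [hj, hj'] at h2
  have hm' : (m : ZMod p) ≠ 0 := by
    intro h3
    exact hm ((ZMod.natCast_eq_zero_iff m p).1 h3)
  have h4 := mul_right_cancel₀ hm' h2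
  have h5 : (j : ZMod p) = (j' : ZMod p) := by linear_combination -h4
  exact (ZMod.natCast_eq_natCast_iff j j' p).1 h5

/-- the local factor of a triple -/
theorem loc3 {Jm m j1 j2 j3 p : ℕ} (hp : p.Prime) (h1 : j1 ≤ Jm) (h2 : j2 ≤ Jm) (h3 : j3 ≤ Jm) (hp3 : 3 ≤ p) :
    0 ≤ (1 - (nuT (sh Jm m {j1, j2, j3}) p : ℝ) / p) * uu p ^ 3 ∧
    (1 - (nuT (sh Jm m {j1, j2, j3}) p : ℝ) / p) * uu p ^ 3 ≤
      (if p ∣ m then uu p ^ 2 else 1) * ((if j1 ≡ j2 [MOD p] then uu p else 1) *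
        (if j1 ≡ j3 [MOD p] then uu p else 1) * (if j2 ≡ j3 [MOD p] then uu p else 1)) := by
  obtain ⟨ν, hν⟩ : ∃ ν, ν = nuT (sh Jm m {j1, j2, j3}) p := ⟨_, rfl⟩
  have hu := one_le_uu hp.two_le
  have hpr : (3 : ℝ) ≤ p := by exact_mod_cast hp3
  have hmem : ∀ j ∈ ({j1, j2, j3} : Finset ℕ), (Jm - j) * m ∈ sh Jm m {j1, j2, j3} := fun j hj => mem_image_of_mem _ hj
  have hν1 : 1 ≤ ν := by
    rw [hν]
    exact nuT_pos ⟨_, hmem j1 (by simp)⟩ p
  have hν3 : ν ≤ 3 := by
    rw [hν]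
    exact (nuT_le' _ _).trans ((sh_card _ _ _).trans card_le_three)
  rw [← hν]
  have hfac : (1 - (ν : ℝ) / p) * uu p ^ 3 ≤ uu p ^ (3 - ν) := by
    have h4 : 1 - (ν : ℝ) / p ≤ (1 - 1 / (p : ℝ)) ^ ν := by
      have := one_add_mul_le_pow (show (-2 : ℝ) ≤ -(1 / (p : ℝ)) by
        have : 1 / (p : ℝ) ≤ 1 := by rw [div_le_one (by linarith)]; linarith
        linarith) ν
      calc 1 - (ν : ℝ) / p = 1 + ν * -(1 / (p : ℝ)) := by ring
        _ ≤ (1 + -(1 / (p : ℝ))) ^ ν := this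
        _ = _ := by ring
    have h5 : (1 - 1 / (p : ℝ)) ^ ν * uu p ^ 3 = uu p ^ (3 - ν) := by
      have e : uu p ^ 3 = uu p ^ ν * uu p ^ (3 - ν) := by
        rw [← pow_add]
        congr 1
        omega
      rw [e, ← mul_assoc, ← mul_pow]
      have : (1 - 1 / (p : ℝ)) * uu p = 1 := by
        unfold uu
        apply mul_inv_cancel₀
        have : 1 / (p : ℝ) ≤ 1 / 3 := one_div_le_one_div_of_le (by norm_num) hpr
        linarith
      rw [this, one_pow, one_mul]
    rw [← h5]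
    exact mul_le_mul_of_nonneg_right h4 (by positivity)
  constructor
  · apply mul_nonneg _ (by positivity)
    rw [sub_nonneg, div_le_one (by linarith)]
    have : (ν : ℝ) ≤ 3 := by exact_mod_cast hν3
    linarith
  · refine hfac.trans ?_
    have hone : (1 : ℝ) ≤ 1 := le_rfl
    by_cases hpm : p ∣ m
    · rw [if_pos hpm]
      have k1 : uu p ^ (3 - ν) ≤ uu p ^ 2 := pow_le_pow_right₀ hu (by omega)
      have k2 : 1 ≤ (if j1 ≡ j2 [MOD p] then uu p else 1) *
        (if j1 ≡ j3 [MOD p] then uu p else 1) * (if j2 ≡ j3 [MOD p] then uu p else 1) := by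
        have a1 : 1 ≤ (if j1 ≡ j2 [MOD p] then uu p else 1) := by split_ifs <;> linarith
        have a2 : 1 ≤ (if j1 ≡ j3 [MOD p] then uu p else 1) := by split_ifs <;> linarith
        have a3 : 1 ≤ (if j2 ≡ j3 [MOD p] then uu p else 1) := by split_ifs <;> linarith
        exact one_le_mul_of_one_le_of_one_le (one_le_mul_of_one_le_of_one_le a1 a2) a3
      calc uu p ^ (3 - ν) ≤ uu p ^ 2 * 1 := by rw [mul_one]; exact k1
        _ ≤ _ := mul_le_mul_of_nonneg_left k2 (by positivity)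
    · rw [if_neg hpm, one_mul]
      have c12 : ¬ j1 ≡ j2 [MOD p] → 2 ≤ ν := fun h => by
        rw [hν]; exact pair_le (hmem j1 (by simp)) (hmem j2 (by simp)) (shift_ne hp hpm h1 h2 h)
      have c13 : ¬ j1 ≡ j3 [MOD p] → 2 ≤ ν := fun h => by
        rw [hν]; exact pair_le (hmem j1 (by simp)) (hmem j3 (by simp)) (shift_ne hp hpm h1 h3 h)
      have c23 : ¬ j2 ≡ j3 [MOD p] → 2 ≤ ν := fun h => by
        rw [hν]; exact pair_le (hmem j2 (by simp)) (hmem j3 (by simp)) (shift_ne hp hpm h2 h3 h)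
      have c123 : ¬ j1 ≡ j2 [MOD p] → ¬ j1 ≡ j3 [MOD p] → ¬ j2 ≡ j3 [MOD p] → 3 ≤ ν := fun a b c => by
        rw [hν]
        exact triple_le (hmem j1 (by simp)) (hmem j2 (by simp)) (hmem j3 (by simp)) (shift_ne hp hpm h1 h2 a)
          (shift_ne hp hpm h1 h3 b) (shift_ne hp hpm h2 h3 c)
      have up : ∀ n : ℕ, 3 - ν ≤ n → uu p ^ (3 - ν) ≤ uu p ^ n := fun n hn => pow_le_pow_right₀ hu hn
      by_cases a : j1 ≡ j2 [MOD p] <;> by_cases b : j1 ≡ j3 [MOD p] <;> by_cases c : j2 ≡ j3 [MOD p] <;>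
        simp only [a, b, c, if_true, if_false, mul_one, one_mul]
      · have := up 3 (by omega)
        calc _ ≤ _ := this
          _ = _ := by ring
      · exact absurd (a.symm.trans b) c
      · exact absurd (a.trans c) b
      · have := up 1 (by have := c13 b; omega)
        calc _ ≤ _ := this
          _ = _ := by ring
      · exact absurd (b.trans c.symm) a
      · have := up 1 (by have := c12 a; omega)
        calc _ ≤ _ := this
          _ = _ := by ring
      · have := up 1 (by have := c12 a; omega)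
        calc _ ≤ _ := this
          _ = _ := by ring
      · have := up 0 (by have := c123 a b c; omega)
        calc _ ≤ _ := this
          _ = _ := by ring

end Pool.Agent.K9h54.LP
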