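import Pool.Agent.K9h54.LP.F4
import Pool.Agent.K9h54.LP.F5
import Pool.Agent.K9h54.TF.Nu
import Pool.Agent.K9h54.TF.Loc

set_option autoImplicit false

/-!
# Least primes: the sums of the model over a column
-/

namespace Pool.Agent.K9h54.LP

open Finset
open Pool.Agent.H387R2.Uni (nuT)
open Pool.Agent.H373R2.T7 (pz Vz lamz mem_pz)

/-- the product of the primes up to `w` -/
def Ww (w : ℕ) : ℕ := ∏ p ∈ pz w, p

lemma Ww_pos (w : ℕ) : 1 ≤ Ww w := prod_pos fun p hp => (mem_pz.1 hp).2.pos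

lemma dvd_Ww {w p : ℕ} (hp : p ∈ pz w) : p ∣ Ww w := dvd_prod_of_mem _ hp

lemma not_dvd_Ww {w p : ℕ} (hp : p.Prime) (h : w < p) : ¬ p ∣ Ww w := by
  intro h1
  obtain ⟨q, hq, hd⟩ := (Prime.dvd_finset_prod_iff hp.prime _).1 h1
  have hq' := mem_pz.1 hq
  rw [(Nat.prime_dvd_prime_iff_eq hp hq'.2).1 hd] at h
  omega

/-- the primes in `(w, z]` -/
def pwz (w z : ℕ) : Finset ℕ := (pz z).filter fun p => w < p

lemma mem_pwz {w z p : ℕ} : p ∈ pwz w z ↔ (p ≤ z ∧ p.Prime) ∧ w < p := by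
  unfold pwz
  rw [mem_filter, mem_pz]

lemma Vz_split {w z : ℕ} (h : w ≤ z) : Vz z = Vz w * ∏ p ∈ pwz w z, (1 - 1 / (p : ℝ)) := by
  unfold Vz
  have h1 : pz z = pz w ∪ pwz w z := by
    ext p
    rw [mem_union, mem_pwz, mem_pz, mem_pz]
    constructor
    · rintro ⟨a, b⟩
      rcases Nat.lt_or_ge w p with h2 | h2
      · exact Or.inr ⟨⟨a, b⟩, h2⟩
      · exact Or.inl ⟨h2, b⟩
    · rintro (⟨a, b⟩ | ⟨a, b⟩)
      · exact ⟨a.trans h, b⟩
      · exact a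
  have h2 : Disjoint (pz w) (pwz w z) := by
    rw [disjoint_left]
    intro p hp hp'
    rw [mem_pz] at hp
    rw [mem_pwz] at hp'
    omega
  rw [h1, prod_union h2]

lemma fac_pos {p : ℕ} (hp : p.Prime) : 0 < 1 - 1 / (p : ℝ) := by
  have : (2 : ℝ) ≤ p := by exact_mod_cast hp.two_le
  rw [sub_pos, div_lt_one (by linarith)]
  linarith

lemma Vz_pos (z : ℕ) : 0 < Vz z := prod_pos fun p hp => fac_pos (mem_pz.1 hp).2

lemma Vz_le1 (z : ℕ) : Vz z ≤ 1 := by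
  unfold Vz
  apply prod_le_one
  · intro p hp
    exact (fac_pos (mem_pz.1 hp).2).le
  · intro p hp
    have : (0 : ℝ) ≤ 1 / p := by positivity
    linarith

lemma Vinv_split {w z : ℕ} (h : w ≤ z) (k : ℕ) (f : ℕ → ℝ) :
    (Vz z)⁻¹ ^ k * ∏ p ∈ pwz w z, f p = (Vz w)⁻¹ ^ k * ∏ p ∈ pwz w z, (f p * uu p ^ k) := by
  rw [Vz_split h, prod_mul_distrib, prod_pow]
  have : ∏ p ∈ pwz w z, uu p = (∏ p ∈ pwz w z, (1 - 1 / (p : ℝ)))⁻¹ := by
    rw [← prod_inv_distrib]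
    rfl
  rw [this, mul_inv, mul_pow]
  ring

theorem model (k U E : ℕ) (hk : 1 ≤ k) : ∃ N0 : ℕ, ∀ N : ℕ, N0 ≤ N → ∀ z : ℕ, 1 ≤ z → (z : ℝ) ≤ Real.log N ^ E →
    ∀ (w : ℕ) (Js : Finset ℕ), Js.card ≤ k → ∀ Jm s r T t : ℕ, (∀ j ∈ Js, j ≤ Jm) →
      (∀ j ∈ Js, ∀ p ∈ pz w, ¬ p ∣ s + j * r) →
      |∑ b ∈ Icc 1 N, ∏ j ∈ Js, lamz z (vv (Ww w) T s r j b t) -
        (Vz z)⁻¹ ^ Js.card * (N * ∏ p ∈ pwz w z, (1 - (nuT (sh Jm (Ww w * (T + t) + r) Js) p : ℝ) / p))| ≤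
        (Vz z)⁻¹ ^ Js.card * (N / Real.log N ^ U) := by
  classical
  obtain ⟨N0, h0⟩ := Pool.Agent.K9h54.TF.cnt k E U hk
  refine ⟨N0, fun N hN z hz hzE w Js hJs Jm s r T t hJm hadm => ?_⟩
  obtain ⟨m, hm⟩ : ∃ m, m = Ww w * (T + t) + r := ⟨_, rfl⟩
  obtain ⟨F, hF⟩ : ∃ F : Finset ℕ, F = (Icc 1 N).filter fun n : ℕ => ∀ p ∈ pz z, ¬ (w < p ∧ ∃ h ∈ sh Jm m Js, (p : ℤ) ∣ ((s + Jm * m : ℕ) : ℤ) + ((Ww w : ℕ) : ℤ) * ((n : ℕ) : ℤ) - ((h : ℕ) : ℤ)) := ⟨_, rfl⟩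
  have h1 := h0 N hN z hz hzE (sh Jm m Js) ((sh_card _ _ _).trans hJs) ((s + Jm * m : ℕ) : ℤ) ((Ww w : ℕ) : ℤ) (fun p => w < p)
    (fun p hp hw => by
      intro h2
      exact not_dvd_Ww hp hw (by exact_mod_cast h2)) (pwz w z) (fun p => by rw [mem_pwz, mem_pz]) F (fun n => by rw [hF, mem_filter])
  have hv : ∀ j ∈ Js, ∀ b : ℕ, ((s + Jm * m : ℕ) : ℤ) + ((Ww w : ℕ) : ℤ) * b - (((Jm - j) * m : ℕ) : ℤ) = ((vv (Ww w) T s r j b t : ℕ) : ℤ) := by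
    intro j hj b
    unfold vv
    rw [hm]
    push_cast [hJm j hj]
    ring
  have e1 : ∀ b ∈ Icc 1 N, ∏ j ∈ Js, lamz z (vv (Ww w) T s r j b t) = if b ∈ F then (Vz z)⁻¹ ^ Js.card else 0 := by
    intro b hb
    split_ifs with h
    · rw [hF, mem_filter] at h
      rw [← prod_const]
      apply prod_congr rfl
      intro j hj
      unfold lamz
      rw [if_pos]
      intro p hp hd
      rcases Nat.lt_or_ge w p with h2 | h2
      · apply h.2 p hp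
        refine ⟨h2, (Jm - j) * m, mem_image_of_mem _ hj, ?_⟩
        rw [hv j hj b]
        exact_mod_cast hd
      · have h3 : p ∈ pz w := mem_pz.2 ⟨h2, (mem_pz.1 hp).2⟩
        apply hadm j hj p h3
        have h4 : vv (Ww w) T s r j b t = Ww w * (b + j * t + j * T) + (s + j * r) := by
          unfold vv
          ring
        rw [h4] at hd
        exact (Nat.dvd_add_right (Dvd.dvd.mul_right (dvd_Ww h3) _)).1 hd
    · have h2 : ∃ p ∈ pz z, w < p ∧ ∃ h ∈ sh Jm m Js, (p : ℤ) ∣ ((s + Jm * m : ℕ) : ℤ) + ((Ww w : ℕ) : ℤ) * ((b : ℕ) : ℤ) - ((h : ℕ) : ℤ) := by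
        by_contra h3
        apply h
        rw [hF, mem_filter]
        refine ⟨hb, fun p hp h4 => h3 ⟨p, hp, h4⟩⟩
      obtain ⟨p, hp, -, h', hh', hd⟩ := h2
      obtain ⟨j, hj, rfl⟩ := mem_image.1 hh'
      rw [hv j hj b] at hd
      apply prod_eq_zero hj
      unfold lamz
      rw [if_neg]
      intro h5
      exact h5 p hp (by exact_mod_cast hd)
  rw [sum_congr rfl e1, ← sum_filter]
  have e2 : (Icc 1 N).filter (fun b => b ∈ F) = F := by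
    ext b
    rw [mem_filter]
    constructor
    · exact fun h => h.2
    · intro h
      refine ⟨?_, h⟩
      rw [hF] at h
      exact (mem_filter.1 h).1
  rw [e2, sum_const, nsmul_eq_mul, ← hm]
  have hV0 : 0 ≤ (Vz z)⁻¹ ^ Js.card := pow_nonneg (inv_nonneg.2 (Vz_pos z).le) _
  have e3 : (F.card : ℝ) * (Vz z)⁻¹ ^ Js.card -
      (Vz z)⁻¹ ^ Js.card * (N * ∏ p ∈ pwz w z, (1 - (nuT (sh Jm m Js) p : ℝ) / p)) =
      (Vz z)⁻¹ ^ Js.card * ((F.card : ℝ) - N * ∏ p ∈ pwz w z, (1 - (nuT (sh Jm m Js) p : ℝ) / p)) := by ring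
  rw [e3, abs_mul, abs_of_nonneg hV0]
  exact mul_le_mul_of_nonneg_left h1 hV0

/-- one form -/
theorem col1 (U E : ℕ) : ∃ N0 : ℕ, ∀ N : ℕ, N0 ≤ N → ∀ z : ℕ, 1 ≤ z → (z : ℝ) ≤ Real.log N ^ E →
    ∀ w : ℕ, w ≤ z → ∀ s r T t j : ℕ, (∀ p ∈ pz w, ¬ p ∣ s + j * r) →
      |∑ b ∈ Icc 1 N, lamz z (vv (Ww w) T s r j b t) - (Vz w)⁻¹ * N| ≤ (Vz z)⁻¹ * (N / Real.log N ^ U) := by
  obtain ⟨N0, h0⟩ := model 1 U E le_rfl
  refine ⟨N0, fun N hN z hz hzE w hwz s r T t j hadm => ?_⟩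
  have h1 := h0 N hN z hz hzE w {j} (by simp) j s r T t (by simp) (by simpa using hadm)
  simp only [prod_singleton, card_singleton, pow_one] at h1
  have e1 : (Vz z)⁻¹ * (N * ∏ p ∈ pwz w z, (1 - (nuT (sh j (Ww w * (T + t) + r) {j}) p : ℝ) / p)) = (Vz w)⁻¹ * N := by
    have e2 := Vinv_split hwz 1 (fun p => 1 - (nuT (sh j (Ww w * (T + t) + r) {j}) p : ℝ) / p)
    rw [pow_one] at e2
    have e3 : ∏ p ∈ pwz w z, ((1 - (nuT (sh j (Ww w * (T + t) + r) {j}) p : ℝ) / p) * uu p ^ 1) = 1 := by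
      apply prod_eq_one
      intro p hp
      have hp' := (mem_pwz.1 hp).1.2
      have h3 : nuT (sh j (Ww w * (T + t) + r) {j}) p = 1 := by
        unfold sh nuT
        simp
      rw [h3, Nat.cast_one, pow_one]
      unfold uu
      exact mul_inv_cancel₀ (fac_pos hp').ne'
    rw [e3, mul_one, pow_one] at e2
    linear_combination (N : ℝ) * e2
  rw [e1] at h1
  exact h1

/-- two forms -/
theorem col2 (U E : ℕ) : ∃ N0 : ℕ, ∀ N : ℕ, N0 ≤ N → ∀ z : ℕ, 1 ≤ z → (z : ℝ) ≤ Real.log N ^ E →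
    ∀ w : ℕ, 2 ≤ w → w ≤ z → ∀ s r T t j1 j2 : ℕ, j1 ≠ j2 → (∀ p ∈ pz w, ¬ p ∣ s + j1 * r) → (∀ p ∈ pz w, ¬ p ∣ s + j2 * r) →
      (Vz w)⁻¹ ^ 2 * N * (1 - 2 / w) - (Vz z)⁻¹ ^ 2 * (N / Real.log N ^ U) ≤
        ∑ b ∈ Icc 1 N, lamz z (vv (Ww w) T s r j1 b t) * lamz z (vv (Ww w) T s r j2 b t) := by
  obtain ⟨N0, h0⟩ := model 2 U E (by norm_num)
  refine ⟨N0, fun N hN z hz hzE w hw hwz s r T t j1 j2 hne ha1 ha2 => ?_⟩
  have h1 := h0 N hN z hz hzE w {j1, j2} card_le_two (max j1 j2) s r T t (by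
    intro j hj
    rw [mem_insert, mem_singleton] at hj
    rcases hj with rfl | rfl
    · exact le_max_left _ _
    · exact le_max_right _ _) (by
    intro j hj
    rw [mem_insert, mem_singleton] at hj
    rcases hj with rfl | rfl
    · exact ha1
    · exact ha2)
  simp only [prod_pair hne, card_pair hne] at h1
  obtain ⟨TT, hTT⟩ : ∃ TT, TT = sh (max j1 j2) (Ww w * (T + t) + r) {j1, j2} := ⟨_, rfl⟩
  rw [← hTT] at h1
  have e2 := Vinv_split hwz 2 (fun p => 1 - (nuT TT p : ℝ) / p)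
  have e3 : 1 - 2 / (w : ℝ) ≤ ∏ p ∈ pwz w z, ((1 - (nuT TT p : ℝ) / p) * uu p ^ 2) := by
    have k1 : ∏ p ∈ pwz w z, (1 - 2 / ((p : ℝ) * (p - 1))) ≤ ∏ p ∈ pwz w z, ((1 - (nuT TT p : ℝ) / p) * uu p ^ 2) := by
      apply prod_le_prod
      · intro p hp
        have hp' := mem_pwz.1 hp
        have : (3 : ℝ) ≤ p := by exact_mod_cast (show 3 ≤ p by omega)
        rw [sub_nonneg, div_le_one (by nlinarith)]
        nlinarith
      · intro p hp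
        have hp' := mem_pwz.1 hp
        have h3 : (3 : ℝ) ≤ p := by exact_mod_cast (show 3 ≤ p by omega)
        have h4 : (nuT TT p : ℝ) ≤ 2 := by
          have : nuT TT p ≤ 2 := by
            rw [hTT]
            exact (nuT_le' _ _).trans ((sh_card _ _ _).trans card_le_two)
          exact_mod_cast this
        have h5 : (1 - 2 / (p : ℝ)) * uu p ^ 2 ≤ (1 - (nuT TT p : ℝ) / p) * uu p ^ 2 := by
          apply mul_le_mul_of_nonneg_right _ (by positivity)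
          have : (nuT TT p : ℝ) / p ≤ 2 / p := by gcongr
          linarith
        refine le_trans ?_ h5
        rw [uu_eq (by omega)]
        have h6 : (p : ℝ) - 1 ≠ 0 := by linarith
        have h7 : (p : ℝ) ≠ 0 := by linarith
        have e : (1 - 2 / (p : ℝ)) * (p / (p - 1)) ^ 2 = 1 - 1 / (p - 1) ^ 2 := by
          field_simp
          ring
        rw [e]
        have : 1 / ((p : ℝ) - 1) ^ 2 ≤ 2 / (p * (p - 1)) := by
          rw [div_le_div_iff₀ (by nlinarith) (by nlinarith)]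
          nlinarith
        linarith
    refine le_trans ?_ k1
    have k2 := (Pool.Agent.K9h54.TF.one_sub_prod (pwz w z) (fun p => 2 / ((p : ℝ) * (p - 1))) (fun p hp => by
      have hp' := mem_pwz.1 hp
      have h3 : (3 : ℝ) ≤ p := by exact_mod_cast (show 3 ≤ p by omega)
      constructor
      · apply div_nonneg (by norm_num)
        nlinarith
      · rw [div_le_one (by nlinarith)]
        nlinarith)).1
    have k3 := sum_sq_le (P := pwz w z) (w := w) (by omega) (fun p hp => (mem_pwz.1 hp).2)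
    have k4 : ∑ p ∈ pwz w z, 2 / ((p : ℝ) * (p - 1)) = 2 * ∑ p ∈ pwz w z, 1 / ((p : ℝ) * (p - 1)) := by
      rw [mul_sum]
      apply sum_congr rfl
      intro p _
      ring
    have k5 : 2 / (w : ℝ) = 2 * (1 / w) := by ring
    linarith
  have e4 : (Vz w)⁻¹ ^ 2 * N * (1 - 2 / w) ≤ (Vz z)⁻¹ ^ 2 * (N * ∏ p ∈ pwz w z, (1 - (nuT TT p : ℝ) / p)) := by
    have : (Vz z)⁻¹ ^ 2 * (N * ∏ p ∈ pwz w z, (1 - (nuT TT p : ℝ) / p)) =
        (Vz w)⁻¹ ^ 2 * N * ∏ p ∈ pwz w z, ((1 - (nuT TT p : ℝ) / p) * uu p ^ 2) := by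
      linear_combination (N : ℝ) * e2
    rw [this]
    exact mul_le_mul_of_nonneg_left e3 (by positivity)
  have := (abs_le.1 h1).1
  linarith

/-- the product over the primes which divide a difference -/
noncomputable def HH (w z j j' : ℕ) : ℝ := ∏ p ∈ pwz w z, (if j ≡ j' [MOD p] then uu p else 1)

/-- the product over the prime divisors -/
noncomputable def hm (w z m : ℕ) : ℝ := ∏ p ∈ pwz w z, (if p ∣ m then uu p ^ 2 else 1)

/-- three forms -/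
theorem col3 (U E : ℕ) : ∃ N0 : ℕ, ∀ N : ℕ, N0 ≤ N → ∀ z : ℕ, 1 ≤ z → (z : ℝ) ≤ Real.log N ^ E →
    ∀ w : ℕ, 2 ≤ w → w ≤ z → ∀ s r T t j1 j2 j3 : ℕ, j1 ≠ j2 → j1 ≠ j3 → j2 ≠ j3 →
      (∀ p ∈ pz w, ¬ p ∣ s + j1 * r) → (∀ p ∈ pz w, ¬ p ∣ s + j2 * r) → (∀ p ∈ pz w, ¬ p ∣ s + j3 * r) →
        ∑ b ∈ Icc 1 N, lamz z (vv (Ww w) T s r j1 b t) * lamz z (vv (Ww w) T s r j2 b t) * lamz z (vv (Ww w) T s r j3 b t) ≤
      (Vz w)⁻¹ ^ 3 * N * (hm w z (Ww w * (T + t) + r) * (HH w z j1 j2 * HH w z j1 j3 * HH w z j2 j3)) +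
        (Vz z)⁻¹ ^ 3 * (N / Real.log N ^ U) := by
  obtain ⟨N0, h0⟩ := model 3 U E (by norm_num)
  refine ⟨N0, fun N hN z hz hzE w hw hwz s r T t j1 j2 j3 h12 h13 h23 ha1 ha2 ha3 => ?_⟩
  obtain ⟨Jm, hJm⟩ : ∃ Jm, Jm = max j1 (max j2 j3) := ⟨_, rfl⟩
  have hm1 : j1 ≤ Jm := by omega
  have hm2 : j2 ≤ Jm := by omega
  have hm3 : j3 ≤ Jm := by omega
  have h1 := h0 N hN z hz hzE w {j1, j2, j3} card_le_three Jm s r T t (by
    intro j hj
    rw [mem_insert, mem_insert, mem_singleton] at hj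
    rcases hj with rfl | rfl | rfl <;> assumption) (by
    intro j hj
    rw [mem_insert, mem_insert, mem_singleton] at hj
    rcases hj with rfl | rfl | rfl <;> assumption)
  have hcard : ({j1, j2, j3} : Finset ℕ).card = 3 := card_eq_three.2 ⟨_, _, _, h12, h13, h23, rfl⟩
  have hprod : ∀ b : ℕ, ∏ j ∈ ({j1, j2, j3} : Finset ℕ), lamz z (vv (Ww w) T s r j b t) =
      lamz z (vv (Ww w) T s r j1 b t) * lamz z (vv (Ww w) T s r j2 b t) * lamz z (vv (Ww w) T s r j3 b t) := by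
    intro b
    rw [prod_insert (by simp [h12, h13]), prod_pair h23]
    ring
  simp only [hprod, hcard] at h1
  have e2 := Vinv_split hwz 3 (fun p => 1 - (nuT (sh Jm (Ww w * (T + t) + r) {j1, j2, j3}) p : ℝ) / p)
  have e3 : ∏ p ∈ pwz w z, ((1 - (nuT (sh Jm (Ww w * (T + t) + r) {j1, j2, j3}) p : ℝ) / p) * uu p ^ 3) ≤
      hm w z (Ww w * (T + t) + r) * (HH w z j1 j2 * HH w z j1 j3 * HH w z j2 j3) := by
    unfold hm HH
    rw [← prod_mul_distrib, ← prod_mul_distrib, ← prod_mul_distrib]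
    apply prod_le_prod
    · intro p hp
      have hp' := mem_pwz.1 hp
      exact (loc3 hp'.1.2 hm1 hm2 hm3 (by omega)).1
    · intro p hp
      have hp' := mem_pwz.1 hp
      exact (loc3 hp'.1.2 hm1 hm2 hm3 (by omega)).2
  have e4 : (Vz z)⁻¹ ^ 3 * (N * ∏ p ∈ pwz w z, (1 - (nuT (sh Jm (Ww w * (T + t) + r) {j1, j2, j3}) p : ℝ) / p)) ≤
      (Vz w)⁻¹ ^ 3 * N * (hm w z (Ww w * (T + t) + r) * (HH w z j1 j2 * HH w z j1 j3 * HH w z j2 j3)) := by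
    have : (Vz z)⁻¹ ^ 3 * (N * ∏ p ∈ pwz w z, (1 - (nuT (sh Jm (Ww w * (T + t) + r) {j1, j2, j3}) p : ℝ) / p)) =
        (Vz w)⁻¹ ^ 3 * N * ∏ p ∈ pwz w z, ((1 - (nuT (sh Jm (Ww w * (T + t) + r) {j1, j2, j3}) p : ℝ) / p) * uu p ^ 3) := by
      linear_combination (N : ℝ) * e2
    rw [this]
    exact mul_le_mul_of_nonneg_left e3 (mul_nonneg (pow_nonneg (inv_nonneg.2 (Vz_pos w).le) _) (Nat.cast_nonneg _))
  have := (abs_le.1 h1).2
  linarith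

end Pool.Agent.K9h54.LP
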