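import Pool.Agent.K9h54.LP.F6
import Pool.Agent.H373R2.T7.Cnt

set_option autoImplicit false

/-!
# Least primes: averages over the moduli and over the differences
-/

namespace Pool.Agent.K9h54.LP

open Finset
open Pool.Agent.H387R2.Uni (nuT)
open Pool.Agent.H373R2.T7 (pz Vz lamz mem_pz count_class)

theorem mod_prod' {A : Finset ℕ} (hA : ∀ p ∈ A, p.Prime) {c c' : ℕ} (h : ∀ p ∈ A, c ≡ c' [MOD p]) :
    c ≡ c' [MOD ∏ p ∈ A, p] := by
  rw [Nat.modEq_iff_dvd]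
  push_cast
  apply Finset.prod_dvd_of_coprime
  · intro p hp p' hp' hne
    exact Nat.isCoprime_iff_coprime.2 ((Nat.coprime_primes (hA p hp) (hA p' hp')).2 hne)
  · intro p hp
    exact (Nat.modEq_iff_dvd).1 (h p hp)

theorem one_class (X q : ℕ) (hq : 1 ≤ q) (S : Finset ℕ) (hS : ∀ p ∈ S, p.Prime ∧ ¬ p ∣ q) (A : Finset ℕ)
    (hA : A ⊆ Icc 1 X) (h : ∀ a ∈ A, ∀ a' ∈ A, a ≡ a' [MOD q] ∧ ∀ p ∈ S, a ≡ a' [MOD p]) :
    (A.card : ℝ) ≤ X / q * ∏ p ∈ S, (1 / (p : ℝ)) + 1 := by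
  have hq0 : (0 : ℝ) < q := by exact_mod_cast hq
  have h0 : 0 ≤ (X : ℝ) / q * ∏ p ∈ S, (1 / (p : ℝ)) := mul_nonneg (by positivity) (prod_nonneg fun p _ => by positivity)
  rcases A.eq_empty_or_nonempty with hE | ⟨a0, ha0⟩
  · rw [hE, card_empty, Nat.cast_zero]
    linarith
  · obtain ⟨d, hd⟩ : ∃ d, d = ∏ p ∈ S, p := ⟨_, rfl⟩
    have hd1 : 1 ≤ d := by
      rw [hd]
      exact prod_pos fun p hp => (hS p hp).1.pos
    have hcop : Nat.Coprime q d := by
      rw [hd]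
      apply Nat.Coprime.prod_right
      intro p hp
      exact ((Nat.Prime.coprime_iff_not_dvd (hS p hp).1).2 (hS p hp).2).symm
    have h1 : A ⊆ (Icc 1 X).filter (fun n => n ≡ a0 [MOD q * d]) := by
      intro a ha
      rw [mem_filter]
      refine ⟨hA ha, ?_⟩
      have h2 := h a ha a0 ha0
      apply (Nat.modEq_and_modEq_iff_modEq_mul hcop).1
      refine ⟨h2.1, ?_⟩
      rw [hd]
      exact mod_prod' (fun p hp => (hS p hp).1) h2.2
    have h2 := (abs_le.1 (count_class X (q * d) a0 (Nat.mul_pos hq hd1))).2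
    have h3 : (A.card : ℝ) ≤ (((Icc 1 X).filter (fun n => n ≡ a0 [MOD q * d])).card : ℝ) := by exact_mod_cast card_le_card h1
    have h4 : (X : ℝ) / ((q * d : ℕ) : ℝ) = X / q * ∏ p ∈ S, (1 / (p : ℝ)) := by
      rw [hd]
      push_cast
      simp only [one_div, prod_inv_distrib]
      field_simp
    linarith

/-- the average over the moduli -/
theorem sum_hm (w z T r R : ℕ) (hw : 16 ≤ w) :
    ∑ t ∈ Icc 1 R, hm w z (Ww w * (T + t) + r) ≤ R + R * (24 / w) + ∏ p ∈ pwz w z, uu p ^ 8 := by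
  classical
  have h1 := div_avg (Icc 1 R) (fun t p => p ∣ Ww w * (T + t) + r) (pwz w z) w hw (fun p hp => (mem_pwz.1 hp).2) R 1
    (Nat.cast_nonneg _) zero_le_one (by
      intro S hS _
      have h2 := one_class R 1 le_rfl S (fun p hp => ⟨(mem_pwz.1 (hS hp)).1.2, (mem_pwz.1 (hS hp)).1.2.one_lt.ne' ∘ Nat.dvd_one.1⟩)
        ((Icc 1 R).filter fun t => ∀ p ∈ S, p ∣ Ww w * (T + t) + r) (filter_subset _ _) (by
          intro a ha a' ha'
          rw [mem_filter] at ha ha'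
          refine ⟨Nat.modEq_one, fun p hp => ?_⟩
          have hp' := mem_pwz.1 (hS hp)
          have k1 : Ww w * (T + a) + r ≡ Ww w * (T + a') + r [MOD p] :=
            ((Nat.modEq_zero_iff_dvd.2 (ha.2 p hp)).trans (Nat.modEq_zero_iff_dvd.2 (ha'.2 p hp)).symm)
          have k2 := Nat.ModEq.add_right_cancel' r k1
          have k3 := Nat.ModEq.cancel_left_of_coprime (by
            rw [Nat.gcd_comm]
            exact ((Nat.Prime.coprime_iff_not_dvd hp'.1.2).2 (not_dvd_Ww hp'.1.2 hp'.2)).symm) k2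
          exact Nat.ModEq.add_left_cancel' T k3)
      rw [Nat.cast_one, div_one] at h2
      exact h2)
  rw [Nat.card_Icc, Nat.add_sub_cancel, one_mul] at h1
  refine le_trans (sum_le_sum fun t _ => ?_) h1
  unfold hm
  apply prod_le_prod
  · intro p hp
    have := one_le_uu (mem_pwz.1 hp).1.2.two_le
    split_ifs
    · positivity
    · exact zero_le_one
  · intro p hp
    have := one_le_uu (mem_pwz.1 hp).1.2.two_le
    split_ifs
    · exact pow_le_pow_right₀ this (by norm_num)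
    · exact le_rfl

/-- the admissible indices -/
def JJ (w J s r : ℕ) : Finset ℕ := (Icc 1 J).filter fun j => ∀ p ∈ pz w, ¬ p ∣ s + j * r

/-- the admissible classes -/
def DD (w s r : ℕ) : Finset ℕ := (range (Ww w)).filter fun j => ∀ p ∈ pz w, ¬ p ∣ s + j * r

lemma adm_mod {w s r j : ℕ} : (∀ p ∈ pz w, ¬ p ∣ s + (j % Ww w) * r) ↔ ∀ p ∈ pz w, ¬ p ∣ s + j * r := by
  apply forall₂_congr
  intro p hp
  rw [not_iff_not]
  have h1 : (j % Ww w) ≡ j [MOD p] := (Nat.mod_modEq j (Ww w)).of_dvd (dvd_Ww hp)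
  have h2 : s + (j % Ww w) * r ≡ s + j * r [MOD p] := Nat.ModEq.add_left s (h1.mul_right r)
  exact h2.dvd_iff dvd_rfl

lemma JJ_fib (w J s r : ℕ) (Q : ℕ → Prop) [DecidablePred Q] :
    ((JJ w J s r).filter Q).card = ∑ i ∈ DD w s r, ((Icc 1 J).filter fun j => j ≡ i [MOD Ww w] ∧ Q j).card := by
  classical
  rw [card_eq_sum_card_fiberwise (f := fun j => j % Ww w) (t := DD w s r)]
  · apply sum_congr rfl
    intro i hi
    congr 1
    ext j
    rw [DD, mem_filter, mem_range] at hi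
    simp only [JJ, mem_filter]
    constructor
    · rintro ⟨⟨⟨h1, h2⟩, h3⟩, h4⟩
      refine ⟨h1, ?_, h3⟩
      unfold Nat.ModEq
      rw [h4, Nat.mod_eq_of_lt hi.1]
    · rintro ⟨h1, h2, h3⟩
      unfold Nat.ModEq at h2
      rw [Nat.mod_eq_of_lt hi.1] at h2
      refine ⟨⟨⟨h1, ?_⟩, h3⟩, h2⟩
      rw [← h2] at hi
      exact adm_mod.1 hi.2
  · intro j hj
    simp only [JJ, coe_filter, Set.mem_setOf_eq] at hj
    simp only [DD, coe_filter, Set.mem_setOf_eq, mem_range]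
    refine ⟨Nat.mod_lt _ (Ww_pos w), adm_mod.2 ?_⟩
    have := hj.1
    rw [mem_filter] at this
    exact this.2

lemma JJ_card (w J s r : ℕ) : |((JJ w J s r).card : ℝ) - (DD w s r).card * (J / Ww w)| ≤ (DD w s r).card := by
  classical
  have h1 := JJ_fib w J s r (fun _ => True)
  simp only [and_true, filter_true] at h1
  rw [h1]
  push_cast
  have h2 : (∑ i ∈ DD w s r, (((Icc 1 J).filter fun j => j ≡ i [MOD Ww w]).card : ℝ)) - (DD w s r).card * (J / Ww w) =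
      ∑ i ∈ DD w s r, ((((Icc 1 J).filter fun j => j ≡ i [MOD Ww w]).card : ℝ) - J / Ww w) := by
    rw [sum_sub_distrib, sum_const, nsmul_eq_mul]
  rw [h2]
  refine (abs_sum_le_sum_abs _ _).trans ?_
  calc ∑ i ∈ DD w s r, |(((Icc 1 J).filter fun j => j ≡ i [MOD Ww w]).card : ℝ) - J / Ww w| ≤ ∑ i ∈ DD w s r, (1 : ℝ) :=
        sum_le_sum fun i _ => count_class J (Ww w) i (Ww_pos w)
    _ = _ := by rw [sum_const, nsmul_eq_mul, mul_one]

/-- the average over the differences -/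
theorem sum_HH (w z J s r j : ℕ) (hw : 16 ≤ w) :
    ∑ j' ∈ (JJ w J s r).erase j, HH w z j j' ^ 3 ≤
      (JJ w J s r).card + (DD w s r).card * (J / Ww w) * (24 / w) + (DD w s r).card * ∏ p ∈ pwz w z, uu p ^ 8 := by
  classical
  have h1 := div_avg ((JJ w J s r).erase j) (fun j' p => j ≡ j' [MOD p]) (pwz w z) w hw (fun p hp => (mem_pwz.1 hp).2)
    ((DD w s r).card * (J / Ww w)) (DD w s r).card (by positivity) (Nat.cast_nonneg _) (by
      intro S hS _
      have e1 : (((JJ w J s r).erase j).filter fun i => ∀ p ∈ S, j ≡ i [MOD p]).card ≤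
          ((JJ w J s r).filter fun i => ∀ p ∈ S, j ≡ i [MOD p]).card :=
        card_le_card (filter_subset_filter _ (erase_subset _ _))
      rw [JJ_fib] at e1
      have e2 : ∀ i ∈ DD w s r, (((Icc 1 J).filter fun j' => j' ≡ i [MOD Ww w] ∧ ∀ p ∈ S, j ≡ j' [MOD p]).card : ℝ) ≤
          J / Ww w * ∏ p ∈ S, (1 / (p : ℝ)) + 1 := by
        intro i _
        apply one_class J (Ww w) (Ww_pos w) S (fun p hp => by
          have hp' := mem_pwz.1 (hS hp)
          exact ⟨hp'.1.2, not_dvd_Ww hp'.1.2 hp'.2⟩) _ (filter_subset _ _)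
        intro a ha a' ha'
        rw [mem_filter] at ha ha'
        exact ⟨ha.2.1.trans ha'.2.1.symm, fun p hp => (ha.2.2 p hp).symm.trans (ha'.2.2 p hp)⟩
      calc ((((JJ w J s r).erase j).filter fun i => ∀ p ∈ S, j ≡ i [MOD p]).card : ℝ) ≤
            ∑ i ∈ DD w s r, (((Icc 1 J).filter fun j' => j' ≡ i [MOD Ww w] ∧ ∀ p ∈ S, j ≡ j' [MOD p]).card : ℝ) := by
            exact_mod_cast e1
        _ ≤ ∑ i ∈ DD w s r, (J / Ww w * ∏ p ∈ S, (1 / (p : ℝ)) + 1) := sum_le_sum e2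
        _ = (DD w s r).card * (J / Ww w) * ∏ p ∈ S, (1 / (p : ℝ)) + (DD w s r).card := by
            rw [sum_const, nsmul_eq_mul]
            ring)
  have h2 : ∀ j', HH w z j j' ^ 3 = ∏ p ∈ pwz w z, (if j ≡ j' [MOD p] then uu p ^ 3 else 1) := by
    intro j'
    unfold HH
    rw [← prod_pow]
    apply prod_congr rfl
    intro p _
    split_ifs
    · rfl
    · norm_num
  simp only [h2]
  refine h1.trans ?_
  have h3 : (((JJ w J s r).erase j).card : ℝ) ≤ (JJ w J s r).card := by exact_mod_cast card_le_card (erase_subset _ _)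
  linarith

lemma HH_nonneg (w z j j' : ℕ) : 0 ≤ HH w z j j' := by
  unfold HH
  apply prod_nonneg
  intro p hp
  have := one_le_uu (mem_pwz.1 hp).1.2.two_le
  split_ifs <;> linarith

lemma amgm {x y z : ℝ} (hx : 0 ≤ x) (hy : 0 ≤ y) (hz : 0 ≤ z) : x * y * z ≤ (x ^ 3 + y ^ 3 + z ^ 3) / 3 := by
  nlinarith [mul_nonneg (add_nonneg (add_nonneg hx hy) hz) (sq_nonneg (x - y)),
    mul_nonneg (add_nonneg (add_nonneg hx hy) hz) (sq_nonneg (x - z)), mul_nonneg (add_nonneg (add_nonneg hx hy) hz) (sq_nonneg (y - z))]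

/-- the sum over the triples -/
theorem triple_sum (w z : ℕ) (A : Finset ℕ) (Q : ℝ) (hQ : ∀ j ∈ A, ∑ j' ∈ A.erase j, HH w z j j' ^ 3 ≤ Q) :
    ∑ j1 ∈ A, ∑ j2 ∈ A.erase j1, ∑ j3 ∈ (A.erase j1).erase j2, HH w z j1 j2 * HH w z j1 j3 * HH w z j2 j3 ≤
      (A.card : ℝ) ^ 2 * Q := by
  have h0 : ∀ j j', 0 ≤ HH w z j j' ^ 3 := fun j j' => pow_nonneg (HH_nonneg w z j j') 3
  have h1 : ∀ j1 ∈ A, ∑ j2 ∈ A.erase j1, ∑ j3 ∈ (A.erase j1).erase j2, HH w z j1 j2 * HH w z j1 j3 * HH w z j2 j3 ≤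
      (A.card : ℝ) * Q := by
    intro j1 hj1
    have hQ1 := hQ j1 hj1
    have hQ0 : 0 ≤ Q := (sum_nonneg fun j' _ => h0 j1 j').trans hQ1
    have hc : ∀ j2 : ℕ, (((A.erase j1).erase j2).card : ℝ) ≤ A.card := fun j2 => by
      exact_mod_cast card_le_card ((erase_subset _ _).trans (erase_subset _ _))
    have hc1 : ((A.erase j1).card : ℝ) ≤ A.card := by exact_mod_cast card_le_card (erase_subset _ _)
    have k1 : ∑ j2 ∈ A.erase j1, ∑ j3 ∈ (A.erase j1).erase j2, HH w z j1 j2 ^ 3 ≤ A.card * Q := by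
      calc ∑ j2 ∈ A.erase j1, ∑ j3 ∈ (A.erase j1).erase j2, HH w z j1 j2 ^ 3 =
            ∑ j2 ∈ A.erase j1, (((A.erase j1).erase j2).card : ℝ) * HH w z j1 j2 ^ 3 := by
            apply sum_congr rfl
            intro j2 _
            rw [sum_const, nsmul_eq_mul]
        _ ≤ ∑ j2 ∈ A.erase j1, (A.card : ℝ) * HH w z j1 j2 ^ 3 :=
            sum_le_sum fun j2 _ => mul_le_mul_of_nonneg_right (hc j2) (h0 j1 j2)
        _ = A.card * ∑ j2 ∈ A.erase j1, HH w z j1 j2 ^ 3 := by rw [mul_sum]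
        _ ≤ _ := mul_le_mul_of_nonneg_left hQ1 (Nat.cast_nonneg _)
    have k2 : ∑ j2 ∈ A.erase j1, ∑ j3 ∈ (A.erase j1).erase j2, HH w z j1 j3 ^ 3 ≤ A.card * Q := by
      calc ∑ j2 ∈ A.erase j1, ∑ j3 ∈ (A.erase j1).erase j2, HH w z j1 j3 ^ 3 ≤ ∑ j2 ∈ A.erase j1, Q := by
            apply sum_le_sum
            intro j2 _
            exact (sum_le_sum_of_subset_of_nonneg (erase_subset _ _) fun j3 _ _ => h0 j1 j3).trans hQ1
        _ = (A.erase j1).card * Q := by rw [sum_const, nsmul_eq_mul]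
        _ ≤ _ := mul_le_mul_of_nonneg_right hc1 hQ0
    have k3 : ∑ j2 ∈ A.erase j1, ∑ j3 ∈ (A.erase j1).erase j2, HH w z j2 j3 ^ 3 ≤ A.card * Q := by
      calc ∑ j2 ∈ A.erase j1, ∑ j3 ∈ (A.erase j1).erase j2, HH w z j2 j3 ^ 3 ≤ ∑ j2 ∈ A.erase j1, Q := by
            apply sum_le_sum
            intro j2 hj2
            refine (sum_le_sum_of_subset_of_nonneg ?_ fun j3 _ _ => h0 j2 j3).trans (hQ j2 (mem_of_mem_erase hj2))
            intro x hx
            rw [mem_erase, mem_erase] at hx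
            rw [mem_erase]
            exact ⟨hx.1, hx.2.2⟩
        _ = (A.erase j1).card * Q := by rw [sum_const, nsmul_eq_mul]
        _ ≤ _ := mul_le_mul_of_nonneg_right hc1 hQ0
    have k4 : ∑ j2 ∈ A.erase j1, ∑ j3 ∈ (A.erase j1).erase j2, HH w z j1 j2 * HH w z j1 j3 * HH w z j2 j3 ≤
        ∑ j2 ∈ A.erase j1, ∑ j3 ∈ (A.erase j1).erase j2, (HH w z j1 j2 ^ 3 + HH w z j1 j3 ^ 3 + HH w z j2 j3 ^ 3) / 3 :=
      sum_le_sum fun j2 _ => sum_le_sum fun j3 _ => amgm (HH_nonneg _ _ _ _) (HH_nonneg _ _ _ _) (HH_nonneg _ _ _ _)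
    refine k4.trans ?_
    simp only [add_div, sum_add_distrib, ← sum_div]
    linarith
  calc ∑ j1 ∈ A, ∑ j2 ∈ A.erase j1, ∑ j3 ∈ (A.erase j1).erase j2, HH w z j1 j2 * HH w z j1 j3 * HH w z j2 j3 ≤
        ∑ j1 ∈ A, (A.card : ℝ) * Q := sum_le_sum h1
    _ = _ := by rw [sum_const, nsmul_eq_mul]; ring

end Pool.Agent.K9h54.LP
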