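import Pool.Agent.K9h54.LP.F7
import Pool.Agent.K9h54.LC.Var

set_option autoImplicit false

/-!
# Least primes: the sums over the indices
-/

namespace Pool.Agent.K9h54.LP

open Finset
open Pool.Agent.H387R2.Uni (nuT)
open Pool.Agent.H373R2.T7 (pz Vz lamz mem_pz count_class ev_L')

/-- the product over the primes up to `w` which divide `r` -/
noncomputable def kap (w r : ℕ) : ℝ := ∏ p ∈ pz w, (if p ∣ r then 1 - 1 / (p : ℝ) else 1)

lemma nu_one {p : ℕ} (hp : p.Prime) (s r : ℕ) (hr : ¬ p ∣ r) : ((range p).filter fun j => p ∣ s + j * r).card = 1 := by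
  classical
  have h1 := Pool.Agent.K9h54.TF.nu_prog {0} hp (s : ℤ) (r : ℤ) (by
    intro h
    exact hr (by exact_mod_cast h))
  unfold Pool.Agent.H373R2.T7.nuB nuT at h1
  simp only [mem_singleton, exists_eq_left, Nat.cast_zero, sub_zero, image_singleton, card_singleton] at h1
  rw [← h1]
  congr 1
  ext j
  simp only [mem_filter]
  apply and_congr_right
  intro _
  rw [mul_comm j r]
  constructor
  · intro h
    exact_mod_cast h
  · intro h
    exact_mod_cast h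

theorem DD_eq (w s r : ℕ) (h : ∀ p ∈ pz w, p ∣ r → ¬ p ∣ s) :
    (Vz w)⁻¹ * ((DD w s r).card / Ww w) = (kap w r)⁻¹ := by
  classical
  have h1 := Pool.Agent.K9h54.LC.crt_prod (pz w) (fun p hp => (mem_pz.1 hp).2) (fun p a => if p ∣ s + a * r then (0 : ℝ) else 1)
    (fun p hp a => by
      have k1 : s + (a % p) * r ≡ s + a * r [MOD p] := Nat.ModEq.add_left s ((Nat.mod_modEq a p).mul_right r)
      have k2 := k1.dvd_iff (dvd_refl p)
      simp only [k2])
  have h2 : ((DD w s r).card : ℝ) = ∑ a ∈ range (∏ p ∈ pz w, p), ∏ p ∈ pz w, (if p ∣ s + a * r then (0 : ℝ) else 1) := by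
    unfold DD Ww
    rw [card_filter]
    push_cast
    apply sum_congr rfl
    intro a _
    split_ifs with h3
    · rw [Finset.prod_eq_one]
      intro p hp
      rw [if_neg (h3 p hp)]
    · push Not at h3
      obtain ⟨p, hp, hd⟩ := h3
      symm
      apply prod_eq_zero hp
      rw [if_pos hd]
  have h3 : ∀ p ∈ pz w, ∑ j ∈ range p, (if p ∣ s + j * r then (0 : ℝ) else 1) = if p ∣ r then (p : ℝ) else p - 1 := by
    intro p hp
    have hpp := (mem_pz.1 hp).2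
    split_ifs with h4
    · have : ∀ j ∈ range p, (if p ∣ s + j * r then (0 : ℝ) else 1) = 1 := by
        intro j _
        rw [if_neg]
        intro h5
        exact h p hp h4 ((Nat.dvd_add_left (Dvd.dvd.mul_left h4 j)).1 h5)
      rw [sum_congr rfl this, sum_const, card_range, nsmul_eq_mul, mul_one]
    · have h5 := nu_one hpp s r h4
      have h6 : ∀ j ∈ range p, (if p ∣ s + j * r then (0 : ℝ) else 1) = 1 - if p ∣ s + j * r then (1 : ℝ) else 0 := by
        intro j _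
        split_ifs <;> ring
      rw [sum_congr rfl h6, sum_sub_distrib, sum_const, card_range, nsmul_eq_mul, mul_one, ← sum_filter, sum_const, h5]
      simp
  rw [h2, h1, prod_congr rfl h3]
  unfold Vz Ww kap
  push_cast
  rw [← prod_inv_distrib, ← prod_div_distrib, ← prod_mul_distrib, ← prod_inv_distrib]
  apply prod_congr rfl
  intro p hp
  have hpp := (mem_pz.1 hp).2
  have h2' : (2 : ℝ) ≤ p := by exact_mod_cast hpp.two_le
  have h0 : (p : ℝ) ≠ 0 := by linarith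
  have h01 : (p : ℝ) - 1 ≠ 0 := by linarith
  have := (fac_pos hpp).ne'
  split_ifs
  · field_simp
  · field_simp

lemma kap_pos (w r : ℕ) : 0 < kap w r := by
  unfold kap
  apply prod_pos
  intro p hp
  split_ifs
  · exact fac_pos (mem_pz.1 hp).2
  · exact one_pos

lemma kap_le (w r : ℕ) : kap w r ≤ 1 := by
  unfold kap
  apply prod_le_one
  · intro p hp
    split_ifs
    · exact (fac_pos (mem_pz.1 hp).2).le
    · exact zero_le_one
  · intro p hp
    split_ifs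
    · have : (0 : ℝ) ≤ 1 / p := by positivity
      linarith
    · exact le_rfl

lemma kap_ge (w r : ℕ) : Vz w ≤ kap w r := by
  unfold kap Vz
  apply prod_le_prod
  · intro p hp
    exact (fac_pos (mem_pz.1 hp).2).le
  · intro p hp
    split_ifs
    · exact le_rfl
    · have : (0 : ℝ) ≤ 1 / p := by positivity
      linarith

/-- the indicator of the primes -/
noncomputable def ip (n : ℕ) : ℝ := if n.Prime then 1 else 0

lemma ip_nonneg (n : ℕ) : 0 ≤ ip n := by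
  unfold ip
  split_ifs <;> norm_num

lemma ip_le {n : ℕ} {l : ℝ} (hl : 0 < l) (h : l ≤ Real.log n) : ip n ≤ th n / l := by
  unfold ip th
  split_ifs
  · rw [le_div_iff₀ hl]
    linarith
  · simp

lemma ip_ge {n : ℕ} {l : ℝ} (hl : 0 < l) (h : Real.log n ≤ l) : th n / l ≤ ip n := by
  unfold ip th
  split_ifs
  · rw [div_le_iff₀ hl]
    linarith
  · simp

/-- the data of a class -/
structure Cls (w M T s r N R J : ℕ) : Prop where
  hT : M ≤ Ww w * T
  hT2 : Ww w * T ≤ 2 * M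
  hN2 : Ww w * N ≤ 2 * M
  hR2 : Ww w * R ≤ 2 * M
  hs : s < Ww w
  hr : r < Ww w
  hN : (M : ℝ) ≤ N * Real.log M
  hR : (M : ℝ) ≤ R * Real.log M
  hJ2 : 2 ≤ J
  hJl : (J : ℝ) ≤ Real.log M ^ 2

/-- the bounds for the first three moments -/
theorem sums : ∃ B : ℕ, 1 ≤ B ∧ ∀ w : ℕ, 16 ≤ w → ∃ M0 : ℕ, ∀ M : ℕ, M0 ≤ M → Big B (B + 1) (Ww w) M ∧
    ∀ T s r N R J : ℕ, Cls w M T s r N R J →
    (∑ j ∈ JJ w J s r, ∑ b ∈ Icc 1 N, ∑ t ∈ Icc 1 R, ip (vv (Ww w) T s r j b t) ≤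
      (1 / Real.log M) * (N * R * ((Vz w)⁻¹ * (JJ w J s r).card + (JJ w J s r).card * (4 / Real.log M ^ 8)))) ∧
    ((1 / (Real.log M + 4 * Real.log (Real.log M))) ^ 2 * (N * R * (((JJ w J s r).card : ℝ) * (((JJ w J s r).card : ℝ) - 1) *
        ((Vz w)⁻¹ ^ 2 * (1 - 2 / w)) - ((JJ w J s r).card : ℝ) ^ 2 * (4 / Real.log M ^ 8))) ≤
      ∑ j1 ∈ JJ w J s r, ∑ j2 ∈ (JJ w J s r).erase j1, ∑ b ∈ Icc 1 N, ∑ t ∈ Icc 1 R,
        ip (vv (Ww w) T s r j1 b t) * ip (vv (Ww w) T s r j2 b t)) ∧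
    (∑ j1 ∈ JJ w J s r, ∑ j2 ∈ (JJ w J s r).erase j1, ∑ j3 ∈ ((JJ w J s r).erase j1).erase j2, ∑ b ∈ Icc 1 N, ∑ t ∈ Icc 1 R,
        ip (vv (Ww w) T s r j1 b t) * ip (vv (Ww w) T s r j2 b t) * ip (vv (Ww w) T s r j3 b t) ≤
      (1 / Real.log M) ^ 3 * ((Vz w)⁻¹ ^ 3 * N * ((R + R * (24 / w) + ∏ p ∈ pwz w (zz B M), uu p ^ 8) *
        (((JJ w J s r).card : ℝ) ^ 2 * ((JJ w J s r).card + (DD w s r).card * (J / Ww w) * (24 / w) +
          (DD w s r).card * ∏ p ∈ pwz w (zz B M), uu p ^ 8))) + ((JJ w J s r).card : ℝ) ^ 3 * (N * R * (4 / Real.log M ^ 8)))) := by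
  obtain ⟨B, hB1, hB⟩ := swap
  refine ⟨B, hB1, fun w hw => ?_⟩
  obtain ⟨m0, h0⟩ := hB (Ww w) (Ww_pos w)
  obtain ⟨n1, c1⟩ := col1 14 (B + 2)
  obtain ⟨n2, c2⟩ := col2 14 (B + 2)
  obtain ⟨n3, c3⟩ := col3 14 (B + 2)
  obtain ⟨m1, e1⟩ := ev_L' ((2 : ℝ) ^ (B + 2) + w)
  refine ⟨max (max m0 m1) (max (n1 ^ 2) (max (n2 ^ 2) (n3 ^ 2))), fun M hM => ?_⟩
  obtain ⟨hb, hsw⟩ := h0 M (by omega)
  refine ⟨hb, fun T s r N R J hc => ?_⟩
  have hlw := e1 M (by omega)
  obtain ⟨hz1, hz2, hz3⟩ := zz_bounds hb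
  have hmain := hb.h1
  have hbig2 := hb.h2
  have hbigV := hb.h5 _ hz1 hz3
  have hM2 := hb.h4
  obtain ⟨hT, hT2, hN2, hR2, hs, hr, hN, hR, hJ2, hJl⟩ := hc
  obtain ⟨z, hz⟩ : ∃ z, z = zz B M := ⟨_, rfl⟩
  obtain ⟨l, hl⟩ : ∃ l, l = Real.log M := ⟨_, rfl⟩
  obtain ⟨W, hW⟩ : ∃ W, W = Ww w := ⟨_, rfl⟩
  have hWl := hb.h3
  have hW1 : 1 ≤ W := by rw [hW]; exact Ww_pos w
  rw [← hW] at hT hT2 hN2 hR2 hs hr hWl
  rw [← hz] at hz1 hz2 hz3 hbigV
  rw [← hl] at hz2 hz3 hmain hbig2 hbigV hN hR hJl hlw hWl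
  have h2B : (1 : ℝ) ≤ 2 ^ B := one_le_pow₀ (by norm_num)
  have hl41 : 41 ≤ l := by linarith
  have hMr : (2 : ℝ) ≤ M := by exact_mod_cast hM2
  have hsM := Real.mul_self_sqrt (show (0 : ℝ) ≤ M by linarith)
  have hs0 := Real.sqrt_nonneg (M : ℝ)
  have hls : l ≤ √(M : ℝ) := by
    refine le_trans ?_ hbig2
    nlinarith [mul_pos (show (0 : ℝ) < l by linarith) (show (0 : ℝ) < l by linarith)]
  have big_of : ∀ n : ℕ, (M : ℝ) ≤ n * l → √(M : ℝ) ≤ n := by
    intro n hn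
    by_contra hlt
    push Not at hlt
    have : (n : ℝ) * l < √M * √M := by
      have : (0 : ℝ) ≤ n := Nat.cast_nonneg n
      nlinarith
    linarith
  have hNs := big_of N hN
  have hRs := big_of R hR
  have hM0' : ∀ n : ℕ, n ^ 2 ≤ M → n ≤ N := by
    intro n hn
    have : (n : ℝ) ≤ √M := by
      apply Real.le_sqrt_of_sq_le
      exact_mod_cast hn
    exact_mod_cast this.trans hNs
  have hNr1 : (1 : ℝ) ≤ N := by linarith
  have hRr1 : (1 : ℝ) ≤ R := by linarith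
  have hlogN : l / 2 ≤ Real.log N := by
    have h1 : Real.log (√M) ≤ Real.log N := Real.log_le_log (by linarith) hNs
    rw [Real.log_sqrt (by linarith), ← hl] at h1
    exact h1
  have hzN : (z : ℝ) ≤ Real.log N ^ (B + 2) := by
    have h3 : (2 : ℝ) ^ (B + 1) ≤ Real.log N := by
      have : (2 : ℝ) ^ (B + 2) = 2 * 2 ^ (B + 1) := by ring
      have : (0 : ℝ) ≤ w := Nat.cast_nonneg w
      linarith
    calc (z : ℝ) ≤ l ^ (B + 1) := hz3
      _ ≤ (2 * Real.log N) ^ (B + 1) := by gcongr; linarith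
      _ = 2 ^ (B + 1) * Real.log N ^ (B + 1) := by rw [mul_pow]
      _ ≤ Real.log N * Real.log N ^ (B + 1) := by
          apply mul_le_mul_of_nonneg_right h3
          apply pow_nonneg
          linarith
      _ = _ := by ring
  have hwz : w ≤ z := by
    have h1 : (2 * l) ^ 1 ≤ (2 * l) ^ B := pow_le_pow_right₀ (by linarith) hB1
    have h2 : (w : ℝ) ≤ z := by
      have : (0 : ℝ) ≤ 2 ^ (B + 2) := by positivity
      rw [pow_one] at h1
      linarith
    exact_mod_cast h2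
  have hbox : Box W M T s r N R J := by
    have hW' : (W : ℝ) ≤ l := hWl
    have hJr : (2 : ℝ) ≤ J := by exact_mod_cast hJ2
    have k1 : ((W * N : ℕ) : ℝ) ≤ 2 * M := by exact_mod_cast hN2
    have k2 : ((W * R : ℕ) : ℝ) ≤ 2 * M := by exact_mod_cast hR2
    have k3 : ((W * T : ℕ) : ℝ) ≤ 2 * M := by exact_mod_cast hT2
    have k4 : (s : ℝ) ≤ W := by exact_mod_cast hs.le
    have k5 : (r : ℝ) ≤ W := by exact_mod_cast hr.le
    push_cast at k1 k2 k3
    have hlM : l ≤ M := by nlinarith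
    refine ⟨hT, ?_, ?_, hJ2, ?_, ?_⟩
    · exact_mod_cast hNr1
    · exact_mod_cast hRr1
    · rw [← hl]
      push_cast
      calc (W : ℝ) * (N + J * R) = W * N + J * (W * R) := by ring
        _ ≤ 2 * M + l ^ 2 * (2 * M) := by gcongr
        _ ≤ M * l ^ 3 := by
            have : 2 + 2 * l ^ 2 ≤ l ^ 3 := by nlinarith [mul_pos (show (0 : ℝ) < l by linarith) (show (0 : ℝ) < l by linarith)]
            calc 2 * (M : ℝ) + l ^ 2 * (2 * M) = M * (2 + 2 * l ^ 2) := by ring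
              _ ≤ _ := by gcongr
    · rw [← hl]
      push_cast
      calc (s : ℝ) + J * (W * T + r) ≤ M + l ^ 2 * (2 * M + M) := by
            have : (s : ℝ) ≤ M := by linarith
            have : (r : ℝ) ≤ M := by linarith
            gcongr
        _ ≤ M * l ^ 3 := by
            have : 1 + 3 * l ^ 2 ≤ l ^ 3 := by nlinarith [mul_pos (show (0 : ℝ) < l by linarith) (show (0 : ℝ) < l by linarith)]
            calc (M : ℝ) + l ^ 2 * (2 * M + M) = M * (1 + 3 * l ^ 2) := by ring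
              _ ≤ _ := by gcongr
  rw [← hW] at hsw
  have hsw' := hsw T s r N R J hbox
  rw [← hl, ← hz] at hsw'
  obtain ⟨s1, s2, s3⟩ := hsw'
  -- sizes of the numbers
  have hvlow : ∀ j b t : ℕ, 1 ≤ j → l ≤ Real.log (vv W T s r j b t) := by
    intro j b t hj
    rw [hl]
    apply Real.log_le_log (by linarith)
    have h1 : 1 * (W * T + r) ≤ j * (W * T + r) := Nat.mul_le_mul_right _ hj
    have : M ≤ vv W T s r j b t := by
      unfold vv
      omega
    exact_mod_cast this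
  have hvup : ∀ j b t : ℕ, 1 ≤ j → j ≤ J → b ≤ N → t ≤ R → Real.log (vv W T s r j b t) ≤ l + 4 * Real.log l := by
    intro j b t hj1 hj hbN htR
    have h1 : (vv W T s r j b t : ℝ) ≤ l * (M * l ^ 3) := by
      have h2 := hbox.h1
      have h3 := hbox.h2
      rw [← hl] at h2 h3
      have h4 : vv W T s r j b t ≤ W * (N + J * R) + (s + J * (W * T + r)) := by
        unfold vv
        have k1 : j * t ≤ J * R := Nat.mul_le_mul hj htR
        have k2 := Nat.mul_le_mul_left W (Nat.add_le_add hbN k1)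
        have k3 := Nat.mul_le_mul_right (W * T + r) hj
        omega
      have h5 : (vv W T s r j b t : ℝ) ≤ ((W * (N + J * R) : ℕ) : ℝ) + ((s + J * (W * T + r) : ℕ) : ℝ) := by exact_mod_cast h4
      have h6 : 0 < (M : ℝ) * l ^ 3 := by positivity
      nlinarith
    have h2 : 0 < (vv W T s r j b t : ℝ) := by
      have : M ≤ vv W T s r j b t := by
        have h1 : 1 * (W * T + r) ≤ j * (W * T + r) := Nat.mul_le_mul_right _ hj1
        unfold vv
        omega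
      exact_mod_cast (show 0 < vv W T s r j b t by omega)
    have h3 := Real.log_le_log h2 h1
    have h4 : Real.log (l * (M * l ^ 3)) = l + 4 * Real.log l := by
      rw [Real.log_mul (by linarith) (by positivity), Real.log_mul (by linarith) (by positivity), Real.log_pow, ← hl]
      push_cast
      ring
    linarith
  have hadm : ∀ j ∈ JJ w J s r, (1 ≤ j ∧ j ≤ J) ∧ ∀ p ∈ pz w, ¬ p ∣ s + j * r := by
    intro j hj
    unfold JJ at hj
    rw [mem_filter, mem_Icc] at hj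
    exact hj
  -- errors
  have hsM2 : (M : ℝ) ^ 2 / l ^ 10 ≤ N * R * (1 / l ^ 8) := by
    rw [mul_one_div, div_le_div_iff₀ (by positivity) (by positivity)]
    calc (M : ℝ) ^ 2 * l ^ 8 ≤ ((N * l) * (R * l)) * l ^ 8 := by
          apply mul_le_mul_of_nonneg_right _ (by positivity)
          rw [sq]
          exact mul_le_mul hN hR (by linarith) (by positivity)
      _ = _ := by ring
  have hV0 : 0 ≤ (Vz z)⁻¹ := inv_nonneg.2 (Vz_pos z).le
  have herr : ∀ k : ℕ, k ≤ 3 → (Vz z)⁻¹ ^ k * (N / Real.log N ^ 14) ≤ N * (1 / l ^ 8) := by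
    intro k hk
    have h1 : (Vz z)⁻¹ ^ k ≤ l ^ 3 := by
      calc (Vz z)⁻¹ ^ k ≤ l ^ k := pow_le_pow_left₀ hV0 hbigV k
        _ ≤ l ^ 3 := pow_le_pow_right₀ (by linarith) hk
    have h2 : (l / 2) ^ 14 ≤ Real.log N ^ 14 := by gcongr
    calc (Vz z)⁻¹ ^ k * (N / Real.log N ^ 14) ≤ l ^ 3 * (N / (l / 2) ^ 14) := by gcongr
      _ = N * (2 ^ 14 / l ^ 11) := by field_simp
      _ ≤ N * (1 / l ^ 8) := by
          apply mul_le_mul_of_nonneg_left _ (by linarith)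
          rw [div_le_div_iff₀ (by positivity) (by positivity)]
          have : (2 : ℝ) ^ 14 ≤ l ^ 3 := by
            calc (2 : ℝ) ^ 14 ≤ 41 ^ 3 := by norm_num
              _ ≤ l ^ 3 := by gcongr
          calc (2 : ℝ) ^ 14 * l ^ 8 ≤ l ^ 3 * l ^ 8 := by gcongr
            _ = 1 * l ^ 11 := by ring
  have hNR0 : 0 ≤ (N : ℝ) * R * (1 / l ^ 8) := by positivity
  obtain ⟨A, hA⟩ : ∃ A, A = JJ w J s r := ⟨_, rfl⟩
  rw [← hA] at hadm
  rw [← hz, ← hl, ← hA, ← hW]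
  have hmem : ∀ j ∈ A, j ∈ Icc 1 J := fun j hj => mem_Icc.2 (hadm j hj).1

  refine ⟨?_, ?_, ?_⟩
  · -- the first moment
    have k1 : ∀ j ∈ A, ∑ b ∈ Icc 1 N, ∑ t ∈ Icc 1 R, ip (vv W T s r j b t) ≤
        (1 / l) * (N * R * ((Vz w)⁻¹ + 4 / l ^ 8)) := by
      intro j hj
      obtain ⟨⟨j1, j2⟩, j3⟩ := hadm j hj
      have a1 : ∑ b ∈ Icc 1 N, ∑ t ∈ Icc 1 R, ip (vv W T s r j b t) ≤
          (1 / l) * ∑ b ∈ Icc 1 N, ∑ t ∈ Icc 1 R, th (vv W T s r j b t) := by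
        simp only [mul_sum]
        apply sum_le_sum
        intro b _
        apply sum_le_sum
        intro t _
        rw [one_div_mul_eq_div]
        exact ip_le (by linarith) (hvlow j b t j1)
      have a2 := (abs_le.1 (s1 j (hmem j hj))).2
      have a3 : ∑ b ∈ Icc 1 N, ∑ t ∈ Icc 1 R, lamz z (vv W T s r j b t) ≤ N * R * ((Vz w)⁻¹ + 1 / l ^ 8) := by
        rw [sum_comm]
        have b1 : ∀ t ∈ Icc 1 R, ∑ b ∈ Icc 1 N, lamz z (vv W T s r j b t) ≤ N * ((Vz w)⁻¹ + 1 / l ^ 8) := by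
          intro t _
          have d1 := (abs_le.1 (c1 N (hM0' n1 (by omega)) z hz1 hzN w hwz s r T t j j3)).2
          rw [← hW] at d1
          have d2 := herr 1 (by norm_num)
          rw [pow_one] at d2
          linarith
        refine (sum_le_sum b1).trans (le_of_eq ?_)
        rw [sum_const, Nat.card_Icc, nsmul_eq_mul]
        push_cast
        ring
      refine a1.trans (mul_le_mul_of_nonneg_left ?_ (by positivity))
      have e : (N : ℝ) * R * ((Vz w)⁻¹ + 4 / l ^ 8) = N * R * ((Vz w)⁻¹ + 1 / l ^ 8) + 3 * (N * R * (1 / l ^ 8)) := by ring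
      linarith
    refine (sum_le_sum k1).trans (le_of_eq ?_)
    rw [sum_const, nsmul_eq_mul]
    ring
  · -- the second moment
    have hll : 0 < l + 4 * Real.log l := by
      have := Real.log_nonneg (show (1 : ℝ) ≤ l by linarith)
      linarith
    have k1 : ∀ j1 ∈ A, ∀ j2 ∈ A.erase j1, (1 / (l + 4 * Real.log l)) ^ 2 * (N * R * ((Vz w)⁻¹ ^ 2 * (1 - 2 / w) - 4 / l ^ 8)) ≤
        ∑ b ∈ Icc 1 N, ∑ t ∈ Icc 1 R, ip (vv W T s r j1 b t) * ip (vv W T s r j2 b t) := by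
      intro j1 hj1 j2 hj2
      have hne := (mem_erase.1 hj2).1
      have hj2' := mem_of_mem_erase hj2
      obtain ⟨⟨x1, x2⟩, x3⟩ := hadm j1 hj1
      obtain ⟨⟨y1, y2⟩, y3⟩ := hadm j2 hj2'
      have a1 : (1 / (l + 4 * Real.log l)) ^ 2 * ∑ b ∈ Icc 1 N, ∑ t ∈ Icc 1 R, th (vv W T s r j1 b t) * th (vv W T s r j2 b t) ≤
          ∑ b ∈ Icc 1 N, ∑ t ∈ Icc 1 R, ip (vv W T s r j1 b t) * ip (vv W T s r j2 b t) := by
        simp only [mul_sum]
        apply sum_le_sum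
        intro b hb'
        apply sum_le_sum
        intro t ht'
        rw [mem_Icc] at hb' ht'
        have u1 := ip_ge hll (hvup j1 b t x1 x2 hb'.2 ht'.2)
        have u2 := ip_ge hll (hvup j2 b t y1 y2 hb'.2 ht'.2)
        have v1 := th_nonneg (vv W T s r j1 b t)
        have v2 := th_nonneg (vv W T s r j2 b t)
        calc (1 / (l + 4 * Real.log l)) ^ 2 * (th (vv W T s r j1 b t) * th (vv W T s r j2 b t)) =
            (th (vv W T s r j1 b t) / (l + 4 * Real.log l)) * (th (vv W T s r j2 b t) / (l + 4 * Real.log l)) := by ring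
          _ ≤ _ := mul_le_mul u1 u2 (by positivity) (ip_nonneg _)
      have a2 := (abs_le.1 (s2 j1 j2 (hmem j1 hj1) (hmem j2 hj2') (Ne.symm hne))).1
      have a3 : N * R * ((Vz w)⁻¹ ^ 2 * (1 - 2 / w) - 1 / l ^ 8) ≤
          ∑ b ∈ Icc 1 N, ∑ t ∈ Icc 1 R, lamz z (vv W T s r j1 b t) * lamz z (vv W T s r j2 b t) := by
        rw [sum_comm]
        have b1 : ∀ t ∈ Icc 1 R, N * ((Vz w)⁻¹ ^ 2 * (1 - 2 / w) - 1 / l ^ 8) ≤
            ∑ b ∈ Icc 1 N, lamz z (vv W T s r j1 b t) * lamz z (vv W T s r j2 b t) := by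
          intro t _
          have d1 := c2 N (hM0' n2 (by omega)) z hz1 hzN w (by omega) hwz s r T t j1 j2 (Ne.symm hne) x3 y3
          rw [← hW] at d1
          have d2 := herr 2 (by norm_num)
          linarith
        refine le_trans (le_of_eq ?_) (sum_le_sum b1)
        rw [sum_const, Nat.card_Icc, nsmul_eq_mul]
        push_cast
        ring
      refine le_trans (mul_le_mul_of_nonneg_left ?_ (by positivity)) a1
      have e : (N : ℝ) * R * ((Vz w)⁻¹ ^ 2 * (1 - 2 / w) - 4 / l ^ 8) =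
          N * R * ((Vz w)⁻¹ ^ 2 * (1 - 2 / w) - 1 / l ^ 8) - 3 * (N * R * (1 / l ^ 8)) := by ring
      linarith
    have k2 : ∑ j1 ∈ A, ∑ j2 ∈ A.erase j1, (1 / (l + 4 * Real.log l)) ^ 2 * (N * R * ((Vz w)⁻¹ ^ 2 * (1 - 2 / w) - 4 / l ^ 8)) ≤
        ∑ j1 ∈ A, ∑ j2 ∈ A.erase j1, ∑ b ∈ Icc 1 N, ∑ t ∈ Icc 1 R, ip (vv W T s r j1 b t) * ip (vv W T s r j2 b t) :=
      sum_le_sum fun j1 hj1 => sum_le_sum fun j2 hj2 => k1 j1 hj1 j2 hj2
    refine le_trans ?_ k2
    have k3 : ∑ j1 ∈ A, ∑ j2 ∈ A.erase j1, (1 / (l + 4 * Real.log l)) ^ 2 * (N * R * ((Vz w)⁻¹ ^ 2 * (1 - 2 / w) - 4 / l ^ 8)) =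
        (A.card : ℝ) * ((A.card : ℝ) - 1) * ((1 / (l + 4 * Real.log l)) ^ 2 * (N * R * ((Vz w)⁻¹ ^ 2 * (1 - 2 / w) - 4 / l ^ 8))) := by
      have : ∀ j1 ∈ A, ∑ j2 ∈ A.erase j1, (1 / (l + 4 * Real.log l)) ^ 2 * (N * R * ((Vz w)⁻¹ ^ 2 * (1 - 2 / w) - 4 / l ^ 8)) =
          ((A.card : ℝ) - 1) * ((1 / (l + 4 * Real.log l)) ^ 2 * (N * R * ((Vz w)⁻¹ ^ 2 * (1 - 2 / w) - 4 / l ^ 8))) := by
        intro j1 hj1
        rw [sum_const, nsmul_eq_mul, card_erase_of_mem hj1, Nat.cast_sub (card_pos.2 ⟨j1, hj1⟩), Nat.cast_one]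
      rw [sum_congr rfl this, sum_const, nsmul_eq_mul]
      ring
    rw [k3]
    have e1 : (0 : ℝ) ≤ (1 / (l + 4 * Real.log l)) ^ 2 * (N * R * (4 / l ^ 8)) := by positivity
    have e2 : (0 : ℝ) ≤ A.card := Nat.cast_nonneg _
    nlinarith [mul_nonneg e2 e1]
  · -- the third moment
    obtain ⟨E8, hE8⟩ : ∃ E8, E8 = ∏ p ∈ pwz w z, uu p ^ 8 := ⟨_, rfl⟩
    have k1 : ∀ j1 ∈ A, ∀ j2 ∈ A.erase j1, ∀ j3 ∈ (A.erase j1).erase j2,
        ∑ b ∈ Icc 1 N, ∑ t ∈ Icc 1 R, ip (vv W T s r j1 b t) * ip (vv W T s r j2 b t) * ip (vv W T s r j3 b t) ≤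
        (1 / l) ^ 3 * ((Vz w)⁻¹ ^ 3 * N * ((R + R * (24 / w) + E8) * (HH w z j1 j2 * HH w z j1 j3 * HH w z j2 j3)) +
          N * R * (4 / l ^ 8)) := by
      intro j1 hj1 j2 hj2 j3 hj3
      have hne12 := (mem_erase.1 hj2).1
      have hj2' := mem_of_mem_erase hj2
      rw [mem_erase, mem_erase] at hj3
      obtain ⟨hne23, hne13, hj3'⟩ := hj3
      obtain ⟨⟨x1, x2⟩, x3⟩ := hadm j1 hj1
      obtain ⟨⟨y1, y2⟩, y3⟩ := hadm j2 hj2'
      obtain ⟨⟨w1, w2⟩, w3⟩ := hadm j3 hj3'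
      have a1 : ∑ b ∈ Icc 1 N, ∑ t ∈ Icc 1 R, ip (vv W T s r j1 b t) * ip (vv W T s r j2 b t) * ip (vv W T s r j3 b t) ≤
          (1 / l) ^ 3 * ∑ b ∈ Icc 1 N, ∑ t ∈ Icc 1 R, th (vv W T s r j1 b t) * th (vv W T s r j2 b t) * th (vv W T s r j3 b t) := by
        simp only [mul_sum]
        apply sum_le_sum
        intro b _
        apply sum_le_sum
        intro t _
        have u1 := ip_le (by linarith) (hvlow j1 b t x1)
        have u2 := ip_le (by linarith) (hvlow j2 b t y1)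
        have u3 := ip_le (by linarith) (hvlow j3 b t w1)
        have v1 := th_nonneg (vv W T s r j1 b t)
        have v2 := th_nonneg (vv W T s r j2 b t)
        have v3 := th_nonneg (vv W T s r j3 b t)
        have i1 := ip_nonneg (vv W T s r j1 b t)
        have i2 := ip_nonneg (vv W T s r j2 b t)
        have i3 := ip_nonneg (vv W T s r j3 b t)
        calc ip (vv W T s r j1 b t) * ip (vv W T s r j2 b t) * ip (vv W T s r j3 b t) ≤
              (th (vv W T s r j1 b t) / l) * (th (vv W T s r j2 b t) / l) * (th (vv W T s r j3 b t) / l) := by gcongr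
          _ = _ := by ring
      have a2 := (abs_le.1 (s3 j1 j2 j3 (hmem j1 hj1) (hmem j2 hj2') (hmem j3 hj3') (Ne.symm hne12) (Ne.symm hne13) (Ne.symm hne23))).2
      have hHH : 0 ≤ HH w z j1 j2 * HH w z j1 j3 * HH w z j2 j3 :=
        mul_nonneg (mul_nonneg (HH_nonneg _ _ _ _) (HH_nonneg _ _ _ _)) (HH_nonneg _ _ _ _)
      have a3 : ∑ b ∈ Icc 1 N, ∑ t ∈ Icc 1 R, lamz z (vv W T s r j1 b t) * lamz z (vv W T s r j2 b t) * lamz z (vv W T s r j3 b t) ≤
          (Vz w)⁻¹ ^ 3 * N * ((R + R * (24 / w) + E8) * (HH w z j1 j2 * HH w z j1 j3 * HH w z j2 j3)) + N * R * (1 / l ^ 8) := by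
        rw [sum_comm]
        have b1 : ∀ t ∈ Icc 1 R, ∑ b ∈ Icc 1 N, lamz z (vv W T s r j1 b t) * lamz z (vv W T s r j2 b t) * lamz z (vv W T s r j3 b t) ≤
            (Vz w)⁻¹ ^ 3 * N * (HH w z j1 j2 * HH w z j1 j3 * HH w z j2 j3) * hm w z (Ww w * (T + t) + r) + N * (1 / l ^ 8) := by
          intro t _
          have d1 := c3 N (hM0' n3 (by omega)) z hz1 hzN w (by omega) hwz s r T t j1 j2 j3 (Ne.symm hne12) (Ne.symm hne13) (Ne.symm hne23) x3 y3 w3
          rw [hW]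
          have d2 := herr 3 (by norm_num)
          linarith
        refine (sum_le_sum b1).trans ?_
        rw [sum_add_distrib, ← mul_sum, sum_const, Nat.card_Icc, nsmul_eq_mul]
        have d3 := sum_hm w z T r R hw
        rw [← hE8] at d3
        have d4 : (Vz w)⁻¹ ^ 3 * N * (HH w z j1 j2 * HH w z j1 j3 * HH w z j2 j3) * (∑ t ∈ Icc 1 R, hm w z (Ww w * (T + t) + r)) ≤
            (Vz w)⁻¹ ^ 3 * N * (HH w z j1 j2 * HH w z j1 j3 * HH w z j2 j3) * (R + R * (24 / w) + E8) := by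
          apply mul_le_mul_of_nonneg_left d3
          have := inv_nonneg.2 (Vz_pos w).le
          positivity
        have d5 : ((R + 1 - 1 : ℕ) : ℝ) * (N * (1 / l ^ 8)) = N * R * (1 / l ^ 8) := by
          rw [Nat.add_sub_cancel]
          ring
        rw [d5]
        linarith
      refine a1.trans (mul_le_mul_of_nonneg_left ?_ (by positivity))
      have e : (N : ℝ) * R * (4 / l ^ 8) = N * R * (1 / l ^ 8) + 3 * (N * R * (1 / l ^ 8)) := by ring
      linarith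
    have k2 : ∑ j1 ∈ A, ∑ j2 ∈ A.erase j1, ∑ j3 ∈ (A.erase j1).erase j2, ∑ b ∈ Icc 1 N, ∑ t ∈ Icc 1 R,
        ip (vv W T s r j1 b t) * ip (vv W T s r j2 b t) * ip (vv W T s r j3 b t) ≤
        ∑ j1 ∈ A, ∑ j2 ∈ A.erase j1, ∑ j3 ∈ (A.erase j1).erase j2,
        (1 / l) ^ 3 * ((Vz w)⁻¹ ^ 3 * N * ((R + R * (24 / w) + E8) * (HH w z j1 j2 * HH w z j1 j3 * HH w z j2 j3)) +
          N * R * (4 / l ^ 8)) :=
      sum_le_sum fun j1 hj1 => sum_le_sum fun j2 hj2 => sum_le_sum fun j3 hj3 => k1 j1 hj1 j2 hj2 j3 hj3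
    refine k2.trans ?_
    have k3 := triple_sum w z A (A.card + (DD w s r).card * (J / Ww w) * (24 / w) + (DD w s r).card * E8) (fun j _ => by
      rw [hA, hE8]
      exact sum_HH w z J s r j hw)
    have k4 : ∑ j1 ∈ A, ∑ j2 ∈ A.erase j1, ∑ j3 ∈ (A.erase j1).erase j2, (1 / l) ^ 3 * (N * R * (4 / l ^ 8)) ≤
        (1 / l) ^ 3 * ((A.card : ℝ) ^ 3 * (N * R * (4 / l ^ 8))) := by
      have hc0 : 0 ≤ (1 / l) ^ 3 * (N * R * (4 / l ^ 8)) := by positivity
      have q1 : ∀ j1 ∈ A, ∑ j2 ∈ A.erase j1, ∑ j3 ∈ (A.erase j1).erase j2, (1 / l) ^ 3 * (N * R * (4 / l ^ 8)) ≤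
          (A.card : ℝ) ^ 2 * ((1 / l) ^ 3 * (N * R * (4 / l ^ 8))) := by
        intro j1 _
        have q2 : ∀ j2 ∈ A.erase j1, ∑ j3 ∈ (A.erase j1).erase j2, (1 / l) ^ 3 * (N * R * (4 / l ^ 8)) ≤
            (A.card : ℝ) * ((1 / l) ^ 3 * (N * R * (4 / l ^ 8))) := by
          intro j2 _
          rw [sum_const, nsmul_eq_mul]
          apply mul_le_mul_of_nonneg_right _ hc0
          exact_mod_cast card_le_card ((erase_subset _ _).trans (erase_subset _ _))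
        refine (sum_le_sum q2).trans ?_
        rw [sum_const, nsmul_eq_mul]
        have : ((A.erase j1).card : ℝ) ≤ A.card := by exact_mod_cast card_le_card (erase_subset _ _)
        calc ((A.erase j1).card : ℝ) * ((A.card : ℝ) * ((1 / l) ^ 3 * (N * R * (4 / l ^ 8)))) ≤
            (A.card : ℝ) * ((A.card : ℝ) * ((1 / l) ^ 3 * (N * R * (4 / l ^ 8)))) := by gcongr
          _ = _ := by ring
      refine (sum_le_sum q1).trans (le_of_eq ?_)
      rw [sum_const, nsmul_eq_mul]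
      ring
    have k5 : ∑ j1 ∈ A, ∑ j2 ∈ A.erase j1, ∑ j3 ∈ (A.erase j1).erase j2,
        (1 / l) ^ 3 * ((Vz w)⁻¹ ^ 3 * N * ((R + R * (24 / w) + E8) * (HH w z j1 j2 * HH w z j1 j3 * HH w z j2 j3)) +
          N * R * (4 / l ^ 8)) =
        (1 / l) ^ 3 * ((Vz w)⁻¹ ^ 3 * N * (R + R * (24 / w) + E8)) *
          (∑ j1 ∈ A, ∑ j2 ∈ A.erase j1, ∑ j3 ∈ (A.erase j1).erase j2, HH w z j1 j2 * HH w z j1 j3 * HH w z j2 j3) +
        ∑ j1 ∈ A, ∑ j2 ∈ A.erase j1, ∑ j3 ∈ (A.erase j1).erase j2, (1 / l) ^ 3 * (N * R * (4 / l ^ 8)) := by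
      simp only [mul_sum, ← sum_add_distrib]
      apply sum_congr rfl
      intro j1 _
      apply sum_congr rfl
      intro j2 _
      apply sum_congr rfl
      intro j3 _
      ring
    rw [k5]
    have hE0 : 0 ≤ E8 := by
      rw [hE8]
      apply prod_nonneg
      intro p hp
      have := one_le_uu (mem_pwz.1 hp).1.2.two_le
      positivity
    have k6 : (1 / l) ^ 3 * ((Vz w)⁻¹ ^ 3 * N * (R + R * (24 / w) + E8)) *
          (∑ j1 ∈ A, ∑ j2 ∈ A.erase j1, ∑ j3 ∈ (A.erase j1).erase j2, HH w z j1 j2 * HH w z j1 j3 * HH w z j2 j3) ≤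
        (1 / l) ^ 3 * ((Vz w)⁻¹ ^ 3 * N * (R + R * (24 / w) + E8)) *
          ((A.card : ℝ) ^ 2 * (A.card + (DD w s r).card * (J / Ww w) * (24 / w) + (DD w s r).card * E8)) := by
      apply mul_le_mul_of_nonneg_left k3
      have := inv_nonneg.2 (Vz_pos w).le
      positivity
    rw [← hE8, hW]
    calc _ ≤ (1 / l) ^ 3 * ((Vz w)⁻¹ ^ 3 * N * (R + R * (24 / w) + E8)) *
          ((A.card : ℝ) ^ 2 * (A.card + (DD w s r).card * (J / Ww w) * (24 / w) + (DD w s r).card * E8)) +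
          (1 / l) ^ 3 * ((A.card : ℝ) ^ 3 * (N * R * (4 / l ^ 8))) := add_le_add k6 k4
      _ = _ := by ring

end Pool.Agent.K9h54.LP
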