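import Pool.Agent.K9h54.LP.F8
import Pool.Agent.K9h54.TF.Mt

set_option autoImplicit false

/-!
# Least primes: one class of moduli and residues
-/

namespace Pool.Agent.K9h54.LP

open Finset Filter Topology
open Pool.Agent.H373R2.T7 (pz Vz lamz mem_pz count_class ev_L')

/-- the polynomial which is below the indicator of zero -/
lemma pt (X k : ℕ) (hk : 1 ≤ k) : 1 - (X : ℝ) + (2 * k - 1) / (k * (k + 1)) * (X * (X - 1)) -
    1 / (k * (k + 1)) * (X * (X - 1) * (X - 2)) ≤ if X = 0 then 1 else 0 := by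
  have hk0 : (1 : ℝ) ≤ k := by exact_mod_cast hk
  have hkk : (0 : ℝ) < k * (k + 1) := by positivity
  have e : 1 - (X : ℝ) + (2 * k - 1) / (k * (k + 1)) * (X * (X - 1)) - 1 / (k * (k + 1)) * (X * (X - 1) * (X - 2)) =
      (1 - X) * ((k - X) * (k + 1 - X)) / (k * (k + 1)) := by
    field_simp
    ring
  rw [e]
  split_ifs with h
  · rw [h]
    apply le_of_eq
    push_cast
    field_simp
    ring
  · apply div_nonpos_of_nonpos_of_nonneg _ hkk.le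
    apply mul_nonpos_of_nonpos_of_nonneg
    · have : (1 : ℝ) ≤ X := by exact_mod_cast Nat.one_le_iff_ne_zero.2 h
      linarith
    · rcases Nat.lt_or_ge X (k + 1) with h1 | h1
      · have h2 : (X : ℝ) ≤ k := by exact_mod_cast Nat.lt_succ_iff.1 h1
        apply mul_nonneg <;> linarith
      · have h2 : (k : ℝ) + 1 ≤ X := by exact_mod_cast h1
        apply mul_nonneg_of_nonpos_of_nonpos <;> linarith

lemma fac_moments (A : Finset ℕ) (f : ℕ → ℝ) (hf : ∀ j, f j = 0 ∨ f j = 1) (X : ℝ) (hX : X = ∑ j ∈ A, f j) :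
    ∑ j1 ∈ A, ∑ j2 ∈ A.erase j1, f j1 * f j2 = X * (X - 1) ∧
    ∑ j1 ∈ A, ∑ j2 ∈ A.erase j1, ∑ j3 ∈ (A.erase j1).erase j2, f j1 * f j2 * f j3 = X * (X - 1) * (X - 2) := by
  have hff : ∀ j, f j * f j = f j := by
    intro j
    rcases hf j with h | h <;> rw [h] <;> norm_num
  have h1 : ∀ j1 ∈ A, ∑ j2 ∈ A.erase j1, f j1 * f j2 = f j1 * (X - 1) := by
    intro j1 hj1
    rw [← mul_sum, sum_erase_eq_sub hj1, ← hX]
    linear_combination -hff j1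
  constructor
  · rw [sum_congr rfl h1, ← sum_mul, ← hX]
  · have h2 : ∀ j1 ∈ A, ∀ j2 ∈ A.erase j1, ∑ j3 ∈ (A.erase j1).erase j2, f j1 * f j2 * f j3 = f j1 * f j2 * (X - 2) := by
      intro j1 hj1 j2 hj2
      rw [← mul_sum, sum_erase_eq_sub hj2, sum_erase_eq_sub hj1, ← hX]
      linear_combination -f j2 * hff j1 - f j1 * hff j2
    have h3 : ∀ j1 ∈ A, ∑ j2 ∈ A.erase j1, ∑ j3 ∈ (A.erase j1).erase j2, f j1 * f j2 * f j3 = f j1 * (X - 1) * (X - 2) := by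
      intro j1 hj1
      rw [sum_congr rfl (h2 j1 hj1), ← sum_mul, h1 j1 hj1]
    rw [sum_congr rfl h3, ← sum_mul, ← sum_mul, ← hX]

lemma ip01 (n : ℕ) : ip n = 0 ∨ ip n = 1 := by
  unfold ip
  split_ifs
  · exact Or.inr rfl
  · exact Or.inl rfl

/-- large values of the logarithm -/
structure Lg (lam η V Cw C : ℝ) (B : ℕ) (l : ℝ) : Prop where
  a1 : 3 * V ≤ lam * l
  a2 : lam * (l + 1) ≤ l ^ 2
  a3 : lam + Cw ≤ η * l
  a4 : 2 * Cw ≤ η * l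
  a5 : Cw * (C * ((B + 1) * Real.log l)) ^ 8 ≤ η * l
  a6 : 8 * Real.log l ≤ η * l
  a7 : 4 ≤ η * l
  a8 : V * (lam + η) ≤ η * l
  a9 : 41 ≤ l

lemma Lg_ev (lam η V Cw C : ℝ) (hlam : 0 < lam) (hη : 0 < η) (B : ℕ) : ∀ᶠ l : ℝ in atTop, Lg lam η V Cw C B l := by
  have lin : ∀ c : ℝ, ∀ d : ℝ, 0 < d → ∀ᶠ l : ℝ in atTop, c ≤ d * l := by
    intro c d hd
    filter_upwards [eventually_ge_atTop (c / d)] with l hl
    rw [div_le_iff₀ hd] at hl
    linarith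
  have lg : ∀ (n : ℕ) (c : ℝ), ∀ᶠ l : ℝ in atTop, c * Real.log l ^ n ≤ η * l := by
    intro n c
    have h := (Real.isLittleO_pow_log_id_atTop (n := n)).bound (show 0 < η / (|c| + 1) by positivity)
    filter_upwards [h, eventually_ge_atTop 1] with l hl hl1
    have h0 : 0 ≤ Real.log l ^ n := pow_nonneg (Real.log_nonneg hl1) n
    simp only [id] at hl
    rw [Real.norm_of_nonneg h0, Real.norm_of_nonneg (by linarith)] at hl
    have h4 : c ≤ |c| + 1 := by have := le_abs_self c; linarith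
    calc c * Real.log l ^ n ≤ (|c| + 1) * Real.log l ^ n := mul_le_mul_of_nonneg_right h4 h0
      _ ≤ (|c| + 1) * (η / (|c| + 1) * l) := mul_le_mul_of_nonneg_left hl (by positivity)
      _ = _ := by field_simp
  filter_upwards [lin (3 * V) lam hlam, lin (2 * lam) 1 one_pos, lin (lam + Cw) η hη, lin (2 * Cw) η hη,
    lg 8 (Cw * (C * (B + 1)) ^ 8), lg 1 8, lin 4 η hη, lin (V * (lam + η)) η hη, eventually_ge_atTop 41] with l h1 h2 h3 h4 h5 h6 h7 h8 h9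
  refine ⟨h1, by nlinarith, h3, h4, ?_, by simpa using h6, h7, h8, h9⟩
  calc Cw * (C * ((B + 1) * Real.log l)) ^ 8 = Cw * (C * (B + 1)) ^ 8 * Real.log l ^ 8 := by ring
    _ ≤ _ := h5

/-- the choice of the small parameter -/
lemma choose_eta (lam c2 c3 ε : ℝ) (hlam : 0 < lam) (hε : 0 < ε) : ∃ η : ℝ, 0 < η ∧ η < 1 ∧ η < lam ∧
    0 ≤ (lam - η) ^ 2 - η ∧ 0 ≤ ((lam - η) ^ 2 - η) * (1 - η) - η ∧
    1 - lam + c2 * lam ^ 2 - c3 * lam ^ 3 - ε ≤ 1 - (lam + 2 * η) + c2 * ((1 - η) * (((lam - η) ^ 2 - η) * (1 - η) - η)) -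
      c3 * ((1 + 2 * η) * (lam + η) ^ 2 * ((lam + η) * (1 + η) + η) + η) := by
  have t1 : Tendsto (fun η : ℝ => (lam - η) ^ 2 - η) (𝓝 0) (𝓝 ((lam - 0) ^ 2 - 0)) :=
    Continuous.tendsto (by fun_prop) 0
  have t2 : Tendsto (fun η : ℝ => ((lam - η) ^ 2 - η) * (1 - η) - η) (𝓝 0) (𝓝 (((lam - 0) ^ 2 - 0) * (1 - 0) - 0)) :=
    Continuous.tendsto (by fun_prop) 0
  have t3 : Tendsto (fun η : ℝ => 1 - (lam + 2 * η) + c2 * ((1 - η) * (((lam - η) ^ 2 - η) * (1 - η) - η)) -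
      c3 * ((1 + 2 * η) * (lam + η) ^ 2 * ((lam + η) * (1 + η) + η) + η)) (𝓝 0)
      (𝓝 (1 - (lam + 2 * 0) + c2 * ((1 - 0) * (((lam - 0) ^ 2 - 0) * (1 - 0) - 0)) -
      c3 * ((1 + 2 * 0) * (lam + 0) ^ 2 * ((lam + 0) * (1 + 0) + 0) + 0))) :=
    Continuous.tendsto (by fun_prop) 0
  have p1 : (0 : ℝ) < (lam - 0) ^ 2 - 0 := by have := pow_pos hlam 2; simpa using this
  have p2 : (0 : ℝ) < ((lam - 0) ^ 2 - 0) * (1 - 0) - 0 := by have := pow_pos hlam 2; simpa using this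
  have p3 : 1 - lam + c2 * lam ^ 2 - c3 * lam ^ 3 - ε < 1 - (lam + 2 * 0) + c2 * ((1 - 0) * (((lam - 0) ^ 2 - 0) * (1 - 0) - 0)) -
      c3 * ((1 + 2 * 0) * (lam + 0) ^ 2 * ((lam + 0) * (1 + 0) + 0) + 0) := by
    ring_nf
    linarith
  have e1 := t1.eventually_const_lt p1
  have e2 := t2.eventually_const_lt p2
  have e3 := t3.eventually_const_lt p3
  have e4 : ∀ᶠ η : ℝ in 𝓝 0, η < 1 := eventually_lt_nhds one_pos
  have e5 : ∀ᶠ η : ℝ in 𝓝 0, η < lam := eventually_lt_nhds hlam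
  have e6 := ((e1.and (e2.and (e3.and (e4.and e5)))).filter_mono (nhdsWithin_le_nhds (s := Set.Ioi (0 : ℝ)))).and self_mem_nhdsWithin
  obtain ⟨η, ⟨h1, h2, h3, h4, h5⟩, h6⟩ := e6.exists
  exact ⟨η, h6, h4, h5, h1.le, h2.le, h3.le⟩

/-- the length of the range of the indices -/
noncomputable def Jr (lam : ℝ) (w M r : ℕ) : ℕ := ⌊lam * kap w r * (Real.log M + 1)⌋₊

/-- the data of a class, without the length -/
structure Cl (w M T s r N R : ℕ) : Prop where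
  hT : M ≤ Ww w * T
  hT2 : Ww w * T ≤ 2 * M
  hN2 : Ww w * N ≤ 2 * M
  hR2 : Ww w * R ≤ 2 * M
  hs : s < Ww w
  hr : r < Ww w
  hN : (M : ℝ) ≤ N * Real.log M
  hR : (M : ℝ) ≤ R * Real.log M
  hsr : ∀ p ∈ pz w, p ∣ r → ¬ p ∣ s


lemma big_of {M n : ℕ} {l : ℝ} (hM : 2 ≤ M) (hl : 41 ≤ l) (h2 : 2 * l ^ 3 ≤ √(M : ℝ)) (hn : (M : ℝ) ≤ n * l) : l ≤ n := by
  have hMr : (2 : ℝ) ≤ M := by exact_mod_cast hM
  have hsM := Real.mul_self_sqrt (show (0 : ℝ) ≤ M by linarith)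
  have h3 : l ^ 2 ≤ √(M : ℝ) := by
    have : l ^ 2 * 1 ≤ l ^ 2 * (2 * l) := mul_le_mul_of_nonneg_left (by linarith) (by positivity)
    calc l ^ 2 = l ^ 2 * 1 := by ring
      _ ≤ l ^ 2 * (2 * l) := this
      _ = 2 * l ^ 3 := by ring
      _ ≤ _ := h2
  have h4 : (1 : ℝ) ≤ √(M : ℝ) := by
    have : (1 : ℝ) ≤ l ^ 2 := one_le_pow₀ (by linarith)
    linarith
  have h5 : l ^ 2 ≤ M := by
    calc l ^ 2 ≤ √(M : ℝ) := h3
      _ = √(M : ℝ) * 1 := by ring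
      _ ≤ √(M : ℝ) * √(M : ℝ) := mul_le_mul_of_nonneg_left h4 (by linarith)
      _ = M := hsM
  have h6 : l * l ≤ n * l := by
    calc l * l = l ^ 2 := by ring
      _ ≤ M := h5
      _ ≤ _ := hn
  exact le_of_mul_le_mul_right h6 (by linarith)

lemma log_lt_self' {M : ℕ} {l : ℝ} (hM : 2 ≤ M) (hl : 41 ≤ l) (h2 : 2 * l ^ 3 ≤ √(M : ℝ)) : l < M := by
  have hMr : (2 : ℝ) ≤ M := by exact_mod_cast hM
  have hsM := Real.mul_self_sqrt (show (0 : ℝ) ≤ M by linarith)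
  have h3 : l < √(M : ℝ) := by
    have h1 : (1 : ℝ) ≤ l ^ 2 := one_le_pow₀ (by linarith)
    calc l < 2 * l := by linarith
      _ = 2 * (l * 1) := by ring
      _ ≤ 2 * (l * l ^ 2) := by gcongr
      _ = 2 * l ^ 3 := by ring
      _ ≤ _ := h2
  have h4 : (1 : ℝ) ≤ √(M : ℝ) := by linarith
  calc l < √(M : ℝ) := h3
    _ = √(M : ℝ) * 1 := by ring
    _ ≤ √(M : ℝ) * √(M : ℝ) := mul_le_mul_of_nonneg_left h4 (by linarith)
    _ = M := hsM

lemma nxy {l lam η V n D J W κ Cw : ℝ} (hlam : 0 < lam) (hl : 41 ≤ l) (hκ0 : 0 < κ) (hV1 : 1 ≤ V) (hκV : κ⁻¹ ≤ V) (hVC : V ≤ Cw)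
    (hVD : V * D ≤ Cw) (hDD : V * (D / W) = κ⁻¹) (hJ1 : J ≤ lam * κ * (l + 1)) (hJ2 : lam * κ * (l + 1) - 1 ≤ J)
    (hxy : |n - D * (J / W)| ≤ D) (a3 : lam + Cw ≤ η * l) (a4 : 2 * Cw ≤ η * l) :
    V * n ≤ (lam + η) * l ∧ V * (D * (J / W)) ≤ (lam + η) * l ∧ (lam - η) * l ≤ V * n := by
  have hyJ : V * (D * (J / W)) = J / κ := by
    have : V * (D * (J / W)) = (V * (D / W)) * J := by ring
    rw [this, hDD, div_eq_inv_mul]
  have hy1 : V * (D * (J / W)) ≤ lam * (l + 1) := by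
    rw [hyJ, div_le_iff₀ hκ0]
    linarith
  have hy2 : lam * (l + 1) - κ⁻¹ ≤ V * (D * (J / W)) := by
    rw [hyJ, le_div_iff₀ hκ0]
    have : κ⁻¹ * κ = 1 := inv_mul_cancel₀ hκ0.ne'
    have e : (lam * (l + 1) - κ⁻¹) * κ = lam * κ * (l + 1) - κ⁻¹ * κ := by ring
    rw [e, this]
    exact hJ2
  have h := abs_le.1 hxy
  have k1 := mul_le_mul_of_nonneg_left h.2 (show 0 ≤ V by linarith)
  have k2 := mul_le_mul_of_nonneg_left h.1 (show 0 ≤ V by linarith)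
  have e1 : V * (n - D * (J / W)) = V * n - V * (D * (J / W)) := by ring
  have e2 : V * -D = -(V * D) := by ring
  rw [e1] at k1 k2
  rw [e2] at k2
  have e3 : lam * (l + 1) = lam * l + lam := by ring
  have e4 : (lam + η) * l = lam * l + η * l := by ring
  have e5 : (lam - η) * l = lam * l - η * l := by ring
  rw [e3] at hy1 hy2
  rw [e4, e5]
  refine ⟨by linarith, by linarith, by linarith⟩

lemma nb1 {l η lam V n NR : ℝ} (hl : 41 ≤ l) (a7 : 4 ≤ η * l) (hn0 : 0 ≤ n) (hn : n ≤ l ^ 2)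
    (hx : V * n ≤ (lam + η) * l) (hNR : 0 ≤ NR) : (1 / l) * (NR * (V * n + n * (4 / l ^ 8))) ≤ NR * (lam + 2 * η) := by
  have hl0 : 0 < l := by linarith
  have h2 : n * (4 / l ^ 8) ≤ η * l := by
    calc n * (4 / l ^ 8) ≤ l ^ 2 * (4 / l ^ 8) := by gcongr
      _ = 4 / l ^ 6 := by field_simp
      _ ≤ 4 := by
          rw [div_le_iff₀ (by positivity)]
          have : 1 ≤ l ^ 6 := one_le_pow₀ (by linarith)
          linarith
      _ ≤ η * l := a7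
  have h1 : V * n + n * (4 / l ^ 8) ≤ (lam + 2 * η) * l := by
    have e : (lam + 2 * η) * l = (lam + η) * l + η * l := by ring
    rw [e]
    exact add_le_add hx h2
  calc (1 / l) * (NR * (V * n + n * (4 / l ^ 8))) ≤ (1 / l) * (NR * ((lam + 2 * η) * l)) := by gcongr
    _ = _ := by field_simp

lemma nb2 {l η lam V n NR w : ℝ} (hl : 41 ≤ l) (hw : 16 ≤ w) (hw24 : 24 / w ≤ η) (hη0 : 0 < η) (hη1 : η < 1) (hηl : η < lam)
    (hG1 : 0 ≤ (lam - η) ^ 2 - η) (hG2 : 0 ≤ ((lam - η) ^ 2 - η) * (1 - η) - η) (hV1 : 1 ≤ V)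
    (a6 : 8 * Real.log l ≤ η * l) (a7 : 4 ≤ η * l) (a8 : V * (lam + η) ≤ η * l) (hn0 : 0 ≤ n) (hn : n ≤ l ^ 2)
    (hxu : V * n ≤ (lam + η) * l) (hxl : (lam - η) * l ≤ V * n) (hNR : 0 ≤ NR) :
    NR * ((1 - η) * (((lam - η) ^ 2 - η) * (1 - η) - η)) ≤
      (1 / (l + 4 * Real.log l)) ^ 2 * (NR * (n * (n - 1) * (V ^ 2 * (1 - 2 / w)) - n ^ 2 * (4 / l ^ 8))) := by
  have hl0 : 0 < l := by linarith
  have hl2 : 0 < l ^ 2 := by positivity
  have hw0 : 0 < w := by linarith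
  obtain ⟨x, hx⟩ : ∃ x, x = V * n := ⟨_, rfl⟩
  rw [← hx] at hxu hxl
  have h1 : (((lam - η) ^ 2 - η) * (1 - η) - η) * l ^ 2 ≤ n * (n - 1) * (V ^ 2 * (1 - 2 / w)) - n ^ 2 * (4 / l ^ 8) := by
    have h2 : n * (n - 1) * V ^ 2 = x ^ 2 - V * x := by rw [hx]; ring
    have h3 : ((lam - η) ^ 2 - η) * l ^ 2 ≤ x ^ 2 - V * x := by
      have h4 : ((lam - η) * l) ^ 2 ≤ x ^ 2 := by
        apply pow_le_pow_left₀ _ hxl
        exact mul_nonneg (by linarith) hl0.le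
      have h5 : V * x ≤ η * l * l := by
        calc V * x ≤ V * ((lam + η) * l) := by gcongr
          _ = V * (lam + η) * l := by ring
          _ ≤ _ := by gcongr
      have e : ((lam - η) ^ 2 - η) * l ^ 2 = ((lam - η) * l) ^ 2 - η * l * l := by ring
      rw [e]
      linarith
    have h6 : 1 - η ≤ 1 - 2 / w := by
      have : 2 / w ≤ 24 / w := by gcongr; norm_num
      linarith
    have h7 : n ^ 2 * (4 / l ^ 8) ≤ η * l ^ 2 := by
      calc n ^ 2 * (4 / l ^ 8) ≤ (l ^ 2) ^ 2 * (4 / l ^ 8) := by gcongr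
        _ = 4 / l ^ 4 := by field_simp
        _ ≤ 4 := by
            rw [div_le_iff₀ (by positivity)]
            have : 1 ≤ l ^ 4 := one_le_pow₀ (by linarith)
            linarith
        _ ≤ η * l := a7
        _ = η * (l * 1) := by ring
        _ ≤ η * (l * l) := by gcongr; linarith
        _ = η * l ^ 2 := by ring
    have h8 : ((lam - η) ^ 2 - η) * l ^ 2 * (1 - η) ≤ (x ^ 2 - V * x) * (1 - 2 / w) := by
      apply mul_le_mul h3 h6 (by linarith)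
      exact (mul_nonneg hG1 hl2.le).trans h3
    have h9 : n * (n - 1) * (V ^ 2 * (1 - 2 / w)) = (x ^ 2 - V * x) * (1 - 2 / w) := by
      rw [← h2]
      ring
    rw [h9]
    have e : (((lam - η) ^ 2 - η) * (1 - η) - η) * l ^ 2 = ((lam - η) ^ 2 - η) * l ^ 2 * (1 - η) - η * l ^ 2 := by ring
    rw [e]
    linarith
  have hll0 : 0 ≤ Real.log l := Real.log_nonneg (by linarith)
  have hll : 0 < l + 4 * Real.log l := by linarith
  have h2 : (1 - η) * (1 / l ^ 2) ≤ (1 / (l + 4 * Real.log l)) ^ 2 := by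
    rw [mul_one_div, div_pow, one_pow, div_le_div_iff₀ hl2 (by positivity), one_mul]
    have h3 : (1 - η / 2) * (l + 4 * Real.log l) ≤ l := by
      have e : (1 - η / 2) * (l + 4 * Real.log l) = l + (1 / 2) * (8 * Real.log l - η * l) - 2 * (η * Real.log l) := by ring
      rw [e]
      have : 0 ≤ η * Real.log l := by positivity
      linarith
    have h4 : 0 ≤ (1 - η / 2) * (l + 4 * Real.log l) := mul_nonneg (by linarith) hll.le
    have h5 := pow_le_pow_left₀ h4 h3 2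
    have h6 : (1 - η) ≤ (1 - η / 2) ^ 2 := by
      have : (1 - η / 2) ^ 2 = 1 - η + (η / 2) ^ 2 := by ring
      rw [this]
      have := sq_nonneg (η / 2)
      linarith
    calc (1 - η) * (l + 4 * Real.log l) ^ 2 ≤ (1 - η / 2) ^ 2 * (l + 4 * Real.log l) ^ 2 := by gcongr
      _ = ((1 - η / 2) * (l + 4 * Real.log l)) ^ 2 := by ring
      _ ≤ _ := h5
  have h3 : 0 ≤ (((lam - η) ^ 2 - η) * (1 - η) - η) * l ^ 2 := mul_nonneg hG2 hl2.le
  calc NR * ((1 - η) * (((lam - η) ^ 2 - η) * (1 - η) - η)) =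
        (1 - η) * (1 / l ^ 2) * (NR * ((((lam - η) ^ 2 - η) * (1 - η) - η) * l ^ 2)) := by field_simp
    _ ≤ (1 / (l + 4 * Real.log l)) ^ 2 * (NR * ((((lam - η) ^ 2 - η) * (1 - η) - η) * l ^ 2)) := by
        apply mul_le_mul_of_nonneg_right h2
        exact mul_nonneg hNR h3
    _ ≤ _ := by
        apply mul_le_mul_of_nonneg_left _ (by positivity)
        exact mul_le_mul_of_nonneg_left h1 hNR

lemma nb3 {l η lam V n N R w D JW E8 Cw : ℝ} (hl : 41 ≤ l) (hw : 16 ≤ w) (hw24 : 24 / w ≤ η) (hη0 : 0 < η) (hlam : 0 < lam)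
    (hV1 : 1 ≤ V) (hD : 0 ≤ D) (hJW : 0 ≤ JW) (hN : 0 ≤ N) (hR : 0 ≤ R) (hE0 : 0 ≤ E8)
    (a7 : 4 ≤ η * l) (hn0 : 0 ≤ n) (hn : n ≤ l ^ 2) (hxu : V * n ≤ (lam + η) * l) (hyu : V * (D * JW) ≤ (lam + η) * l)
    (hER : E8 ≤ η * R) (hVD : V * D ≤ Cw) (hCE : Cw * E8 ≤ η * l) :
    (1 / l) ^ 3 * (V ^ 3 * N * ((R + R * (24 / w) + E8) * (n ^ 2 * (n + D * JW * (24 / w) + D * E8))) +
      n ^ 3 * (N * R * (4 / l ^ 8))) ≤ (N * R) * ((1 + 2 * η) * (lam + η) ^ 2 * ((lam + η) * (1 + η) + η) + η) := by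
  have hl0 : 0 < l := by linarith
  have hw0 : 0 < w := by linarith
  have h24 : 0 ≤ 24 / w := by positivity
  have h1 : V ^ 3 * N * ((R + R * (24 / w) + E8) * (n ^ 2 * (n + D * JW * (24 / w) + D * E8))) =
      N * (R + R * (24 / w) + E8) * ((V * n) ^ 2 * (V * n + V * (D * JW) * (24 / w) + V * D * E8)) := by ring
  have h2 : R + R * (24 / w) + E8 ≤ R * (1 + 2 * η) := by
    have : R * (24 / w) ≤ R * η := by gcongr
    have e : R * (1 + 2 * η) = R + R * η + η * R := by ring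
    rw [e]
    linarith
  have hyn : 0 ≤ V * (D * JW) := by positivity
  have h3 : V * n + V * (D * JW) * (24 / w) + V * D * E8 ≤ ((lam + η) * (1 + η) + η) * l := by
    have k1 : V * (D * JW) * (24 / w) ≤ (lam + η) * l * η := by gcongr
    have k2 : V * D * E8 ≤ η * l := (mul_le_mul_of_nonneg_right hVD hE0).trans hCE
    have e : ((lam + η) * (1 + η) + η) * l = (lam + η) * l + (lam + η) * l * η + η * l := by ring
    rw [e]
    linarith
  have h4 : n ^ 3 * (N * R * (4 / l ^ 8)) ≤ N * R * (η * l ^ 3) := by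
    calc n ^ 3 * (N * R * (4 / l ^ 8)) ≤ (l ^ 2) ^ 3 * (N * R * (4 / l ^ 8)) := by gcongr
      _ = N * R * (4 / l ^ 2) := by field_simp
      _ ≤ N * R * (η * l ^ 3) := by
          apply mul_le_mul_of_nonneg_left _ (by positivity)
          have hl21 : 1 ≤ l ^ 2 := one_le_pow₀ (by linarith)
          calc 4 / l ^ 2 ≤ 4 := by
                rw [div_le_iff₀ (by positivity)]
                linarith
            _ ≤ η * l := a7
            _ = η * (l * 1) := by ring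
            _ ≤ η * (l * l ^ 2) := by gcongr
            _ = η * l ^ 3 := by ring
  have h5 : 0 ≤ V * n := by positivity
  have h6 : 0 ≤ V * D * E8 := by positivity
  rw [h1]
  calc (1 / l) ^ 3 * (N * (R + R * (24 / w) + E8) * ((V * n) ^ 2 * (V * n + V * (D * JW) * (24 / w) + V * D * E8)) +
        n ^ 3 * (N * R * (4 / l ^ 8)))
      ≤ (1 / l) ^ 3 * (N * (R * (1 + 2 * η)) * (((lam + η) * l) ^ 2 * (((lam + η) * (1 + η) + η) * l)) + N * R * (η * l ^ 3)) := by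
        apply mul_le_mul_of_nonneg_left _ (by positivity)
        apply add_le_add _ h4
        apply mul_le_mul
        · exact mul_le_mul_of_nonneg_left h2 hN
        · apply mul_le_mul _ h3 _ (by positivity)
          · exact pow_le_pow_left₀ h5 hxu 2
          · positivity
        · positivity
        · positivity
    _ = _ := by field_simp

lemma E8_le {w z B : ℕ} {l C V : ℝ} (hV : V = (Vz w)⁻¹) (hC1 : 1 ≤ C) (hC : (Vz z)⁻¹ ≤ C * Real.log z)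
    (hz3 : (z : ℝ) ≤ l ^ (B + 1)) (hz : 3 ≤ z) : ∏ p ∈ pwz w z, uu p ^ 8 ≤ (C * ((B + 1) * Real.log l)) ^ 8 := by
  have hV1 : 1 ≤ V := by
    rw [hV]
    exact (one_le_inv₀ (Vz_pos w)).2 (Vz_le1 w)
  have h2 : Real.log z ≤ (B + 1) * Real.log l := by
    have := Real.log_le_log (by exact_mod_cast (show 0 < z by omega)) hz3
    rw [Real.log_pow] at this
    push_cast at this
    exact this
  have h6 : 0 ≤ ∏ p ∈ pwz w z, uu p := by
    apply prod_nonneg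
    intro p hp
    have := one_le_uu (mem_pwz.1 hp).1.2.two_le
    linarith
  have h3 : ∏ p ∈ pwz w z, uu p ≤ (Vz z)⁻¹ := by
    rcases le_or_gt w z with h | h
    · have h4 := Vz_split h
      rw [h4, mul_inv]
      have h5 : ∏ p ∈ pwz w z, uu p = (∏ p ∈ pwz w z, (1 - 1 / (p : ℝ)))⁻¹ := by
        rw [← prod_inv_distrib]
        rfl
      rw [← h5, ← hV]
      exact le_mul_of_one_le_left h6 hV1
    · have h4 : pwz w z = ∅ := by
        rw [eq_empty_iff_forall_notMem]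
        intro p hp
        rw [mem_pwz] at hp
        omega
      rw [h4, prod_empty]
      exact (one_le_inv₀ (Vz_pos _)).2 (Vz_le1 _)
  rw [prod_pow]
  have h7 : C * Real.log z ≤ C * ((B + 1) * Real.log l) := mul_le_mul_of_nonneg_left h2 (by linarith)
  exact pow_le_pow_left₀ h6 (h3.trans (hC.trans h7)) 8

lemma E8_nonneg (w z : ℕ) : 0 ≤ ∏ p ∈ pwz w z, uu p ^ 8 := by
  apply prod_nonneg
  intro p hp
  have := one_le_uu (mem_pwz.1 hp).1.2.two_le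
  positivity

lemma dist (N R : ℕ) (c2 c3 : ℝ) (a b d : ℕ → ℕ → ℝ) :
    ∑ x ∈ Icc 1 N, ∑ t ∈ Icc 1 R, (1 - a x t + c2 * b x t - c3 * d x t) =
      (N : ℝ) * R - ∑ x ∈ Icc 1 N, ∑ t ∈ Icc 1 R, a x t + c2 * ∑ x ∈ Icc 1 N, ∑ t ∈ Icc 1 R, b x t -
        c3 * ∑ x ∈ Icc 1 N, ∑ t ∈ Icc 1 R, d x t := by
  simp only [sum_sub_distrib, sum_add_distrib, mul_sum]
  simp

/-- the exchange of the sums -/
lemma swap_sums (A : Finset ℕ) (N R : ℕ) (c2 c3 : ℝ) (f : ℕ → ℕ → ℕ → ℝ) :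
    (N : ℝ) * R - ∑ j ∈ A, ∑ b ∈ Icc 1 N, ∑ t ∈ Icc 1 R, f j b t +
      c2 * (∑ j1 ∈ A, ∑ j2 ∈ A.erase j1, ∑ b ∈ Icc 1 N, ∑ t ∈ Icc 1 R, f j1 b t * f j2 b t) -
      c3 * (∑ j1 ∈ A, ∑ j2 ∈ A.erase j1, ∑ j3 ∈ (A.erase j1).erase j2, ∑ b ∈ Icc 1 N, ∑ t ∈ Icc 1 R,
          f j1 b t * f j2 b t * f j3 b t) =
      ∑ b ∈ Icc 1 N, ∑ t ∈ Icc 1 R, (1 - ∑ j ∈ A, f j b t + c2 * (∑ j1 ∈ A, ∑ j2 ∈ A.erase j1, f j1 b t * f j2 b t) -
        c3 * (∑ j1 ∈ A, ∑ j2 ∈ A.erase j1, ∑ j3 ∈ (A.erase j1).erase j2, f j1 b t * f j2 b t * f j3 b t)) := by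
  rw [dist N R c2 c3 (fun b t => ∑ j ∈ A, f j b t) (fun b t => ∑ j1 ∈ A, ∑ j2 ∈ A.erase j1, f j1 b t * f j2 b t)
    (fun b t => ∑ j1 ∈ A, ∑ j2 ∈ A.erase j1, ∑ j3 ∈ (A.erase j1).erase j2, f j1 b t * f j2 b t * f j3 b t)]
  have g2 : ∑ b ∈ Icc 1 N, ∑ t ∈ Icc 1 R, ∑ j ∈ A, f j b t = ∑ j ∈ A, ∑ b ∈ Icc 1 N, ∑ t ∈ Icc 1 R, f j b t := by
    calc ∑ b ∈ Icc 1 N, ∑ t ∈ Icc 1 R, ∑ j ∈ A, f j b t =
          ∑ b ∈ Icc 1 N, ∑ j ∈ A, ∑ t ∈ Icc 1 R, f j b t := sum_congr rfl fun b _ => sum_comm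
      _ = _ := sum_comm
  have gen : ∀ (A' : ℕ → Finset ℕ) (F : ℕ → ℕ → ℕ → ℕ → ℝ), ∑ b ∈ Icc 1 N, ∑ t ∈ Icc 1 R, ∑ j1 ∈ A, ∑ j2 ∈ A' j1, F j1 j2 b t =
      ∑ j1 ∈ A, ∑ j2 ∈ A' j1, ∑ b ∈ Icc 1 N, ∑ t ∈ Icc 1 R, F j1 j2 b t := by
    intro A' F
    have q1 : ∀ b ∈ Icc 1 N, ∑ t ∈ Icc 1 R, ∑ j1 ∈ A, ∑ j2 ∈ A' j1, F j1 j2 b t = ∑ j1 ∈ A, ∑ j2 ∈ A' j1, ∑ t ∈ Icc 1 R, F j1 j2 b t := by
      intro b _
      rw [sum_comm]
      exact sum_congr rfl fun j1 _ => sum_comm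
    rw [sum_congr rfl q1, sum_comm]
    exact sum_congr rfl fun j1 _ => sum_comm
  have g3 := gen (fun j1 => A.erase j1) (fun j1 j2 b t => f j1 b t * f j2 b t)
  have g4 := gen (fun j1 => A.erase j1) (fun j1 j2 b t => ∑ j3 ∈ (A.erase j1).erase j2, f j1 b t * f j2 b t * f j3 b t)
  have g5 : ∑ j1 ∈ A, ∑ j2 ∈ A.erase j1, ∑ b ∈ Icc 1 N, ∑ t ∈ Icc 1 R, ∑ j3 ∈ (A.erase j1).erase j2, f j1 b t * f j2 b t * f j3 b t =
      ∑ j1 ∈ A, ∑ j2 ∈ A.erase j1, ∑ j3 ∈ (A.erase j1).erase j2, ∑ b ∈ Icc 1 N, ∑ t ∈ Icc 1 R, f j1 b t * f j2 b t * f j3 b t := by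
    apply sum_congr rfl
    intro j1 _
    apply sum_congr rfl
    intro j2 _
    calc ∑ b ∈ Icc 1 N, ∑ t ∈ Icc 1 R, ∑ j3 ∈ (A.erase j1).erase j2, f j1 b t * f j2 b t * f j3 b t =
          ∑ b ∈ Icc 1 N, ∑ j3 ∈ (A.erase j1).erase j2, ∑ t ∈ Icc 1 R, f j1 b t * f j2 b t * f j3 b t :=
          sum_congr rfl fun b _ => sum_comm
      _ = _ := sum_comm
  rw [g2, g3, g4, g5]

open Classical in
/-- the pointwise inequality -/
lemma pointwise {w M T s r J b t k : ℕ} (hk : 1 ≤ k) (hT : M ≤ Ww w * T) (hWM : Ww w < M) :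
    1 - ∑ j ∈ JJ w J s r, ip (vv (Ww w) T s r j b t) +
        (2 * k - 1) / (k * (k + 1)) * (∑ j1 ∈ JJ w J s r, ∑ j2 ∈ (JJ w J s r).erase j1, ip (vv (Ww w) T s r j1 b t) * ip (vv (Ww w) T s r j2 b t)) -
        1 / (k * (k + 1)) * (∑ j1 ∈ JJ w J s r, ∑ j2 ∈ (JJ w J s r).erase j1, ∑ j3 ∈ ((JJ w J s r).erase j1).erase j2,
          ip (vv (Ww w) T s r j1 b t) * ip (vv (Ww w) T s r j2 b t) * ip (vv (Ww w) T s r j3 b t)) ≤
      (if ∀ j ∈ Icc 1 J, ¬ (vv (Ww w) T s r j b t).Prime then (1 : ℝ) else 0) := by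
  obtain ⟨A, hA⟩ : ∃ A, A = JJ w J s r := ⟨_, rfl⟩
  rw [← hA]
  obtain ⟨X, hX⟩ : ∃ X : ℕ, X = (A.filter fun j => (vv (Ww w) T s r j b t).Prime).card := ⟨_, rfl⟩
  have hXs : (X : ℝ) = ∑ j ∈ A, ip (vv (Ww w) T s r j b t) := by
    rw [hX, card_filter]
    push_cast
    rfl
  obtain ⟨f1, f2⟩ := fac_moments A (fun j => ip (vv (Ww w) T s r j b t)) (fun j => ip01 _) (X : ℝ) hXs
  rw [f1, f2, ← hXs]
  refine (pt X k hk).trans ?_
  by_cases hX0 : X = 0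
  · rw [if_pos hX0, if_pos]
    intro j hj hp
    rw [hX, card_eq_zero, filter_eq_empty_iff] at hX0
    by_cases hjA : j ∈ A
    · exact hX0 hjA hp
    · rw [hA] at hjA
      unfold JJ at hjA
      rw [mem_filter] at hjA
      push Not at hjA
      obtain ⟨q, hq, hd⟩ := hjA hj
      have h4 : vv (Ww w) T s r j b t = Ww w * (b + j * t + j * T) + (s + j * r) := by
        unfold vv
        ring
      have h5 : q ∣ vv (Ww w) T s r j b t := by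
        rw [h4]
        exact Dvd.dvd.add (Dvd.dvd.mul_right (dvd_Ww hq) _) hd
      have h6 : q = vv (Ww w) T s r j b t := (Nat.prime_dvd_prime_iff_eq (mem_pz.1 hq).2 hp).1 h5
      have h7 : M ≤ vv (Ww w) T s r j b t := by
        rw [mem_Icc] at hj
        have h1 : 1 * (Ww w * T + r) ≤ j * (Ww w * T + r) := Nat.mul_le_mul_right _ hj.1
        unfold vv
        omega
      have h8 : q ≤ Ww w := Nat.le_of_dvd (Ww_pos w) (dvd_Ww hq)
      omega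
  · rw [if_neg hX0]
    split_ifs <;> norm_num

open Classical in
/-- one class -/
theorem cls (lam : ℝ) (hlam : 0 < lam) (k : ℕ) (hk : 1 ≤ k) (ε : ℝ) (hε : 0 < ε) : ∃ w1 : ℕ, ∀ w : ℕ, w1 ≤ w →
    ∃ M0 : ℕ, ∀ M : ℕ, M0 ≤ M → ∀ T s r N R : ℕ, Cl w M T s r N R →
      (N * R : ℝ) * (1 - lam + (2 * k - 1) / (k * (k + 1)) * lam ^ 2 - 1 / (k * (k + 1)) * lam ^ 3 - ε) ≤
        ∑ b ∈ Icc 1 N, ∑ t ∈ Icc 1 R, (if ∀ j ∈ Icc 1 (Jr lam w M r), ¬ (vv (Ww w) T s r j b t).Prime then (1 : ℝ) else 0) := by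
  have hk0 : (1 : ℝ) ≤ k := by exact_mod_cast hk
  obtain ⟨c2, hc2⟩ : ∃ c2 : ℝ, c2 = (2 * k - 1) / (k * (k + 1)) := ⟨_, rfl⟩
  obtain ⟨c3, hc3⟩ : ∃ c3 : ℝ, c3 = 1 / (k * (k + 1)) := ⟨_, rfl⟩
  have hc20 : 0 ≤ c2 := by
    rw [hc2]
    apply div_nonneg
    · linarith
    · positivity
  have hc30 : 0 ≤ c3 := by rw [hc3]; positivity
  obtain ⟨η, hη0, hη1, hηl, hG1, hG2, hF⟩ := choose_eta lam c2 c3 ε hlam hε
  obtain ⟨B, hB1, hB⟩ := sums
  obtain ⟨C, hC1, hC⟩ := Pool.Agent.K9h54.TF.mert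
  obtain ⟨w1, hw1⟩ : ∃ w1 : ℕ, 24 / η ≤ w1 := exists_nat_ge _
  refine ⟨max w1 16, fun w hw => ?_⟩
  have hw16 : 16 ≤ w := by omega
  have hwr : (16 : ℝ) ≤ w := by exact_mod_cast hw16
  have hw24 : 24 / (w : ℝ) ≤ η := by
    have h1 : 24 / η ≤ w := hw1.trans (by exact_mod_cast (show w1 ≤ w by omega))
    rw [div_le_iff₀ hη0] at h1
    rw [div_le_iff₀ (by linarith)]
    linarith
  obtain ⟨V, hV⟩ : ∃ V, V = (Vz w)⁻¹ := ⟨_, rfl⟩
  obtain ⟨Cw, hCw⟩ : ∃ Cw, Cw = V * Ww w := ⟨_, rfl⟩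
  have hV1 : 1 ≤ V := by
    rw [hV]
    exact (one_le_inv₀ (Vz_pos w)).2 (Vz_le1 w)
  have hW1 : (1 : ℝ) ≤ Ww w := by exact_mod_cast Ww_pos w
  have hVC : V ≤ Cw := by rw [hCw]; exact le_mul_of_one_le_right (by linarith) hW1
  obtain ⟨M1, hM1⟩ := hB w hw16
  have hev := (Real.tendsto_log_atTop.comp (tendsto_natCast_atTop_atTop (R := ℝ))).eventually (Lg_ev lam η V Cw C hlam hη0 B)
  obtain ⟨M2, hM2⟩ := eventually_atTop.1 hev
  refine ⟨max M1 M2, fun M hM T s r N R hcl => ?_⟩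
  obtain ⟨hb, hsum⟩ := hM1 M (by omega)
  have hLg : Lg lam η V Cw C B (Real.log M) := hM2 M (by omega)
  obtain ⟨J, hJ⟩ : ∃ J, J = Jr lam w M r := ⟨_, rfl⟩
  rw [← hJ]
  obtain ⟨hz1, hz2, hz3⟩ := zz_bounds hb
  have hκ0 : 0 < kap w r := kap_pos w r
  have hκV : (kap w r)⁻¹ ≤ V := by
    rw [hV]
    exact inv_anti₀ (Vz_pos w) (kap_ge w r)
  have hl0 : 0 < Real.log M := by linarith [hLg.a9]
  have hJr1 : (J : ℝ) ≤ lam * kap w r * (Real.log M + 1) := by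
    rw [hJ]
    apply Nat.floor_le
    positivity
  have hJr2 : lam * kap w r * (Real.log M + 1) - 1 ≤ J := by
    rw [hJ]
    have := Nat.lt_floor_add_one (lam * kap w r * (Real.log M + 1))
    unfold Jr
    linarith
  have hJle : (J : ℝ) ≤ lam * (Real.log M + 1) := by
    refine hJr1.trans ?_
    have : lam * kap w r ≤ lam * 1 := mul_le_mul_of_nonneg_left (kap_le w r) hlam.le
    rw [mul_one] at this
    exact mul_le_mul_of_nonneg_right this (by linarith)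
  have hJ2 : 2 ≤ J := by
    have h1 : 3 ≤ lam * kap w r * (Real.log M + 1) := by
      have h2 : 3 * (kap w r)⁻¹ ≤ lam * Real.log M := by linarith [hLg.a1]
      have h3 : 3 ≤ lam * Real.log M * kap w r := by
        rw [← div_eq_mul_inv, div_le_iff₀ hκ0] at h2
        exact h2
      have h4 : 0 < lam * kap w r := by positivity
      have e : lam * kap w r * (Real.log M + 1) = lam * Real.log M * kap w r + lam * kap w r := by ring
      rw [e]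
      linarith
    have h2 : (2 : ℝ) ≤ J := by linarith
    exact_mod_cast h2
  have hJl : (J : ℝ) ≤ Real.log M ^ 2 := hJle.trans hLg.a2
  obtain ⟨s1, s2, s3⟩ := hsum T s r N R J ⟨hcl.hT, hcl.hT2, hcl.hN2, hcl.hR2, hcl.hs, hcl.hr, hcl.hN, hcl.hR, hJ2, hJl⟩
  have hNR0 : 0 ≤ (N : ℝ) * R := by positivity
  have hRl : Real.log M ≤ R := big_of hb.h4 hLg.a9 hb.h2 hcl.hR
  have hDW : ((DD w s r).card : ℝ) ≤ Ww w := by
    have : (DD w s r).card ≤ Ww w := by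
      unfold DD
      refine (card_filter_le _ _).trans ?_
      rw [card_range]
    exact_mod_cast this
  have hVD : V * (DD w s r).card ≤ Cw := by
    rw [hCw]
    exact mul_le_mul_of_nonneg_left hDW (by linarith)
  have hDD := DD_eq w s r hcl.hsr
  rw [← hV] at hDD
  obtain ⟨hxu, hyu, hxl⟩ := nxy hlam hLg.a9 hκ0 hV1 hκV hVC hVD hDD hJr1 hJr2 (JJ_card w J s r) hLg.a3 hLg.a4
  have hn0 : (0 : ℝ) ≤ (JJ w J s r).card := Nat.cast_nonneg _
  have hnJ : ((JJ w J s r).card : ℝ) ≤ Real.log M ^ 2 := by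
    have h1 : (JJ w J s r).card ≤ J := by
      unfold JJ
      refine (card_filter_le _ _).trans ?_
      rw [Nat.card_Icc]
      omega
    have : ((JJ w J s r).card : ℝ) ≤ J := by exact_mod_cast h1
    linarith
  have hz3' : 3 ≤ zz B M := by
    have h1 : (2 * Real.log M) ^ 1 ≤ (2 * Real.log M) ^ B := pow_le_pow_right₀ (by linarith [hLg.a9]) hB1
    rw [pow_one] at h1
    have h2 : (3 : ℝ) ≤ zz B M := by linarith [hLg.a9]
    exact_mod_cast h2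
  have hE8u := E8_le hV hC1 (hC _ hz3').2 hz3 hz3'
  have hE80 := E8_nonneg w (zz B M)
  have hCE : Cw * ∏ p ∈ pwz w (zz B M), uu p ^ 8 ≤ η * Real.log M :=
    (mul_le_mul_of_nonneg_left hE8u (by linarith)).trans hLg.a5
  have hE8R : ∏ p ∈ pwz w (zz B M), uu p ^ 8 ≤ η * R := by
    have h1 : ∏ p ∈ pwz w (zz B M), uu p ^ 8 ≤ Cw * ∏ p ∈ pwz w (zz B M), uu p ^ 8 := le_mul_of_one_le_left hE80 (by linarith)
    have h2 : η * Real.log M ≤ η * R := mul_le_mul_of_nonneg_left hRl hη0.le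
    linarith
  have hWM : Ww w < M := by
    have h1 := log_lt_self' hb.h4 hLg.a9 hb.h2
    have h2 : (Ww w : ℝ) < M := lt_of_le_of_lt hb.h3 h1
    exact_mod_cast h2
  have htot := sum_le_sum fun b (_ : b ∈ Icc 1 N) => sum_le_sum fun t (_ : t ∈ Icc 1 R) =>
    pointwise (w := w) (M := M) (T := T) (s := s) (r := r) (J := J) (b := b) (t := t) hk hcl.hT hWM
  rw [← swap_sums (JJ w J s r) N R _ _ (fun j b t => ip (vv (Ww w) T s r j b t)), ← hc2, ← hc3] at htot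
  refine le_trans ?_ htot
  rw [← hV] at s1 s2 s3
  have b1 := s1.trans (nb1 hLg.a9 hLg.a7 hn0 hnJ hxu hNR0)
  have b2 := (nb2 hLg.a9 hwr hw24 hη0 hη1 hηl hG1 hG2 hV1 hLg.a6 hLg.a7 hLg.a8 hn0 hnJ hxu hxl hNR0).trans s2
  have b3 := s3.trans (nb3 hLg.a9 hwr hw24 hη0 hlam hV1 (Nat.cast_nonneg _) (by positivity) (Nat.cast_nonneg _) (Nat.cast_nonneg _) hE80
    hLg.a7 hn0 hnJ hxu hyu hE8R hVD hCE)
  have f1 := mul_le_mul_of_nonneg_left b2 hc20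
  have f2 := mul_le_mul_of_nonneg_left b3 hc30
  have f3 := mul_le_mul_of_nonneg_left hF hNR0
  rw [← hc2, ← hc3]
  have f4 : (N * R : ℝ) * (1 - (lam + 2 * η) + c2 * ((1 - η) * (((lam - η) ^ 2 - η) * (1 - η) - η)) -
      c3 * ((1 + 2 * η) * (lam + η) ^ 2 * ((lam + η) * (1 + η) + η) + η)) =
      (N * R) - (N * R) * (lam + 2 * η) + c2 * ((N * R) * ((1 - η) * (((lam - η) ^ 2 - η) * (1 - η) - η))) -
        c3 * ((N * R) * ((1 + 2 * η) * (lam + η) ^ 2 * ((lam + η) * (1 + η) + η) + η)) := by ring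
  have f5 : (N * R : ℝ) * (1 - lam + c2 * lam ^ 2 - c3 * lam ^ 3 - ε) ≤ (N * R) - (N * R) * (lam + 2 * η) +
      c2 * ((N * R) * ((1 - η) * (((lam - η) ^ 2 - η) * (1 - η) - η))) -
        c3 * ((N * R) * ((1 + 2 * η) * (lam + η) ^ 2 * ((lam + η) * (1 + η) + η) + η)) := by
    rw [← f4]
    exact f3
  refine f5.trans ?_
  clear hF f3 f4 f5 hG1 hG2
  linarith

end Pool.Agent.K9h54.LP
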